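import Mathlib
import Pool.Agent.H373R2.T7.BilF
import Pool.Agent.H373R2.T7.SupE2

/-! A bilinear estimate: two arbitrary weights and a function with small exponential sums. -/

set_option autoImplicit false

namespace Pool.Agent.T9h23.Cor
open Finset
open Pool.Agent.H807R2.Dav
open Pool.Agent.H373R2.T7

/-- Parseval for frequencies `t / Q` along an arithmetic progression of step `α ≠ 0`. -/
lemma parseval_step (M Q : ℕ) (hQ : 1 ≤ Q) (α : ℤ) (hα : α ≠ 0) (hαM : α.natAbs * M < Q) (V : ℕ → ℂ) :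
    ∑ t ∈ range Q, ‖∑ a ∈ Icc 1 M, V a * ee ((t : ℝ) * (((α * a : ℤ) : ℝ) / Q))‖ ^ 2 =
      Q * ∑ a ∈ Icc 1 M, ‖V a‖ ^ 2 := by
  have h1 := sq_expand (Icc 1 M) V (fun a => α * (a : ℤ)) Q hQ
  have h2 : ∑ i ∈ Icc 1 M, ∑ j ∈ Icc 1 M, V i * (starRingEnd ℂ) (V j) *
      (if (Q : ℤ) ∣ α * (i : ℤ) - α * (j : ℤ) then (Q : ℂ) else 0) =
      ∑ i ∈ Icc 1 M, (Q : ℂ) * ((‖V i‖ ^ 2 : ℝ) : ℂ) := by
    apply sum_congr rfl
    intro i hi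
    rw [sum_eq_single i]
    · rw [sub_self, if_pos (dvd_zero _), Complex.mul_conj']
      push_cast
      ring
    · intro j hj hne
      rw [if_neg, mul_zero]
      intro hd
      rw [mem_Icc] at hi hj
      have h3 : α * (i : ℤ) - α * (j : ℤ) = α * ((i : ℤ) - j) := by ring
      rw [h3] at hd
      have h4 : |(i : ℤ) - j| ≤ M := by rw [abs_le]; constructor <;> omega
      have h5 : |α * ((i : ℤ) - j)| < Q := by
        rw [abs_mul]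
        have h6 : |α| = (α.natAbs : ℤ) := (Int.natCast_natAbs α).symm
        rw [h6]
        calc (α.natAbs : ℤ) * |(i : ℤ) - j| ≤ (α.natAbs : ℤ) * M := by gcongr
          _ = ((α.natAbs * M : ℕ) : ℤ) := by push_cast; ring
          _ < Q := by exact_mod_cast hαM
      have h7 := Int.eq_zero_of_abs_lt_dvd hd h5
      rcases mul_eq_zero.1 h7 with h | h
      · exact hα h
      · apply hne; omega
    · intro h; exact absurd hi h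
  rw [h2, ← mul_sum] at h1
  have h3 : (((∑ t ∈ range Q, ‖∑ a ∈ Icc 1 M, V a * ee ((t : ℝ) * (((α * a : ℤ) : ℝ) / Q))‖ ^ 2 : ℝ)) : ℂ) =
      ((Q * ∑ a ∈ Icc 1 M, ‖V a‖ ^ 2 : ℝ) : ℂ) := by
    rw [h1]
    push_cast
    rfl
  exact_mod_cast h3

/-- The bilinear estimate. -/
theorem bil (X M : ℕ) (G : ℤ → ℂ) (Δ : ℝ)
    (hΔ : ∀ θ : ℝ, ‖∑ u ∈ Icc (-(X : ℤ)) X, G u * ee ((u : ℝ) * θ)‖ ≤ Δ)
    (c α β : ℤ) (hα : α ≠ 0) (hβ : β ≠ 0) (V U : ℕ → ℂ)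
    (hb : ∀ a ∈ Icc 1 M, ∀ b ∈ Icc 1 M, |c + α * (a : ℤ) + β * (b : ℤ)| ≤ X) :
    ‖∑ a ∈ Icc 1 M, ∑ b ∈ Icc 1 M, V a * U b * G (c + α * (a : ℤ) + β * (b : ℤ))‖ ≤
      Δ * (√(∑ a ∈ Icc 1 M, ‖V a‖ ^ 2) * √(∑ b ∈ Icc 1 M, ‖U b‖ ^ 2)) := by
  classical
  set Q : ℕ := 2 * X + 1 + α.natAbs * M + β.natAbs * M with hQd
  have hQ1 : 1 ≤ Q := by omega
  have hQ0 : (0 : ℝ) < Q := by exact_mod_cast hQ1
  have hΔ0 : 0 ≤ Δ := (norm_nonneg _).trans (hΔ 0)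
  -- Fourier inversion
  have hinv : ∀ w : ℤ, |w| ≤ X → (Q : ℂ) * G w =
      ∑ t ∈ range Q, (∑ u ∈ Icc (-(X : ℤ)) X, G u * ee ((u : ℝ) * ((t : ℝ) / Q))) *
        ee ((t : ℝ) * (((-w : ℤ) : ℝ) / Q)) := by
    intro w hw
    simp only [sum_mul]
    rw [sum_comm]
    have h1 : ∀ u ∈ Icc (-(X : ℤ)) X, ∑ t ∈ range Q, G u * ee ((u : ℝ) * ((t : ℝ) / Q)) *
        ee ((t : ℝ) * (((-w : ℤ) : ℝ) / Q)) = if u = w then (Q : ℂ) * G w else 0 := by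
      intro u hu
      have h2 : ∀ t ∈ range Q, G u * ee ((u : ℝ) * ((t : ℝ) / Q)) * ee ((t : ℝ) * (((-w : ℤ) : ℝ) / Q)) =
          G u * ee ((t : ℝ) * (((u - w : ℤ) : ℝ) / Q)) := by
        intro t _
        rw [mul_assoc, ← ee_add]
        congr 2
        push_cast
        ring
      rw [sum_congr rfl h2, ← mul_sum, orth Q hQ1]
      rw [mem_Icc] at hu
      by_cases h : u = w
      · rw [if_pos h, h, sub_self, if_pos (dvd_zero _)]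
        ring
      · rw [if_neg h, if_neg, mul_zero]
        intro hd
        have h3 : |u - w| < Q := by
          have h4 := abs_le.1 hw
          rw [abs_lt]
          have h5 : (Q : ℤ) = 2 * X + 1 + α.natAbs * M + β.natAbs * M := by rw [hQd]; push_cast; ring
          have h6 : (0 : ℤ) ≤ (α.natAbs : ℤ) * M := by positivity
          have h7 : (0 : ℤ) ≤ (β.natAbs : ℤ) * M := by positivity
          constructor <;> nlinarith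
        have h4 := Int.eq_zero_of_abs_lt_dvd hd h3
        apply h; omega
    rw [sum_congr rfl h1, sum_ite_eq' (Icc (-(X : ℤ)) X) w, if_pos]
    rw [mem_Icc]
    exact abs_le.1 hw
  set S : ℕ → ℂ := fun t => ∑ u ∈ Icc (-(X : ℤ)) X, G u * ee ((u : ℝ) * ((t : ℝ) / Q)) with hS
  set Vt : ℕ → ℂ := fun t => ∑ a ∈ Icc 1 M, V a * ee ((t : ℝ) * ((((-α) * (a : ℤ) : ℤ) : ℝ) / Q)) with hVt
  set Ut : ℕ → ℂ := fun t => ∑ b ∈ Icc 1 M, U b * ee ((t : ℝ) * ((((-β) * (b : ℤ) : ℤ) : ℝ) / Q)) with hUt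
  have hmain : (Q : ℂ) * ∑ a ∈ Icc 1 M, ∑ b ∈ Icc 1 M, V a * U b * G (c + α * (a : ℤ) + β * (b : ℤ)) =
      ∑ t ∈ range Q, S t * ee ((t : ℝ) * (((-c : ℤ) : ℝ) / Q)) * (Vt t * Ut t) := by
    have h1 : (Q : ℂ) * ∑ a ∈ Icc 1 M, ∑ b ∈ Icc 1 M, V a * U b * G (c + α * (a : ℤ) + β * (b : ℤ)) =
        ∑ a ∈ Icc 1 M, ∑ b ∈ Icc 1 M, ∑ t ∈ range Q, V a * U b * (S t *
          ee ((t : ℝ) * (((-(c + α * (a : ℤ) + β * (b : ℤ)) : ℤ) : ℝ) / Q))) := by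
      rw [mul_sum]
      apply sum_congr rfl
      intro a ha
      rw [mul_sum]
      apply sum_congr rfl
      intro b hbb
      rw [← mul_sum, ← hinv _ (hb a ha b hbb)]
      ring
    rw [h1]
    have h2 : ∀ a ∈ Icc 1 M, ∑ b ∈ Icc 1 M, ∑ t ∈ range Q, V a * U b * (S t *
          ee ((t : ℝ) * (((-(c + α * (a : ℤ) + β * (b : ℤ)) : ℤ) : ℝ) / Q))) =
        ∑ t ∈ range Q, ∑ b ∈ Icc 1 M, V a * U b * (S t *
          ee ((t : ℝ) * (((-(c + α * (a : ℤ) + β * (b : ℤ)) : ℤ) : ℝ) / Q))) := fun a _ => sum_comm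
    rw [sum_congr rfl h2, sum_comm]
    apply sum_congr rfl
    intro t _
    simp only [hVt, hUt]
    rw [sum_mul_sum, mul_sum]
    apply sum_congr rfl
    intro a _
    rw [mul_sum]
    apply sum_congr rfl
    intro b _
    have h3 : ee ((t : ℝ) * (((-(c + α * (a : ℤ) + β * (b : ℤ)) : ℤ) : ℝ) / Q)) =
        ee ((t : ℝ) * (((-c : ℤ) : ℝ) / Q)) * ee ((t : ℝ) * ((((-α) * (a : ℤ) : ℤ) : ℝ) / Q)) *
          ee ((t : ℝ) * ((((-β) * (b : ℤ) : ℤ) : ℝ) / Q)) := by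
      rw [← ee_add, ← ee_add]
      congr 1
      push_cast
      ring
    rw [h3]
    ring
  have hnorm : (Q : ℝ) * ‖∑ a ∈ Icc 1 M, ∑ b ∈ Icc 1 M, V a * U b * G (c + α * (a : ℤ) + β * (b : ℤ))‖ ≤
      Δ * ∑ t ∈ range Q, ‖Vt t‖ * ‖Ut t‖ := by
    have h1 : (Q : ℝ) * ‖∑ a ∈ Icc 1 M, ∑ b ∈ Icc 1 M, V a * U b * G (c + α * (a : ℤ) + β * (b : ℤ))‖ =
        ‖(Q : ℂ) * ∑ a ∈ Icc 1 M, ∑ b ∈ Icc 1 M, V a * U b * G (c + α * (a : ℤ) + β * (b : ℤ))‖ := by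
      rw [norm_mul, Complex.norm_natCast]
    rw [h1, hmain, mul_sum]
    refine (norm_sum_le _ _).trans (sum_le_sum fun t _ => ?_)
    rw [norm_mul, norm_mul, norm_mul, norm_ee, mul_one]
    exact mul_le_mul_of_nonneg_right (hΔ _) (by positivity)
  have hCS : ∑ t ∈ range Q, ‖Vt t‖ * ‖Ut t‖ ≤
      √(∑ t ∈ range Q, ‖Vt t‖ ^ 2) * √(∑ t ∈ range Q, ‖Ut t‖ ^ 2) :=
    Real.sum_mul_le_sqrt_mul_sqrt _ _ _
  have hα' : (-α).natAbs * M < Q := by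
    rw [Int.natAbs_neg]; omega
  have hβ' : (-β).natAbs * M < Q := by
    rw [Int.natAbs_neg]; omega
  have hV : ∑ t ∈ range Q, ‖Vt t‖ ^ 2 = Q * ∑ a ∈ Icc 1 M, ‖V a‖ ^ 2 :=
    parseval_step M Q hQ1 (-α) (neg_ne_zero.2 hα) hα' V
  have hU : ∑ t ∈ range Q, ‖Ut t‖ ^ 2 = Q * ∑ b ∈ Icc 1 M, ‖U b‖ ^ 2 :=
    parseval_step M Q hQ1 (-β) (neg_ne_zero.2 hβ) hβ' U
  rw [hV, hU, Real.sqrt_mul hQ0.le, Real.sqrt_mul hQ0.le] at hCS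
  have h5 : √(Q : ℝ) * √(∑ a ∈ Icc 1 M, ‖V a‖ ^ 2) * (√(Q : ℝ) * √(∑ b ∈ Icc 1 M, ‖U b‖ ^ 2)) =
      Q * (√(∑ a ∈ Icc 1 M, ‖V a‖ ^ 2) * √(∑ b ∈ Icc 1 M, ‖U b‖ ^ 2)) := by
    have := Real.mul_self_sqrt hQ0.le
    calc _ = (√(Q : ℝ) * √(Q : ℝ)) * (√(∑ a ∈ Icc 1 M, ‖V a‖ ^ 2) * √(∑ b ∈ Icc 1 M, ‖U b‖ ^ 2)) := by ring
      _ = _ := by rw [this]
  rw [h5] at hCS
  have h6 : (Q : ℝ) * ‖∑ a ∈ Icc 1 M, ∑ b ∈ Icc 1 M, V a * U b * G (c + α * (a : ℤ) + β * (b : ℤ))‖ ≤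
      Q * (Δ * (√(∑ a ∈ Icc 1 M, ‖V a‖ ^ 2) * √(∑ b ∈ Icc 1 M, ‖U b‖ ^ 2))) := by
    refine hnorm.trans ((mul_le_mul_of_nonneg_left hCS hΔ0).trans (le_of_eq ?_))
    ring
  exact le_of_mul_le_mul_left h6 hQ0

end Pool.Agent.T9h23.Cor
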