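import Mathlib

/-! Boxes of coefficient vectors and shifts. -/

set_option autoImplicit false

namespace Pool.Agent.T9h23.Cor
open Finset Polynomial

/-- the box of integer vectors of length `n` with entries at most `H` in absolute value -/
noncomputable def Box (n H : ℕ) : Finset (Fin n → ℤ) := Fintype.piFinset (fun _ => Icc (-(H : ℤ)) H)

lemma mem_Box {n H : ℕ} {a : Fin n → ℤ} : a ∈ Box n H ↔ ∀ i, |a i| ≤ H := by
  unfold Box
  rw [Fintype.mem_piFinset]
  refine forall_congr' fun i => ?_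
  rw [mem_Icc, abs_le]

lemma card_Icc' (H : ℕ) : (Icc (-(H : ℤ)) H).card = 2 * H + 1 := by
  rw [Int.card_Icc]; omega

lemma card_Box (n H : ℕ) : (Box n H).card = (2 * H + 1) ^ n := by
  unfold Box
  rw [Fintype.card_piFinset]
  simp only [card_Icc', prod_const, card_univ, Fintype.card_fin]

lemma sum_Box_insert {M : Type*} [AddCommMonoid M] {n : ℕ} (H : ℕ) (i : Fin (n + 1)) (Φ : (Fin (n + 1) → ℤ) → M) :
    ∑ a ∈ Box (n + 1) H, Φ a = ∑ b ∈ Box n H, ∑ x ∈ Icc (-(H : ℤ)) H, Φ (i.insertNth x b) := by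
  rw [← sum_product']
  refine sum_nbij' (fun a => (i.removeNth a, a i)) (fun q => i.insertNth q.2 q.1) ?_ ?_ ?_ ?_ ?_
  · intro a ha
    rw [mem_Box] at ha
    rw [mem_product, mem_Box, mem_Icc]
    exact ⟨fun j => ha _, abs_le.1 (ha i)⟩
  · rintro ⟨b, x⟩ hq
    rw [mem_product, mem_Box, mem_Icc] at hq
    rw [mem_Box]
    intro j
    refine Fin.succAboveCases i ?_ ?_ j
    · simpa using abs_le.2 hq.2
    · intro j; simpa using hq.1 j
  · intro a _
    simp
  · rintro ⟨b, x⟩ _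
    simp
  · intro a _
    simp

lemma card_Box_filter {n : ℕ} (H : ℕ) (i : Fin (n + 1)) (p : ℤ → Prop) [DecidablePred p] :
    ((Box (n + 1) H).filter (fun a => p (a i))).card = ((Icc (-(H : ℤ)) H).filter p).card * (2 * H + 1) ^ n := by
  rw [card_filter, sum_Box_insert H i]
  simp only [Fin.insertNth_apply_same]
  rw [sum_const, card_Box, smul_eq_mul, ← card_filter, mul_comm]

lemma card_out (H : ℕ) (v : ℤ) : ((Icc (-(H : ℤ)) H).filter (fun x => ¬ |x + v| ≤ H)).card ≤ v.natAbs := by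
  rcases le_or_gt 0 v with hv | hv
  · have hs : (Icc (-(H : ℤ)) H).filter (fun x => ¬ |x + v| ≤ H) ⊆ Ioc ((H : ℤ) - v) H := by
      intro x hx
      rw [mem_filter, mem_Icc, abs_le] at hx
      rw [mem_Ioc]
      omega
    refine (card_le_card hs).trans ?_
    rw [Int.card_Ioc]; omega
  · have hs : (Icc (-(H : ℤ)) H).filter (fun x => ¬ |x + v| ≤ H) ⊆ Ico (-(H : ℤ)) (-(H : ℤ) - v) := by
      intro x hx
      rw [mem_filter, mem_Icc, abs_le] at hx
      rw [mem_Ico]
      omega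
    refine (card_le_card hs).trans ?_
    rw [Int.card_Ico]; omega

lemma card_exit {n : ℕ} (H : ℕ) (v : Fin (n + 1) → ℤ) :
    ((Box (n + 1) H).filter (fun a => ¬ (a + v) ∈ Box (n + 1) H)).card ≤ (∑ i, (v i).natAbs) * (2 * H + 1) ^ n := by
  classical
  have hs : (Box (n + 1) H).filter (fun a => ¬ (a + v) ∈ Box (n + 1) H) ⊆
      univ.biUnion (fun i : Fin (n + 1) => (Box (n + 1) H).filter (fun a : Fin (n + 1) → ℤ => ¬ |a i + v i| ≤ (H : ℤ))) := by
    intro a ha
    rw [mem_filter, mem_Box, mem_Box] at ha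
    obtain ⟨h1, h2⟩ := ha
    push Not at h2
    obtain ⟨i, hi⟩ := h2
    rw [mem_biUnion]
    refine ⟨i, mem_univ _, ?_⟩
    rw [mem_filter, mem_Box]
    exact ⟨h1, by simpa using hi⟩
  refine (card_le_card hs).trans (card_biUnion_le.trans ?_)
  rw [sum_mul]
  refine sum_le_sum fun i _ => ?_
  rw [card_Box_filter H i (fun x => ¬ |x + v i| ≤ H)]
  exact Nat.mul_le_mul_right _ (card_out H (v i))

/-- Sums over the box change little under a shift. -/
lemma shift_sum {n : ℕ} (H : ℕ) (v : Fin (n + 1) → ℤ) (hv : ∀ i, |v i| ≤ H) (Ψ : (Fin (n + 1) → ℤ) → ℝ) (B : ℝ)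
    (hB : ∀ a : Fin (n + 1) → ℤ, (∀ i, |a i| ≤ 2 * (H : ℤ)) → |Ψ a| ≤ B) :
    |∑ a ∈ Box (n + 1) H, Ψ (a + v) - ∑ a ∈ Box (n + 1) H, Ψ a| ≤
      2 * B * ((∑ i, (v i).natAbs : ℕ) : ℝ) * (2 * H + 1) ^ n := by
  classical
  have hB0 : 0 ≤ B := (abs_nonneg _).trans (hB 0 (fun i => by simp))
  have h1 : ∑ a ∈ Box (n + 1) H, Ψ (a + v) = ∑ a ∈ (Box (n + 1) H).filter (fun a => (a + v) ∈ Box (n + 1) H), Ψ (a + v) +
      ∑ a ∈ (Box (n + 1) H).filter (fun a => ¬ (a + v) ∈ Box (n + 1) H), Ψ (a + v) :=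
    (sum_filter_add_sum_filter_not _ _ _).symm
  have h2 : ∑ a ∈ Box (n + 1) H, Ψ a = ∑ a ∈ (Box (n + 1) H).filter (fun a => (a + (-v)) ∈ Box (n + 1) H), Ψ a +
      ∑ a ∈ (Box (n + 1) H).filter (fun a => ¬ (a + (-v)) ∈ Box (n + 1) H), Ψ a :=
    (sum_filter_add_sum_filter_not _ _ _).symm
  have h3 : ∑ a ∈ (Box (n + 1) H).filter (fun a => (a + v) ∈ Box (n + 1) H), Ψ (a + v) =
      ∑ a ∈ (Box (n + 1) H).filter (fun a => (a + (-v)) ∈ Box (n + 1) H), Ψ a := by
    refine sum_nbij' (fun a => a + v) (fun a => a + (-v)) ?_ ?_ ?_ ?_ ?_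
    · intro a ha
      rw [mem_filter] at ha ⊢
      refine ⟨ha.2, ?_⟩
      have : a + v + -v = a := by abel
      rw [this]; exact ha.1
    · intro a ha
      rw [mem_filter] at ha ⊢
      refine ⟨ha.2, ?_⟩
      have : a + -v + v = a := by abel
      rw [this]; exact ha.1
    · intro a _; abel
    · intro a _; abel
    · intro a _; rfl
  have hc1 : (((Box (n + 1) H).filter (fun a => ¬ (a + v) ∈ Box (n + 1) H)).card : ℝ) ≤
      ((∑ i, (v i).natAbs : ℕ) : ℝ) * (2 * H + 1) ^ n := by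
    exact_mod_cast card_exit H v
  have hc2 : (((Box (n + 1) H).filter (fun a => ¬ (a + (-v)) ∈ Box (n + 1) H)).card : ℝ) ≤
      ((∑ i, (v i).natAbs : ℕ) : ℝ) * (2 * H + 1) ^ n := by
    have := card_exit H (-v)
    simp only [Pi.neg_apply, Int.natAbs_neg] at this
    exact_mod_cast this
  have hb1 : |∑ a ∈ (Box (n + 1) H).filter (fun a => ¬ (a + v) ∈ Box (n + 1) H), Ψ (a + v)| ≤
      (((Box (n + 1) H).filter (fun a => ¬ (a + v) ∈ Box (n + 1) H)).card : ℝ) * B := by
    refine (abs_sum_le_sum_abs _ _).trans ?_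
    rw [← nsmul_eq_mul]
    refine sum_le_card_nsmul _ _ _ fun a ha => hB _ fun i => ?_
    rw [mem_filter, mem_Box] at ha
    have h4 := ha.1 i
    have h5 := hv i
    rw [Pi.add_apply]
    exact (abs_add_le _ _).trans (by linarith)
  have hb2 : |∑ a ∈ (Box (n + 1) H).filter (fun a => ¬ (a + (-v)) ∈ Box (n + 1) H), Ψ a| ≤
      (((Box (n + 1) H).filter (fun a => ¬ (a + (-v)) ∈ Box (n + 1) H)).card : ℝ) * B := by
    refine (abs_sum_le_sum_abs _ _).trans ?_
    rw [← nsmul_eq_mul]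
    refine sum_le_card_nsmul _ _ _ fun a ha => hB _ fun i => ?_
    rw [mem_filter, mem_Box] at ha
    have h4 := ha.1 i
    have h5 : (0 : ℤ) ≤ H := by positivity
    linarith
  rw [h1, h2, h3]
  have h6 : ∀ x y z : ℝ, x + y - (x + z) = y - z := fun x y z => by ring
  rw [h6]
  refine (abs_sub _ _).trans ?_
  have h7 := mul_le_mul_of_nonneg_right hc1 hB0
  have h8 := mul_le_mul_of_nonneg_right hc2 hB0
  nlinarith

/-- the value at `t` of the polynomial with the coefficient vector `a`, added to a function `P` -/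
def fv {n : ℕ} (P : ℤ → ℤ) (a : Fin n → ℤ) (t : ℤ) : ℤ := P t + ∑ i, a i * t ^ (i : ℕ)

/-- the coefficient vector of a polynomial -/
noncomputable def cv (n : ℕ) (w : ℤ[X]) : Fin n → ℤ := fun i => w.coeff i

lemma fv_add {n : ℕ} (P : ℤ → ℤ) (a b : Fin n → ℤ) (t : ℤ) :
    fv P (a + b) t = fv P a t + ∑ i, b i * t ^ (i : ℕ) := by
  unfold fv
  simp only [Pi.add_apply, add_mul, sum_add_distrib]
  ring

lemma cv_eval {n : ℕ} (w : ℤ[X]) (hw : w.natDegree < n) (t : ℤ) : ∑ i, cv n w i * t ^ (i : ℕ) = w.eval t := by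
  rw [Polynomial.eval_eq_sum_range' hw, Finset.sum_range]
  rfl

lemma cv_smul {n : ℕ} (w : ℤ[X]) (hw : w.natDegree < n) (k t : ℤ) :
    ∑ i, (k • cv n w) i * t ^ (i : ℕ) = k * w.eval t := by
  rw [← cv_eval w hw, mul_sum]
  refine sum_congr rfl fun i _ => ?_
  rw [Pi.smul_apply, smul_eq_mul]
  ring

/-- the polynomial vanishing at the points of `A` -/
noncomputable def wp (A : Finset ℤ) : ℤ[X] := ∏ s ∈ A, (X - C s)

lemma wp_natDegree (A : Finset ℤ) : (wp A).natDegree = A.card := by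
  unfold wp
  rw [natDegree_prod_of_monic _ _ fun s _ => monic_X_sub_C s]
  simp only [natDegree_X_sub_C, sum_const, smul_eq_mul, mul_one]

lemma wp_eval (A : Finset ℤ) (t : ℤ) : (wp A).eval t = ∏ s ∈ A, (t - s) := by
  unfold wp
  rw [eval_prod]
  simp

lemma wp_eval_mem {A : Finset ℤ} {t : ℤ} (h : t ∈ A) : (wp A).eval t = 0 := by
  rw [wp_eval]
  exact prod_eq_zero h (by ring)

lemma wp_eval_ne {A : Finset ℤ} {t : ℤ} (h : t ∉ A) : (wp A).eval t ≠ 0 := by
  rw [wp_eval, prod_ne_zero_iff]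
  intro s hs h0
  apply h
  have : t = s := by omega
  rw [this]; exact hs

lemma wp_coeff (A : Finset ℤ) (T : ℤ) (hA : ∀ s ∈ A, |s| ≤ T) (j : ℕ) : |(wp A).coeff j| ≤ (1 + |T|) ^ A.card := by
  classical
  induction A using Finset.induction_on generalizing j with
  | empty =>
    unfold wp
    rw [prod_empty, card_empty, pow_zero, coeff_one]
    split_ifs <;> simp
  | insert s A hs ih =>
    have h0 : wp (insert s A) = (X - C s) * wp A := by
      unfold wp
      rw [prod_insert hs]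
    have ih' := ih fun s' hs' => hA s' (mem_insert_of_mem hs')
    have hsT : |s| ≤ |T| := (hA s (mem_insert_self _ _)).trans (le_abs_self T)
    rw [h0, card_insert_of_notMem hs, sub_mul, coeff_sub, coeff_C_mul, pow_succ]
    have h1 : |(X * wp A).coeff j| ≤ (1 + |T|) ^ A.card := by
      cases j with
      | zero => rw [coeff_X_mul_zero, abs_zero]; positivity
      | succ j => rw [coeff_X_mul]; exact ih' j
    have h2 : |s * (wp A).coeff j| ≤ |T| * (1 + |T|) ^ A.card := by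
      rw [abs_mul]
      exact mul_le_mul hsT (ih' j) (abs_nonneg _) (abs_nonneg _)
    calc |(X * wp A).coeff j - s * (wp A).coeff j| ≤ |(X * wp A).coeff j| + |s * (wp A).coeff j| := abs_sub _ _
      _ ≤ (1 + |T|) ^ A.card + |T| * (1 + |T|) ^ A.card := add_le_add h1 h2
      _ = (1 + |T|) ^ A.card * (1 + |T|) := by ring

end Pool.Agent.T9h23.Cor
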