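import Mathlib
import Pool.Agent.H373R2.T7.SupE2

/-! The von Mangoldt function minus its sieve model on the integers: sizes and exponential sums. -/

set_option autoImplicit false

namespace Pool.Agent.T9h23.Cor
open Finset
open Pool.Agent.H807R2.Dav
open Pool.Agent.H373R2.T7

/-- the von Mangoldt function of the absolute value -/
noncomputable def Lam (u : ℤ) : ℝ := ArithmeticFunction.vonMangoldt u.natAbs

/-- the sieve model at the absolute value -/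
noncomputable def lz (z : ℕ) (u : ℤ) : ℝ := lamz z u.natAbs

lemma Lam_nonneg (u : ℤ) : 0 ≤ Lam u := ArithmeticFunction.vonMangoldt_nonneg

lemma Lam_zero : Lam 0 = 0 := by simp [Lam]

lemma lz_nonneg (z : ℕ) (u : ℤ) : 0 ≤ lz z u := lamz_nonneg z _

lemma lz_zero (z : ℕ) (hz : 2 ≤ z) : lz z 0 = 0 := by
  unfold lz lamz
  rw [if_neg]
  intro h
  exact h 2 (mem_pz.2 ⟨hz, Nat.prime_two⟩) (by simp)

lemma lz_le (z : ℕ) (u : ℤ) : lz z u ≤ (Vz z)⁻¹ := by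
  unfold lz lamz
  split_ifs
  · exact le_rfl
  · exact inv_nonneg.2 (Vz_pos z).le

lemma Lam_le (u : ℤ) (X : ℝ) (hX : 1 ≤ X) (h : |(u : ℝ)| ≤ X) : Lam u ≤ Real.log X := by
  unfold Lam
  rcases Nat.eq_zero_or_pos u.natAbs with h0 | h0
  · rw [h0]; simp [Real.log_nonneg hX]
  · refine (ArithmeticFunction.vonMangoldt_le_log).trans ?_
    apply Real.log_le_log (by exact_mod_cast h0)
    have : ((u.natAbs : ℕ) : ℝ) = |(u : ℝ)| := by rw [Nat.cast_natAbs, Int.cast_abs]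
    rw [this]; exact h

lemma sum_sym (X : ℕ) (F : ℤ → ℂ) : ∑ u ∈ Icc (-(X : ℤ)) X, F u = F 0 + ∑ n ∈ Icc 1 X, F n + ∑ n ∈ Icc 1 X, F (-(n : ℤ)) := by
  classical
  induction X with
  | zero => simp
  | succ X ih =>
    have h : Icc (-((X + 1 : ℕ) : ℤ)) ((X + 1 : ℕ) : ℤ) =
        insert ((X + 1 : ℕ) : ℤ) (insert (-((X + 1 : ℕ) : ℤ)) (Icc (-(X : ℤ)) X)) := by
      ext u
      simp only [mem_Icc, mem_insert]
      omega
    rw [h, sum_insert, sum_insert, ih, Finset.sum_Icc_succ_top (by omega), Finset.sum_Icc_succ_top (by omega)]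
    · ring
    · rw [mem_Icc]; omega
    · rw [mem_insert, mem_Icc]; omega

/-- the exponential sum over a symmetric interval -/
theorem sup_sym (U : ℕ) : ∃ B : ℕ, ∀ E : ℕ, ∃ N0 : ℕ, ∀ N : ℕ, N0 ≤ N → ∀ z : ℕ, Real.log N ^ B ≤ z →
    (z : ℝ) ≤ Real.log N ^ E → ∀ α : ℝ,
    ‖∑ u ∈ Icc (-(N : ℤ)) N, ((Lam u - lz z u : ℝ) : ℂ) * ee ((u : ℝ) * α)‖ ≤ 2 * (N / Real.log N ^ U) := by
  obtain ⟨B, hB⟩ := sup_diff U
  refine ⟨B + 1, fun E => ?_⟩
  obtain ⟨N0, h0⟩ := hB E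
  obtain ⟨N1, h1⟩ := ev_L' 2
  refine ⟨max N0 N1, fun N hN z hz1 hz2 α => ?_⟩
  have hL := h1 N ((le_max_right _ _).trans hN)
  have hL1 : 1 ≤ Real.log N := by linarith
  have hzB : Real.log N ^ B ≤ z := (pow_le_pow_right₀ hL1 (by omega)).trans hz1
  have hz : 2 ≤ z := by
    have h2 : (2 : ℝ) ≤ z := by
      calc (2 : ℝ) ≤ Real.log N := hL
        _ = Real.log N ^ 1 := (pow_one _).symm
        _ ≤ Real.log N ^ (B + 1) := pow_le_pow_right₀ hL1 (by omega)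
        _ ≤ z := hz1
    exact_mod_cast h2
  have h3 := h0 N ((le_max_left _ _).trans hN) z hzB hz2
  rw [sum_sym, Lam_zero, lz_zero z hz]
  have e1 : ((0 - 0 : ℝ) : ℂ) * ee (((0 : ℤ) : ℝ) * α) = 0 := by simp
  rw [e1, zero_add]
  have e2 : ∑ n ∈ Icc 1 N, ((Lam ((n : ℕ) : ℤ) - lz z ((n : ℕ) : ℤ) : ℝ) : ℂ) * ee ((((n : ℕ) : ℤ) : ℝ) * α) =
      ∑ n ∈ Icc 1 N, ((ArithmeticFunction.vonMangoldt n - lamz z n : ℝ) : ℂ) * ee ((n : ℝ) * α) := by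
    refine sum_congr rfl fun n _ => ?_
    simp [Lam, lz]
  have e3 : ∑ n ∈ Icc 1 N, ((Lam (-((n : ℕ) : ℤ)) - lz z (-((n : ℕ) : ℤ)) : ℝ) : ℂ) * ee (((-((n : ℕ) : ℤ) : ℤ) : ℝ) * α) =
      ∑ n ∈ Icc 1 N, ((ArithmeticFunction.vonMangoldt n - lamz z n : ℝ) : ℂ) * ee ((n : ℝ) * (-α)) := by
    refine sum_congr rfl fun n _ => ?_
    have : ((-((n : ℕ) : ℤ) : ℤ) : ℝ) * α = (n : ℝ) * (-α) := by push_cast; ring
    rw [this]
    simp [Lam, lz]
  rw [e2, e3]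
  refine (norm_add_le _ _).trans ?_
  have := h3 α
  have := h3 (-α)
  linarith

end Pool.Agent.T9h23.Cor
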