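import Mathlib
import Pool.Agent.T9h23.Cor.Bil
import Pool.Agent.T9h23.Cor.Box
import Pool.Agent.T9h23.Cor.Sup
import Pool.Agent.H373R2.T7.LamZ2

/-! The values of a random polynomial of degree `d` at up to `2 d + 1` points: one factor which is the von Mangoldt
function minus its sieve model makes the correlation small. -/

set_option autoImplicit false

namespace Pool.Agent.T9h23.Cor
open Finset Polynomial
open Pool.Agent.H807R2.Dav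
open Pool.Agent.H373R2.T7

/-- the shift vector -/
noncomputable def sv (d : ℕ) (S T : Finset ℤ) (a b : ℕ) : Fin (d + 1) → ℤ :=
  (a : ℤ) • cv (d + 1) (wp S) + (b : ℤ) • cv (d + 1) (wp T)

lemma fv_sv {d : ℕ} {S T : Finset ℤ} (hS : S.card ≤ d) (hT : T.card ≤ d) (P : ℤ → ℤ) (f : Fin (d + 1) → ℤ)
    (a b : ℕ) (t : ℤ) :
    fv P (f + sv d S T a b) t = fv P f t + (wp S).eval t * (a : ℤ) + (wp T).eval t * (b : ℤ) := by
  rw [fv_add]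
  have h1 : ∑ i, sv d S T a b i * t ^ (i : ℕ) =
      ∑ i, ((a : ℤ) • cv (d + 1) (wp S)) i * t ^ (i : ℕ) + ∑ i, ((b : ℤ) • cv (d + 1) (wp T)) i * t ^ (i : ℕ) := by
    rw [← sum_add_distrib]
    refine sum_congr rfl fun i _ => ?_
    unfold sv
    rw [Pi.add_apply]
    ring
  rw [h1, cv_smul _ (by rw [wp_natDegree]; omega), cv_smul _ (by rw [wp_natDegree]; omega)]
  ring

lemma sv_le {d : ℕ} {S T : Finset ℤ} (hS : S.card ≤ d) (hT : T.card ≤ d) (T0 : ℕ) (hS0 : ∀ s ∈ S, |s| ≤ (T0 : ℤ))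
    (hT0 : ∀ s ∈ T, |s| ≤ (T0 : ℤ)) (M a b : ℕ) (ha : a ≤ M) (hb : b ≤ M) (i : Fin (d + 1)) :
    |sv d S T a b i| ≤ 2 * (M : ℤ) * (1 + T0) ^ d := by
  unfold sv
  rw [Pi.add_apply, Pi.smul_apply, Pi.smul_apply, smul_eq_mul, smul_eq_mul]
  have h1 : |cv (d + 1) (wp S) i| ≤ (1 + (T0 : ℤ)) ^ d := by
    refine (wp_coeff S T0 hS0 i).trans ?_
    rw [Nat.abs_cast]
    exact pow_le_pow_right₀ (by linarith [Int.natCast_nonneg T0]) hS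
  have h2 : |cv (d + 1) (wp T) i| ≤ (1 + (T0 : ℤ)) ^ d := by
    refine (wp_coeff T T0 hT0 i).trans ?_
    rw [Nat.abs_cast]
    exact pow_le_pow_right₀ (by linarith [Int.natCast_nonneg T0]) hT
  have h3 : (0 : ℤ) ≤ (1 + (T0 : ℤ)) ^ d := by positivity
  have ha' : (a : ℤ) ≤ M := by exact_mod_cast ha
  have hb' : (b : ℤ) ≤ M := by exact_mod_cast hb
  calc |(a : ℤ) * cv (d + 1) (wp S) i + (b : ℤ) * cv (d + 1) (wp T) i|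
      ≤ |(a : ℤ) * cv (d + 1) (wp S) i| + |(b : ℤ) * cv (d + 1) (wp T) i| := abs_add_le _ _
    _ = (a : ℤ) * |cv (d + 1) (wp S) i| + (b : ℤ) * |cv (d + 1) (wp T) i| := by
        rw [abs_mul, abs_mul, Nat.abs_cast, Nat.abs_cast]
    _ ≤ M * (1 + (T0 : ℤ)) ^ d + M * (1 + (T0 : ℤ)) ^ d := by gcongr
    _ = 2 * (M : ℤ) * (1 + T0) ^ d := by ring

lemma fv_le {d : ℕ} (H : ℕ) (L : ℝ) (A : ℕ) (hL : (2 * d + 3 : ℝ) ≤ L) (T0 : ℕ) (hT : (T0 : ℝ) ≤ L ^ A) (P : ℤ → ℤ)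
    (hP : ∀ t : ℤ, |t| ≤ T0 → |(P t : ℝ)| ≤ H * L ^ A) (f : Fin (d + 1) → ℤ) (hf : ∀ i, |f i| ≤ 2 * (H : ℤ))
    (t : ℤ) (ht : |t| ≤ T0) : |((fv P f t : ℤ) : ℝ)| ≤ H * L ^ (A * d + A + 1) := by
  have hL1 : 1 ≤ L := by
    have : (0 : ℝ) ≤ d := Nat.cast_nonneg d
    linarith
  have hH : (0 : ℝ) ≤ H := Nat.cast_nonneg H
  unfold fv
  push_cast
  have h1 : ∀ i : Fin (d + 1), |(f i : ℝ) * (t : ℝ) ^ (i : ℕ)| ≤ 2 * H * L ^ (A * d) := by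
    intro i
    rw [abs_mul, abs_pow]
    have h2 : |(f i : ℝ)| ≤ 2 * H := by
      have := hf i
      have h3 : ((|f i| : ℤ) : ℝ) ≤ ((2 * (H : ℤ) : ℤ) : ℝ) := by exact_mod_cast this
      push_cast at h3
      exact h3
    have h3 : |(t : ℝ)| ≤ L ^ A := by
      have h4 : ((|t| : ℤ) : ℝ) ≤ ((T0 : ℤ) : ℝ) := by exact_mod_cast ht
      push_cast at h4
      exact h4.trans hT
    have h4 : |(t : ℝ)| ^ (i : ℕ) ≤ L ^ (A * d) := by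
      calc |(t : ℝ)| ^ (i : ℕ) ≤ (L ^ A) ^ (i : ℕ) := pow_le_pow_left₀ (abs_nonneg _) h3 _
        _ = L ^ (A * i) := (pow_mul _ _ _).symm
        _ ≤ L ^ (A * d) := pow_le_pow_right₀ hL1 (Nat.mul_le_mul_left _ (by omega))
    exact mul_le_mul h2 h4 (by positivity) (by positivity)
  have h2 : |∑ i : Fin (d + 1), (f i : ℝ) * (t : ℝ) ^ (i : ℕ)| ≤ (d + 1) * (2 * H * L ^ (A * d)) := by
    refine (abs_sum_le_sum_abs _ _).trans ((sum_le_sum fun i _ => h1 i).trans (le_of_eq ?_))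
    rw [sum_const, card_univ, Fintype.card_fin, nsmul_eq_mul]
    push_cast
    ring
  refine (abs_add_le _ _).trans ((add_le_add (hP t ht) h2).trans ?_)
  have h3 : L ^ A ≤ L ^ (A * d + A) := pow_le_pow_right₀ hL1 (by omega)
  have h4 : L ^ (A * d) ≤ L ^ (A * d + A) := pow_le_pow_right₀ hL1 (by omega)
  have h5 : (0 : ℝ) ≤ L ^ (A * d + A) := by positivity
  calc (H : ℝ) * L ^ A + (d + 1) * (2 * H * L ^ (A * d)) ≤ H * L ^ (A * d + A) + (d + 1) * (2 * H * L ^ (A * d + A)) := by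
        gcongr
    _ = H * L ^ (A * d + A) * (2 * d + 3) := by ring
    _ ≤ H * L ^ (A * d + A) * L := by gcongr
    _ = H * L ^ (A * d + A + 1) := by rw [pow_succ]; ring

/-- The double sum over the shifts. -/
lemma double (X M : ℕ) (z : ℕ) (Δ K : ℝ) (hK : 0 ≤ K)
    (hΔ : ∀ θ : ℝ, ‖∑ u ∈ Icc (-(X : ℤ)) X, ((Lam u - lz z u : ℝ) : ℂ) * ee ((u : ℝ) * θ)‖ ≤ Δ)
    (c α β : ℤ) (hα : α ≠ 0) (hβ : β ≠ 0) (V U : ℕ → ℝ)
    (hV : ∀ a ∈ Icc 1 M, |V a| ≤ K) (hU : ∀ a ∈ Icc 1 M, |U a| ≤ K)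
    (hb : ∀ a ∈ Icc 1 M, ∀ b ∈ Icc 1 M, |c + α * (a : ℤ) + β * (b : ℤ)| ≤ X) :
    |∑ a ∈ Icc 1 M, ∑ b ∈ Icc 1 M, V a * U b * (Lam (c + α * (a : ℤ) + β * (b : ℤ)) - lz z (c + α * (a : ℤ) + β * (b : ℤ)))| ≤
      Δ * (M * K ^ 2) := by
  have h := bil X M (fun u => ((Lam u - lz z u : ℝ) : ℂ)) Δ hΔ c α β hα hβ (fun a => (V a : ℂ)) (fun a => (U a : ℂ)) hb
  have h1 : ‖∑ a ∈ Icc 1 M, ∑ b ∈ Icc 1 M, (V a : ℂ) * (U b : ℂ) *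
      ((Lam (c + α * (a : ℤ) + β * (b : ℤ)) - lz z (c + α * (a : ℤ) + β * (b : ℤ)) : ℝ) : ℂ)‖ =
      |∑ a ∈ Icc 1 M, ∑ b ∈ Icc 1 M, V a * U b *
        (Lam (c + α * (a : ℤ) + β * (b : ℤ)) - lz z (c + α * (a : ℤ) + β * (b : ℤ)))| := by
    rw [← Real.norm_eq_abs, ← Complex.norm_real]
    congr 1
    push_cast
    rfl
  rw [← h1]
  refine h.trans ?_
  have hΔ0 : 0 ≤ Δ := (norm_nonneg _).trans (hΔ 0)
  apply mul_le_mul_of_nonneg_left _ hΔ0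
  have h2 : ∀ W : ℕ → ℝ, (∀ a ∈ Icc 1 M, |W a| ≤ K) → √(∑ a ∈ Icc 1 M, ‖(W a : ℂ)‖ ^ 2) ≤ √(M : ℝ) * K := by
    intro W hW
    have h3 : ∑ a ∈ Icc 1 M, ‖(W a : ℂ)‖ ^ 2 ≤ M * K ^ 2 := by
      have h4 : ∀ a ∈ Icc 1 M, ‖(W a : ℂ)‖ ^ 2 ≤ K ^ 2 := by
        intro a ha
        rw [Complex.norm_real, Real.norm_eq_abs]
        exact pow_le_pow_left₀ (abs_nonneg _) (hW a ha) 2
      refine (sum_le_sum h4).trans (le_of_eq ?_)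
      rw [sum_const, Nat.card_Icc, nsmul_eq_mul, Nat.add_sub_cancel]
    refine (Real.sqrt_le_sqrt h3).trans (le_of_eq ?_)
    rw [Real.sqrt_mul (Nat.cast_nonneg M), Real.sqrt_sq hK]
  calc √(∑ a ∈ Icc 1 M, ‖(V a : ℂ)‖ ^ 2) * √(∑ a ∈ Icc 1 M, ‖(U a : ℂ)‖ ^ 2) ≤ (√(M : ℝ) * K) * (√(M : ℝ) * K) :=
        mul_le_mul (h2 V hV) (h2 U hU) (Real.sqrt_nonneg _) (by positivity)
    _ = (√(M : ℝ) * √(M : ℝ)) * K ^ 2 := by ring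
    _ = M * K ^ 2 := by rw [Real.mul_self_sqrt (Nat.cast_nonneg M)]

end Pool.Agent.T9h23.Cor
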