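import Mathlib
import Pool.Agent.T9h23.Cor.Corr

/-! Correlations with one factor `Λ - Λ_z`, for fixed parameters. -/

set_option autoImplicit false

namespace Pool.Agent.T9h23.Cor
open Finset Polynomial
open Pool.Agent.H807R2.Dav
open Pool.Agent.H373R2.T7

/-- the product of the factors -/
noncomputable def Ps {n : ℕ} (P : ℤ → ℤ) (z : ℕ) (t0 : ℤ) (S T : Finset ℤ) (F : ℤ → ℤ → ℝ) (f : Fin n → ℤ) : ℝ :=
  (Lam (fv P f t0) - lz z (fv P f t0)) * ((∏ t ∈ S, F t (fv P f t)) * ∏ t ∈ T, F t (fv P f t))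

theorem core {d : ℕ} (H M T0 X z : ℕ) (hM1 : 1 ≤ M) (K K0 Δ : ℝ) (hK : 0 ≤ K) (P : ℤ → ℤ) (t0 : ℤ) (S T : Finset ℤ)
    (hS : S.card ≤ d) (hT : T.card ≤ d) (h0S : t0 ∉ S) (h0T : t0 ∉ T)
    (hS0 : ∀ s ∈ S, |s| ≤ (T0 : ℤ)) (hT0 : ∀ s ∈ T, |s| ≤ (T0 : ℤ)) (F : ℤ → ℤ → ℝ)
    (hM : 2 * M * (1 + T0) ^ d ≤ H)
    (hX : ∀ f : Fin (d + 1) → ℤ, (∀ i, |f i| ≤ 2 * (H : ℤ)) → |fv P f t0| ≤ X)
    (hFS : ∀ f : Fin (d + 1) → ℤ, (∀ i, |f i| ≤ 2 * (H : ℤ)) → |∏ t ∈ S, F t (fv P f t)| ≤ K)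
    (hFT : ∀ f : Fin (d + 1) → ℤ, (∀ i, |f i| ≤ 2 * (H : ℤ)) → |∏ t ∈ T, F t (fv P f t)| ≤ K)
    (hL : ∀ f : Fin (d + 1) → ℤ, (∀ i, |f i| ≤ 2 * (H : ℤ)) → |Lam (fv P f t0) - lz z (fv P f t0)| ≤ K0)
    (hΔ : ∀ θ : ℝ, ‖∑ u ∈ Icc (-(X : ℤ)) X, ((Lam u - lz z u : ℝ) : ℂ) * ee ((u : ℝ) * θ)‖ ≤ Δ) :
    |∑ f ∈ Box (d + 1) H, Ps P z t0 S T F f| ≤
      (2 * H + 1) ^ (d + 1) * (Δ * K ^ 2) / M + 2 * (K0 * K ^ 2) * ((d + 1) * (2 * M * (1 + T0) ^ d)) * (2 * H + 1) ^ d := by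
  have hsv : ∀ a b : ℕ, a ≤ M → b ≤ M → ∀ i, |sv d S T a b i| ≤ (H : ℤ) := by
    intro a b ha hb i
    refine (sv_le hS hT T0 hS0 hT0 M a b ha hb i).trans ?_
    exact_mod_cast hM
  have hBB : ∀ f : Fin (d + 1) → ℤ, (∀ i, |f i| ≤ 2 * (H : ℤ)) → |Ps P z t0 S T F f| ≤ K0 * K ^ 2 := by
    intro f hf
    unfold Ps
    rw [abs_mul, abs_mul, pow_two]
    have h1 : 0 ≤ K0 := (abs_nonneg _).trans (hL f hf)
    exact mul_le_mul (hL f hf) (mul_le_mul (hFS f hf) (hFT f hf) (abs_nonneg _) hK) (by positivity) h1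
  have hsum : ∀ a b : ℕ, a ≤ M → b ≤ M →
      |∑ f ∈ Box (d + 1) H, Ps P z t0 S T F (f + sv d S T a b) - ∑ f ∈ Box (d + 1) H, Ps P z t0 S T F f| ≤
      2 * (K0 * K ^ 2) * ((d + 1) * (2 * M * (1 + T0) ^ d)) * (2 * H + 1) ^ d := by
    intro a b ha hb
    refine (shift_sum H (sv d S T a b) (hsv a b ha hb) _ _ hBB).trans ?_
    have h1 : ((∑ i, (sv d S T a b i).natAbs : ℕ) : ℝ) ≤ (d + 1) * (2 * M * (1 + T0) ^ d) := by
      push_cast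
      have h2 : ∀ i ∈ (univ : Finset (Fin (d + 1))), (((sv d S T a b i).natAbs : ℕ) : ℝ) ≤ 2 * M * (1 + T0) ^ d := by
        intro i _
        have h3 := sv_le hS hT T0 hS0 hT0 M a b ha hb i
        rw [Nat.cast_natAbs]
        exact_mod_cast h3
      refine (sum_le_sum h2).trans (le_of_eq ?_)
      rw [sum_const, card_univ, Fintype.card_fin, nsmul_eq_mul]
      push_cast
      ring
    have h4 : 0 ≤ K0 * K ^ 2 := (abs_nonneg _).trans (hBB 0 (fun i => by simp))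
    gcongr
  -- the double sum
  have hdouble : ∀ f ∈ Box (d + 1) H, |∑ a ∈ Icc 1 M, ∑ b ∈ Icc 1 M, Ps P z t0 S T F (f + sv d S T a b)| ≤ Δ * (M * K ^ 2) := by
    intro f hf
    rw [mem_Box] at hf
    have hbig : ∀ a b : ℕ, a ≤ M → b ≤ M → ∀ i, |(f + sv d S T a b) i| ≤ 2 * (H : ℤ) := by
      intro a b ha hb i
      rw [Pi.add_apply]
      have := hsv a b ha hb i
      have := hf i
      exact (abs_add_le _ _).trans (by linarith)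
    have h1 := double X M z Δ K hK hΔ (fv P f t0) ((wp S).eval t0) ((wp T).eval t0) (wp_eval_ne h0S) (wp_eval_ne h0T)
      (fun a => ∏ t ∈ T, F t (fv P (f + sv d S T a 0) t)) (fun b => ∏ t ∈ S, F t (fv P (f + sv d S T 0 b) t))
      (fun a ha => hFT _ (hbig a 0 (mem_Icc.1 ha).2 (Nat.zero_le _)))
      (fun b hb => hFS _ (hbig 0 b (Nat.zero_le _) (mem_Icc.1 hb).2))
      (fun a ha b hb => by
        rw [← fv_sv hS hT]
        exact hX _ (hbig a b (mem_Icc.1 ha).2 (mem_Icc.1 hb).2))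
    refine le_trans (le_of_eq ?_) h1
    congr 1
    refine sum_congr rfl fun a _ => sum_congr rfl fun b _ => ?_
    unfold Ps
    have e1 : ∀ t ∈ T, F t (fv P (f + sv d S T a b) t) = F t (fv P (f + sv d S T a 0) t) := by
      intro t ht
      rw [fv_sv hS hT, fv_sv hS hT, wp_eval_mem ht]
      simp
    have e2 : ∀ t ∈ S, F t (fv P (f + sv d S T a b) t) = F t (fv P (f + sv d S T 0 b) t) := by
      intro t ht
      rw [fv_sv hS hT, fv_sv hS hT, wp_eval_mem ht]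
      simp
    rw [prod_congr rfl e1, prod_congr rfl e2, fv_sv hS hT P f a b t0]
    ring
  have hM0 : (0 : ℝ) < M := by exact_mod_cast hM1
  -- combine
  have hcomb : (M : ℝ) ^ 2 * |∑ f ∈ Box (d + 1) H, Ps P z t0 S T F f| ≤
      (2 * H + 1) ^ (d + 1) * (Δ * (M * K ^ 2)) +
        (M : ℝ) ^ 2 * (2 * (K0 * K ^ 2) * ((d + 1) * (2 * M * (1 + T0) ^ d)) * (2 * H + 1) ^ d) := by
    have h1 : (M : ℝ) ^ 2 * ∑ f ∈ Box (d + 1) H, Ps P z t0 S T F f =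
        ∑ a ∈ Icc 1 M, ∑ b ∈ Icc 1 M, ∑ f ∈ Box (d + 1) H, Ps P z t0 S T F f := by
      rw [sum_const, sum_const, Nat.card_Icc, Nat.add_sub_cancel, nsmul_eq_mul, nsmul_eq_mul]
      ring
    have h2 : (M : ℝ) ^ 2 * ∑ f ∈ Box (d + 1) H, Ps P z t0 S T F f =
        ∑ f ∈ Box (d + 1) H, ∑ a ∈ Icc 1 M, ∑ b ∈ Icc 1 M, Ps P z t0 S T F (f + sv d S T a b) -
        ∑ a ∈ Icc 1 M, ∑ b ∈ Icc 1 M, (∑ f ∈ Box (d + 1) H, Ps P z t0 S T F (f + sv d S T a b) -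
          ∑ f ∈ Box (d + 1) H, Ps P z t0 S T F f) := by
      rw [h1]
      simp only [sum_sub_distrib]
      have h3 : ∑ f ∈ Box (d + 1) H, ∑ a ∈ Icc 1 M, ∑ b ∈ Icc 1 M, Ps P z t0 S T F (f + sv d S T a b) =
          ∑ a ∈ Icc 1 M, ∑ b ∈ Icc 1 M, ∑ f ∈ Box (d + 1) H, Ps P z t0 S T F (f + sv d S T a b) := by
        rw [sum_comm]
        refine sum_congr rfl fun a _ => ?_
        rw [sum_comm]
      rw [h3]
      ring
    have h4 : (M : ℝ) ^ 2 * |∑ f ∈ Box (d + 1) H, Ps P z t0 S T F f| =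
        |(M : ℝ) ^ 2 * ∑ f ∈ Box (d + 1) H, Ps P z t0 S T F f| := by
      rw [abs_mul, abs_of_nonneg (by positivity : (0 : ℝ) ≤ (M : ℝ) ^ 2)]
    rw [h4, h2]
    refine (abs_sub _ _).trans (add_le_add ?_ ?_)
    · refine (abs_sum_le_sum_abs _ _).trans ((sum_le_sum hdouble).trans (le_of_eq ?_))
      rw [sum_const, card_Box, nsmul_eq_mul]
      push_cast
      ring
    · refine (abs_sum_le_sum_abs _ _).trans ?_
      have h5 : ∀ a ∈ Icc 1 M, |∑ b ∈ Icc 1 M, (∑ f ∈ Box (d + 1) H, Ps P z t0 S T F (f + sv d S T a b) -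
          ∑ f ∈ Box (d + 1) H, Ps P z t0 S T F f)| ≤
          M * (2 * (K0 * K ^ 2) * ((d + 1) * (2 * M * (1 + T0) ^ d)) * (2 * H + 1) ^ d) := by
        intro a ha
        refine (abs_sum_le_sum_abs _ _).trans ?_
        refine (sum_le_sum fun b hb => hsum a b (mem_Icc.1 ha).2 (mem_Icc.1 hb).2).trans (le_of_eq ?_)
        rw [sum_const, Nat.card_Icc, Nat.add_sub_cancel, nsmul_eq_mul]
      refine (sum_le_sum h5).trans (le_of_eq ?_)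
      rw [sum_const, Nat.card_Icc, Nat.add_sub_cancel, nsmul_eq_mul]
      ring
  have hM2 : (0 : ℝ) < (M : ℝ) ^ 2 := by positivity
  have h6 : (M : ℝ) ^ 2 * |∑ f ∈ Box (d + 1) H, Ps P z t0 S T F f| ≤ (M : ℝ) ^ 2 *
      ((2 * H + 1) ^ (d + 1) * (Δ * K ^ 2) / M + 2 * (K0 * K ^ 2) * ((d + 1) * (2 * M * (1 + T0) ^ d)) * (2 * H + 1) ^ d) := by
    refine hcomb.trans (le_of_eq ?_)
    field_simp
  exact le_of_mul_le_mul_left h6 hM2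

end Pool.Agent.T9h23.Cor
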