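import Mathlib
import Pool.Agent.T9h23.Cor.Corr2

/-! Correlations with one factor `Λ - Λ_z` are smaller than every power of the logarithm. -/

set_option autoImplicit false

namespace Pool.Agent.T9h23.Cor
open Finset Polynomial
open Pool.Agent.H807R2.Dav
open Pool.Agent.H373R2.T7

lemma split_set (R : Finset ℤ) (d : ℕ) (hR : R.card ≤ 2 * d) :
    ∃ S T : Finset ℤ, S ⊆ R ∧ T ⊆ R ∧ S.card ≤ d ∧ T.card ≤ d ∧ ∀ g : ℤ → ℝ, ∏ t ∈ R, g t = (∏ t ∈ S, g t) * ∏ t ∈ T, g t := by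
  classical
  rcases le_total R.card d with h | h
  · refine ⟨R, ∅, Finset.Subset.refl _, Finset.empty_subset _, h, by simp, fun g => by simp⟩
  · obtain ⟨S, hS, hSc⟩ := Finset.exists_subset_card_eq h
    refine ⟨S, R \ S, hS, sdiff_subset, hSc.le, ?_, fun g => ?_⟩
    · rw [card_sdiff_of_subset hS, hSc]; omega
    · rw [mul_comm, prod_sdiff hS]

lemma prod_bound {S : Finset ℤ} {g : ℤ → ℝ} {L : ℝ} (hL : 1 ≤ L) (B1 d : ℕ) (hS : S.card ≤ d)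
    (h : ∀ t ∈ S, |g t| ≤ L ^ B1) : |∏ t ∈ S, g t| ≤ L ^ (B1 * d) := by
  rw [abs_prod]
  calc ∏ t ∈ S, |g t| ≤ ∏ _t ∈ S, L ^ B1 := prod_le_prod (fun _ _ => abs_nonneg _) h
    _ = (L ^ B1) ^ S.card := by rw [prod_const]
    _ ≤ (L ^ B1) ^ d := pow_le_pow_right₀ (one_le_pow₀ hL) hS
    _ = L ^ (B1 * d) := (pow_mul _ _ _).symm

lemma num (H M L X q1 K T0r : ℝ) (d C1 C2 B1 U U' A1 : ℕ) (hL16 : 16 ≤ L) (hLd : 24 * ((d : ℝ) + 1) ≤ L)
    (hH : 0 < H) (hM0 : 0 < M) (hM1 : M ≤ H / L ^ C1) (hM2 : H / L ^ C1 ≤ 2 * M) (hX : X ≤ 2 * (H * L ^ C2))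
    (hq : q1 ≤ X / L ^ U') (hK : K = L ^ (B1 * d)) (hT : (1 + T0r) ^ d ≤ L ^ A1) (hT0 : 0 ≤ T0r)
    (hC1 : C1 = 2 * (B1 * d) + A1 + U + 2) (hU' : U' = C2 + C1 + 2 * (B1 * d) + U + 1) :
    (2 * H + 1) ^ (d + 1) * ((2 * q1) * K ^ 2) / M + 2 * ((3 * L) * K ^ 2) * ((d + 1) * (2 * M * (1 + T0r) ^ d)) * (2 * H + 1) ^ d ≤
      (2 * H + 1) ^ (d + 1) / L ^ U := by
  have hL0 : 0 < L := by linarith
  have hP : 0 < (2 * H + 1) ^ (d + 1) := by positivity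
  have hK2 : K ^ 2 = L ^ (2 * (B1 * d)) := by
    rw [hK, ← pow_mul]
    congr 1
    ring
  have h1 : (2 * q1) * K ^ 2 / M ≤ 8 / L ^ (U + 1) := by
    have h2 : q1 ≤ 2 * (H * L ^ C2) / L ^ U' := hq.trans (by gcongr)
    have h3 : (1 : ℝ) / M ≤ 2 * L ^ C1 / H := by
      rw [div_le_div_iff₀ hM0 hH]
      have := (div_le_iff₀ (by positivity : 0 < L ^ C1)).1 hM2
      linarith
    calc (2 * q1) * K ^ 2 / M = (2 * q1) * K ^ 2 * (1 / M) := by ring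
      _ ≤ (2 * (2 * (H * L ^ C2) / L ^ U')) * K ^ 2 * (2 * L ^ C1 / H) := by
          rcases le_or_gt 0 q1 with hq0 | hq0
          · gcongr
          · have h5 : (2 * q1) * K ^ 2 * (1 / M) ≤ 0 := by
              have : 0 ≤ K ^ 2 * (1 / M) := by positivity
              nlinarith
            exact h5.trans (by positivity)
      _ = 8 * (L ^ C2 * L ^ C1 * L ^ (2 * (B1 * d))) / L ^ U' := by
          rw [hK2]
          field_simp
          norm_num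
      _ = 8 / L ^ (U + 1) := by
          rw [← pow_add, ← pow_add, hU', div_eq_div_iff (by positivity) (by positivity), mul_assoc, ← pow_add]
          congr 2
  have h2 : 2 * ((3 * L) * K ^ 2) * ((d + 1) * (2 * M * (1 + T0r) ^ d)) ≤ (2 * H + 1) * (12 * (d + 1) / L ^ (U + 1)) := by
    calc 2 * ((3 * L) * K ^ 2) * ((d + 1) * (2 * M * (1 + T0r) ^ d))
        ≤ 2 * ((3 * L) * K ^ 2) * ((d + 1) * (2 * (H / L ^ C1) * L ^ A1)) := by gcongr
      _ = H * (12 * (d + 1)) * (L * L ^ (2 * (B1 * d)) * L ^ A1 / L ^ C1) := by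
          rw [hK2]; ring
      _ = H * (12 * (d + 1)) * (1 / L ^ (U + 1)) := by
          congr 1
          rw [div_eq_div_iff (by positivity) (by positivity), hC1, ← pow_succ', ← pow_add, ← pow_add, one_mul]
          congr 1
          ring
      _ ≤ (2 * H + 1) * (12 * (d + 1)) * (1 / L ^ (U + 1)) := by gcongr; linarith
      _ = _ := by ring
  have h3 : 8 / L ^ (U + 1) ≤ (1 / 2) / L ^ U := by
    rw [div_le_div_iff₀ (by positivity) (by positivity), pow_succ]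
    have : 0 < L ^ U := by positivity
    nlinarith
  have h4 : 12 * ((d : ℝ) + 1) / L ^ (U + 1) ≤ (1 / 2) / L ^ U := by
    rw [div_le_div_iff₀ (by positivity) (by positivity), pow_succ]
    have : 0 < L ^ U := by positivity
    nlinarith
  calc (2 * H + 1) ^ (d + 1) * ((2 * q1) * K ^ 2) / M + 2 * ((3 * L) * K ^ 2) * ((d + 1) * (2 * M * (1 + T0r) ^ d)) * (2 * H + 1) ^ d
      = (2 * H + 1) ^ (d + 1) * ((2 * q1) * K ^ 2 / M) + (2 * ((3 * L) * K ^ 2) * ((d + 1) * (2 * M * (1 + T0r) ^ d))) * (2 * H + 1) ^ d := by ring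
    _ ≤ (2 * H + 1) ^ (d + 1) * ((1 / 2) / L ^ U) + ((2 * H + 1) * ((1 / 2) / L ^ U)) * (2 * H + 1) ^ d := by
        apply add_le_add
        · exact mul_le_mul_of_nonneg_left (h1.trans h3) hP.le
        · exact mul_le_mul_of_nonneg_right (h2.trans (mul_le_mul_of_nonneg_left h4 (by positivity))) (by positivity)
    _ = _ := by ring

theorem corr_one (d A B1 U : ℕ) : ∃ E0 : ℕ, ∀ E : ℕ, ∃ H0 : ℕ, ∀ H : ℕ, H0 ≤ H → ∀ z : ℕ,
    Real.log H ^ E0 ≤ z → (z : ℝ) ≤ Real.log H ^ E →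
    ∀ (T0 : ℕ) (P : ℤ → ℤ), (T0 : ℝ) ≤ Real.log H ^ A → (∀ t : ℤ, |t| ≤ T0 → |(P t : ℝ)| ≤ H * Real.log H ^ A) →
    ∀ (R : Finset ℤ) (t0 : ℤ), t0 ∉ R → R.card ≤ 2 * d → |t0| ≤ T0 → (∀ t ∈ R, |t| ≤ T0) →
    ∀ F : ℤ → ℤ → ℝ, (∀ t ∈ R, ∀ u : ℤ, |u| ≤ (H : ℤ) ^ 2 → |F t u| ≤ Real.log H ^ B1) →
    |∑ f ∈ Box (d + 1) H, (Lam (fv P f t0) - lz z (fv P f t0)) * ∏ t ∈ R, F t (fv P f t)| ≤
      (2 * H + 1) ^ (d + 1) / Real.log H ^ U := by
  classical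
  obtain ⟨C2, hC2⟩ : ∃ C, C = A * d + A + 1 := ⟨_, rfl⟩
  obtain ⟨C1, hC1⟩ : ∃ C, C = 2 * (B1 * d) + (A + 1) * d + U + 2 := ⟨_, rfl⟩
  obtain ⟨U', hU'⟩ : ∃ C, C = C2 + C1 + 2 * (B1 * d) + U + 1 := ⟨_, rfl⟩
  obtain ⟨B, hB⟩ := sup_sym U'
  refine ⟨B + 1, fun E => ?_⟩
  obtain ⟨N0, h0⟩ := hB E
  obtain ⟨N1, h1⟩ := Vz_inv_small E
  obtain ⟨N2, h2⟩ := ev_L' (max (max 16 (24 * ((d : ℝ) + 1))) (2 ^ B))
  obtain ⟨N3, h3⟩ := ev_log' C2 4
  obtain ⟨N4, h4⟩ := ev_log' C1 2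
  refine ⟨max (max N0 N1) (max (max N2 N3) (max N4 4)), fun H hH z hz1 hz2 T0 P hT0 hP R t0 ht0 hR ht0T hRT F hF => ?_⟩
  have hN0 : N0 ≤ H := ((le_max_left _ _).trans (le_max_left _ _)).trans hH
  have hN1 : N1 ≤ H := ((le_max_right _ _).trans (le_max_left _ _)).trans hH
  have hN2 : N2 ≤ H := (((le_max_left _ _).trans (le_max_left _ _)).trans (le_max_right _ _)).trans hH
  have hN3 : N3 ≤ H := (((le_max_right _ _).trans (le_max_left _ _)).trans (le_max_right _ _)).trans hH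
  have hN4 : N4 ≤ H := (((le_max_left _ _).trans (le_max_right _ _)).trans (le_max_right _ _)).trans hH
  have hH4 : 4 ≤ H := (((le_max_right _ _).trans (le_max_right _ _)).trans (le_max_right _ _)).trans hH
  have hHr : (4 : ℝ) ≤ H := by exact_mod_cast hH4
  have hH0 : (0 : ℝ) < H := by linarith
  have hsq : √(H : ℝ) ≤ H := by
    rw [Real.sqrt_le_left hH0.le]; nlinarith
  obtain ⟨L, hLd⟩ : ∃ L, L = Real.log H := ⟨_, rfl⟩
  rw [← hLd] at hz1 hz2 hT0 hP hF ⊢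
  have hLm := h2 H hN2
  rw [← hLd] at hLm
  have hL16 : 16 ≤ L := ((le_max_left _ _).trans (le_max_left _ _)).trans hLm
  have hL24 : 24 * ((d : ℝ) + 1) ≤ L := ((le_max_right _ _).trans (le_max_left _ _)).trans hLm
  have hL2B : (2 : ℝ) ^ B ≤ L := (le_max_right _ _).trans hLm
  have hL0 : 0 < L := by linarith
  have hL1 : 1 ≤ L := by linarith
  have h3' := (h3 H hN3).trans hsq
  have h4' := (h4 H hN4).trans hsq
  rw [← hLd] at h3' h4'
  have hd0 : (0 : ℝ) ≤ d := Nat.cast_nonneg d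
  have hL2d : (2 * d + 3 : ℝ) ≤ L := by linarith
  -- `X`
  obtain ⟨X, hXd⟩ : ∃ X : ℕ, X = ⌈(H : ℝ) * L ^ C2⌉₊ := ⟨_, rfl⟩
  have hLC2 : 1 ≤ L ^ C2 := one_le_pow₀ hL1
  have hX1 : (H : ℝ) * L ^ C2 ≤ X := by rw [hXd]; exact Nat.le_ceil _
  have hX2 : (X : ℝ) ≤ H * L ^ C2 + 1 := by rw [hXd]; exact (Nat.ceil_lt_add_one (by positivity)).le
  have hX3 : (X : ℝ) ≤ 2 * (H * L ^ C2) := by nlinarith
  have hX4 : (X : ℝ) ≤ H ^ 2 := by
    have : 2 * (H * L ^ C2) ≤ (H : ℝ) * H := by nlinarith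
    nlinarith
  have hXH : (H : ℝ) ≤ X := by nlinarith
  have hXHn : H ≤ X := by exact_mod_cast hXH
  have hlog1 : L ≤ Real.log X := by rw [hLd]; exact Real.log_le_log hH0 hXH
  have hlog2 : Real.log X ≤ 2 * L := by
    have : Real.log X ≤ Real.log ((H : ℝ) ^ 2) := Real.log_le_log (by linarith) hX4
    rw [Real.log_pow, ← hLd] at this
    exact_mod_cast this
  have hzX : Real.log X ^ B ≤ z := by
    calc Real.log X ^ B ≤ (2 * L) ^ B := pow_le_pow_left₀ (by linarith) hlog2 _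
      _ = 2 ^ B * L ^ B := mul_pow _ _ _
      _ ≤ L * L ^ B := by gcongr
      _ = L ^ (B + 1) := by rw [pow_succ]; ring
      _ ≤ z := hz1
  have hzX2 : (z : ℝ) ≤ Real.log X ^ E := hz2.trans (pow_le_pow_left₀ (by linarith) hlog1 _)
  have hz : 1 ≤ z := by
    have : (1 : ℝ) ≤ z := (one_le_pow₀ hL1).trans hz1
    exact_mod_cast this
  have hsup := h0 X (hN0.trans hXHn) z hzX hzX2
  -- `M`
  obtain ⟨M, hMd⟩ : ∃ M : ℕ, M = ⌊(H : ℝ) / L ^ C1⌋₊ := ⟨_, rfl⟩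
  have hLC1 : 0 < L ^ C1 := by positivity
  have hx2 : 2 ≤ (H : ℝ) / L ^ C1 := by
    rw [le_div_iff₀ hLC1]; exact h4'
  have hM1 : (M : ℝ) ≤ H / L ^ C1 := by rw [hMd]; exact Nat.floor_le (by positivity)
  have hM2 : (H : ℝ) / L ^ C1 < M + 1 := by rw [hMd]; exact Nat.lt_floor_add_one _
  have hMpos : (1 : ℝ) < M + 1 - 0 := by linarith
  have hM1' : 1 ≤ M := by
    by_contra hcon
    have : M = 0 := by omega
    rw [this] at hM2
    push_cast at hM2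
    linarith
  have hMr : (1 : ℝ) ≤ M := by exact_mod_cast hM1'
  have hM3 : (H : ℝ) / L ^ C1 ≤ 2 * M := by linarith
  have hT1 : (1 + (T0 : ℝ)) ^ d ≤ L ^ ((A + 1) * d) := by
    have h5 : 1 + (T0 : ℝ) ≤ L ^ (A + 1) := by
      have h6 : 1 ≤ L ^ A := one_le_pow₀ hL1
      calc 1 + (T0 : ℝ) ≤ L ^ A + L ^ A := by linarith
        _ = 2 * L ^ A := by ring
        _ ≤ L * L ^ A := by gcongr; linarith
        _ = L ^ (A + 1) := by rw [pow_succ]; ring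
    calc (1 + (T0 : ℝ)) ^ d ≤ (L ^ (A + 1)) ^ d := pow_le_pow_left₀ (by positivity) h5 _
      _ = L ^ ((A + 1) * d) := (pow_mul _ _ _).symm
  have hMH : 2 * M * (1 + T0) ^ d ≤ H := by
    have h5 : 2 * (M : ℝ) * (1 + T0) ^ d ≤ H := by
      calc 2 * (M : ℝ) * (1 + T0) ^ d ≤ 2 * (H / L ^ C1) * L ^ ((A + 1) * d) := by gcongr
        _ = H * (2 * L ^ ((A + 1) * d) / L ^ C1) := by ring
        _ ≤ H * 1 := by
            apply mul_le_mul_of_nonneg_left _ hH0.le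
            rw [div_le_one hLC1]
            calc 2 * L ^ ((A + 1) * d) ≤ L * L ^ ((A + 1) * d) := by gcongr; linarith
              _ = L ^ ((A + 1) * d + 1) := by rw [pow_succ]; ring
              _ ≤ L ^ C1 := pow_le_pow_right₀ hL1 (by omega)
        _ = H := mul_one _
    exact_mod_cast h5
  -- values
  have hval : ∀ f : Fin (d + 1) → ℤ, (∀ i, |f i| ≤ 2 * (H : ℤ)) → ∀ t : ℤ, |t| ≤ T0 → |((fv P f t : ℤ) : ℝ)| ≤ H * L ^ C2 := by
    intro f hf t ht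
    rw [hC2]
    exact fv_le H L A hL2d T0 hT0 P hP f hf t ht
  have hvalX : ∀ f : Fin (d + 1) → ℤ, (∀ i, |f i| ≤ 2 * (H : ℤ)) → ∀ t : ℤ, |t| ≤ T0 → |fv P f t| ≤ X := by
    intro f hf t ht
    have h5 := (hval f hf t ht).trans hX1
    have h6 : ((|fv P f t| : ℤ) : ℝ) ≤ ((X : ℤ) : ℝ) := by push_cast; exact h5
    exact_mod_cast h6
  have hvalH : ∀ f : Fin (d + 1) → ℤ, (∀ i, |f i| ≤ 2 * (H : ℤ)) → ∀ t : ℤ, |t| ≤ T0 → |fv P f t| ≤ (H : ℤ) ^ 2 := by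
    intro f hf t ht
    have h5 := ((hval f hf t ht).trans hX1).trans hX4
    have h6 : ((|fv P f t| : ℤ) : ℝ) ≤ (((H : ℤ) ^ 2 : ℤ) : ℝ) := by push_cast; exact h5
    exact_mod_cast h6
  obtain ⟨S, T, hS, hT, hSc, hTc, hprod⟩ := split_set R d hR
  have hpb : ∀ S' : Finset ℤ, S' ⊆ R → S'.card ≤ d → ∀ f : Fin (d + 1) → ℤ, (∀ i, |f i| ≤ 2 * (H : ℤ)) →
      |∏ t ∈ S', F t (fv P f t)| ≤ L ^ (B1 * d) := by
    intro S' hS' hc f hf
    exact prod_bound hL1 B1 d hc fun t ht => hF t (hS' ht) _ (hvalH f hf t (hRT t (hS' ht)))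
  have hLam : ∀ f : Fin (d + 1) → ℤ, (∀ i, |f i| ≤ 2 * (H : ℤ)) → |Lam (fv P f t0) - lz z (fv P f t0)| ≤ 3 * L := by
    intro f hf
    have h5 : Lam (fv P f t0) ≤ 2 * L := by
      have h6 := Lam_le (fv P f t0) ((H : ℝ) ^ 2) (one_le_pow₀ (by linarith)) (((hval f hf t0 ht0T).trans hX1).trans hX4)
      rw [Real.log_pow, ← hLd] at h6
      exact_mod_cast h6
    have h7 : lz z (fv P f t0) ≤ L := by
      refine (lz_le z _).trans ?_
      rw [hLd]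
      rw [hLd] at hz2
      exact h1 H hN1 z hz hz2
    have h8 := Lam_nonneg (fv P f t0)
    have h9 := lz_nonneg z (fv P f t0)
    rw [abs_le]
    constructor <;> linarith
  have hmain := core H M T0 X z hM1' (L ^ (B1 * d)) (3 * L) (2 * (X / Real.log X ^ U')) (by positivity) P t0 S T hSc hTc
    (fun h => ht0 (hS h)) (fun h => ht0 (hT h)) (fun s hs => hRT s (hS hs)) (fun s hs => hRT s (hT hs)) F hMH
    (fun f hf => hvalX f hf t0 ht0T) (hpb S hS hSc) (hpb T hT hTc) hLam hsup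
  have hPs : ∀ f ∈ Box (d + 1) H, (Lam (fv P f t0) - lz z (fv P f t0)) * ∏ t ∈ R, F t (fv P f t) = Ps P z t0 S T F f := by
    intro f _
    unfold Ps
    rw [hprod]
  rw [sum_congr rfl hPs]
  refine hmain.trans ?_
  refine num (H : ℝ) M L X (X / Real.log X ^ U') (L ^ (B1 * d)) T0 d C1 C2 B1 U U' ((A + 1) * d) hL16 hL24 hH0
    (by linarith) hM1 hM3 hX3 ?_ rfl hT1 (Nat.cast_nonneg _) hC1 hU'
  gcongr

end Pool.Agent.T9h23.Cor
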