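import Mathlib
import Pool.Agent.T9h23.Cor.Corr3

/-! Replacing the von Mangoldt functions by their sieve models, one by one. -/

set_option autoImplicit false

namespace Pool.Agent.T9h23.Cor
open Finset Polynomial
open Pool.Agent.H807R2.Dav
open Pool.Agent.H373R2.T7

/-- bounds for the two weights at values up to `H²` -/
lemma Lam_le2 {H : ℕ} (hH : 4 ≤ H) (u : ℤ) (hu : |u| ≤ (H : ℤ) ^ 2) : |Lam u| ≤ 2 * Real.log H := by
  have hHr : (4 : ℝ) ≤ H := by exact_mod_cast hH
  rw [abs_of_nonneg (Lam_nonneg u)]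
  have h5 : |(u : ℝ)| ≤ (H : ℝ) ^ 2 := by exact_mod_cast hu
  have h6 := Lam_le u ((H : ℝ) ^ 2) (one_le_pow₀ (by linarith)) h5
  rw [Real.log_pow] at h6
  exact_mod_cast h6


theorem rep (d A B1 U : ℕ) : ∃ E0 : ℕ, ∀ E : ℕ, ∃ H0 : ℕ, ∀ H : ℕ, H0 ≤ H → ∀ z : ℕ,
    Real.log H ^ E0 ≤ z → (z : ℝ) ≤ Real.log H ^ E →
    ∀ (T0 : ℕ) (P : ℤ → ℤ), (T0 : ℝ) ≤ Real.log H ^ A → (∀ t : ℤ, |t| ≤ T0 → |(P t : ℝ)| ≤ H * Real.log H ^ A) →
    ∀ (R1 R2 : Finset ℤ), Disjoint R1 R2 → R1.card + R2.card ≤ 2 * d + 1 → (∀ t ∈ R1, |t| ≤ T0) → (∀ t ∈ R2, |t| ≤ T0) →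
    ∀ W : ℤ → ℤ → ℝ, (∀ t ∈ R2, ∀ u : ℤ, |u| ≤ (H : ℤ) ^ 2 → |W t u| ≤ Real.log H ^ B1) →
    |∑ f ∈ Box (d + 1) H, (∏ t ∈ R1, Lam (fv P f t)) * ∏ t ∈ R2, W t (fv P f t) -
      ∑ f ∈ Box (d + 1) H, (∏ t ∈ R1, lz z (fv P f t)) * ∏ t ∈ R2, W t (fv P f t)| ≤
      (2 * H + 1) ^ (d + 1) / Real.log H ^ U := by
  classical
  obtain ⟨E0, hE⟩ := corr_one d A (B1 + 2) (U + 1)
  refine ⟨E0, fun E => ?_⟩
  obtain ⟨H1, hH1⟩ := hE E
  obtain ⟨N1, h1⟩ := Vz_inv_small E
  obtain ⟨N2, h2⟩ := ev_L' (2 * d + 3)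
  refine ⟨max (max H1 N1) (max N2 4), fun H hH z hz1 hz2 T0 P hT0 hP => ?_⟩
  have hN0 : H1 ≤ H := ((le_max_left _ _).trans (le_max_left _ _)).trans hH
  have hN1 : N1 ≤ H := ((le_max_right _ _).trans (le_max_left _ _)).trans hH
  have hN2 : N2 ≤ H := ((le_max_left _ _).trans (le_max_right _ _)).trans hH
  have hH4 : 4 ≤ H := ((le_max_right _ _).trans (le_max_right _ _)).trans hH
  have hcor := hH1 H hN0 z hz1 hz2 T0 P hT0 hP
  have hL := h2 H hN2
  have hd0 : (0 : ℝ) ≤ d := Nat.cast_nonneg d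
  obtain ⟨L, hLd⟩ : ∃ L, L = Real.log H := ⟨_, rfl⟩
  have hlam : ∀ u : ℤ, |u| ≤ (H : ℤ) ^ 2 → |Lam u| ≤ Real.log H ^ (B1 + 2) := by
    intro u hu
    refine (Lam_le2 hH4 u hu).trans ?_
    rw [← hLd] at hL ⊢
    calc 2 * L ≤ L * L := by nlinarith
      _ = L ^ 2 := by ring
      _ ≤ L ^ (B1 + 2) := pow_le_pow_right₀ (by linarith) (by omega)
  have hz : 1 ≤ z := by
    have h3 : (1 : ℝ) ≤ z := by
      refine le_trans ?_ hz1
      rw [← hLd] at hL ⊢
      exact one_le_pow₀ (by linarith)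
    exact_mod_cast h3
  have hlz : ∀ u : ℤ, |lz z u| ≤ Real.log H ^ (B1 + 2) := by
    intro u
    rw [abs_of_nonneg (lz_nonneg _ _)]
    refine (lz_le z _).trans ((h1 H hN1 z hz hz2).trans ?_)
    rw [← hLd] at hL ⊢
    exact le_self_pow₀ (by linarith) (by omega)
  have hpw : ∀ x : ℝ, x ≤ Real.log H ^ B1 → x ≤ Real.log H ^ (B1 + 2) := by
    intro x hx
    refine hx.trans (pow_le_pow_right₀ ?_ (by omega))
    linarith
  -- the induction
  have main : ∀ (m : ℕ) (R1 R2 : Finset ℤ), R1.card = m → Disjoint R1 R2 → R1.card + R2.card ≤ 2 * d + 1 →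
      (∀ t ∈ R1, |t| ≤ T0) → (∀ t ∈ R2, |t| ≤ T0) →
      ∀ W : ℤ → ℤ → ℝ, (∀ t ∈ R2, ∀ u : ℤ, |u| ≤ (H : ℤ) ^ 2 → |W t u| ≤ Real.log H ^ (B1 + 2)) →
      |∑ f ∈ Box (d + 1) H, (∏ t ∈ R1, Lam (fv P f t)) * ∏ t ∈ R2, W t (fv P f t) -
        ∑ f ∈ Box (d + 1) H, (∏ t ∈ R1, lz z (fv P f t)) * ∏ t ∈ R2, W t (fv P f t)| ≤
        m * ((2 * H + 1) ^ (d + 1) / Real.log H ^ (U + 1)) := by
    intro m
    induction m with
    | zero =>
      intro R1 R2 hc _ _ _ _ W _
      rw [card_eq_zero] at hc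
      rw [hc]
      simp
    | succ m ih =>
      intro R1 R2 hc hdis hcard hR1 hR2 W hW
      obtain ⟨t0, R, ht0, rfl, hRc⟩ := Finset.card_eq_succ.1 hc
      have hdis' : Disjoint R (insert t0 R2) := by
        rw [disjoint_insert_right]
        exact ⟨ht0, (disjoint_insert_left.1 hdis).2⟩
      have ht02 : t0 ∉ R2 := (disjoint_insert_left.1 hdis).1
      rw [card_insert_of_notMem ht0] at hcard
      -- first step
      have e1 := hcor (R ∪ R2) t0 (by rw [mem_union]; tauto) ((card_union_le _ _).trans (by omega)) (hR1 t0 (mem_insert_self _ _))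
        (fun t ht => by
          rcases mem_union.1 ht with h | h
          · exact hR1 t (mem_insert_of_mem h)
          · exact hR2 t h)
        (fun t u => if t ∈ R then Lam u else W t u)
        (fun t ht u hu => by
          by_cases h : t ∈ R
          · simp only [h, if_true]
            exact hlam u hu
          · simp only [h, if_false]
            rcases mem_union.1 ht with h' | h'
            · exact absurd h' h
            · exact hW t h' u hu)
      have e1' : ∀ f ∈ Box (d + 1) H, (Lam (fv P f t0) - lz z (fv P f t0)) *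
          ∏ t ∈ R ∪ R2, (if t ∈ R then Lam (fv P f t) else W t (fv P f t)) =
          (∏ t ∈ insert t0 R, Lam (fv P f t)) * (∏ t ∈ R2, W t (fv P f t)) -
          (∏ t ∈ R, Lam (fv P f t)) * ∏ t ∈ insert t0 R2, (if t = t0 then lz z (fv P f t) else W t (fv P f t)) := by
        intro f _
        have hdd : Disjoint R R2 := (disjoint_insert_left.1 hdis).2
        rw [prod_union hdd, prod_insert ht0, prod_insert ht02, if_pos rfl]
        have s1 : ∏ t ∈ R, (if t ∈ R then Lam (fv P f t) else W t (fv P f t)) = ∏ t ∈ R, Lam (fv P f t) :=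
          prod_congr rfl fun t ht => by rw [if_pos ht]
        have s2 : ∏ t ∈ R2, (if t ∈ R then Lam (fv P f t) else W t (fv P f t)) = ∏ t ∈ R2, W t (fv P f t) :=
          prod_congr rfl fun t ht => by rw [if_neg (fun h => (disjoint_left.1 hdd h) ht)]
        have s3 : ∏ t ∈ R2, (if t = t0 then lz z (fv P f t) else W t (fv P f t)) = ∏ t ∈ R2, W t (fv P f t) :=
          prod_congr rfl fun t ht => by rw [if_neg (fun h : t = t0 => ht02 (h ▸ ht))]
        rw [s1, s2, s3]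
        ring
      rw [sum_congr rfl e1', sum_sub_distrib] at e1
      have e2 := ih R (insert t0 R2) hRc hdis' (by rw [card_insert_of_notMem ht02]; omega)
        (fun t ht => hR1 t (mem_insert_of_mem ht))
        (fun t ht => by
          rcases mem_insert.1 ht with h | h
          · rw [h]; exact hR1 t0 (mem_insert_self _ _)
          · exact hR2 t h)
        (fun t u => if t = t0 then lz z u else W t u)
        (fun t ht u hu => by
          by_cases h : t = t0
          · simp only [h, if_true]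
            exact hlz u
          · simp only [h, if_false]
            exact hW t (mem_of_mem_insert_of_ne ht h) u hu)
      have e3 : ∀ f ∈ Box (d + 1) H, (∏ t ∈ R, lz z (fv P f t)) *
          (∏ t ∈ insert t0 R2, (if t = t0 then lz z (fv P f t) else W t (fv P f t))) =
          (∏ t ∈ insert t0 R, lz z (fv P f t)) * (∏ t ∈ R2, W t (fv P f t)) := by
        intro f _
        rw [prod_insert ht0, prod_insert ht02, if_pos rfl]
        have s3 : ∏ t ∈ R2, (if t = t0 then lz z (fv P f t) else W t (fv P f t)) = ∏ t ∈ R2, W t (fv P f t) :=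
          prod_congr rfl fun t ht => by rw [if_neg (fun h : t = t0 => ht02 (h ▸ ht))]
        rw [s3]
        ring
      rw [sum_congr rfl e3] at e2
      refine (abs_sub_le _ _ _).trans ((add_le_add e1 e2).trans (le_of_eq ?_))
      push_cast
      ring
  intro R1 R2 hdis hcard hR1 hR2 W hW
  refine (main R1.card R1 R2 rfl hdis hcard hR1 hR2 W fun t ht u hu => hpw _ (hW t ht u hu)).trans ?_
  have hc : (R1.card : ℝ) ≤ Real.log H := by
    have : (R1.card : ℝ) ≤ 2 * d + 1 := by exact_mod_cast (by omega : R1.card ≤ 2 * d + 1)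
    linarith
  rw [← hLd] at hc hL ⊢
  have hL0 : 0 < L := by linarith
  calc (R1.card : ℝ) * ((2 * H + 1) ^ (d + 1) / L ^ (U + 1)) ≤ L * ((2 * H + 1) ^ (d + 1) / L ^ (U + 1)) := by gcongr
    _ = (2 * H + 1) ^ (d + 1) / L ^ U := by
        rw [pow_succ L U]
        field_simp

end Pool.Agent.T9h23.Cor
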