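import Mathlib
import Pool.Agent.T9h23.Cor.Rep

/-! Local densities: elementary estimates. -/

set_option autoImplicit false

namespace Pool.Agent.T9h23.Cor
open Finset Polynomial
open Pool.Agent.H373R2.T7

lemma phi_bound (p : ℝ) (m ν : ℕ) (hν : ν ≤ m) (hp : 2 * (m : ℝ) ≤ p) (hp1 : 2 ≤ p) :
    |(1 - ν / p) * ((1 - 1 / p)⁻¹) ^ m - 1| ≤ 2 * ((m : ℝ) - ν) / p + 2 * (m : ℝ) ^ 2 / p ^ 2 := by
  have hp0 : 0 < p := by linarith
  have hx0 : 0 ≤ 1 / p := by positivity
  have hx1 : 1 / p ≤ 1 / 2 := one_div_le_one_div_of_le (by norm_num) hp1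
  have hm0 : (0 : ℝ) ≤ m := Nat.cast_nonneg m
  have hνr : (ν : ℝ) ≤ m := by exact_mod_cast hν
  obtain ⟨x, hx⟩ : ∃ x, x = 1 / p := ⟨_, rfl⟩
  rw [← hx] at hx0 hx1 ⊢
  have hmx : (m : ℝ) * x ≤ 1 / 2 := by
    rw [hx, mul_one_div, div_le_div_iff₀ hp0 (by norm_num)]
    linarith
  have hlow : 1 - m * x ≤ (1 - x) ^ m := by
    have := one_add_mul_le_pow (a := -x) (by linarith) m
    calc 1 - m * x = 1 + m * (-x) := by ring
      _ ≤ (1 + -x) ^ m := this
      _ = (1 - x) ^ m := by ring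
  have hup : (1 - x) ^ m ≤ 1 - m * x + (m * x) ^ 2 := by
    have h1 : 1 + m * x ≤ (1 + x) ^ m := one_add_mul_le_pow (by linarith) m
    have h2 : (1 - x) ^ m * (1 + x) ^ m ≤ 1 := by
      rw [← mul_pow]
      apply pow_le_one₀
      · nlinarith
      · nlinarith
    have h3 : 0 ≤ (1 - x) ^ m := pow_nonneg (by linarith) m
    have h4 : (1 - x) ^ m * (1 + m * x) ≤ 1 := (mul_le_mul_of_nonneg_left h1 h3).trans h2
    have hmx0 : 0 ≤ m * x := by positivity
    by_contra hcon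
    push Not at hcon
    have h5 : (1 - m * x + (m * x) ^ 2) * (1 + m * x) ≤ (1 - x) ^ m * (1 + m * x) :=
      mul_le_mul_of_nonneg_right hcon.le (by linarith)
    have h6 : (1 - m * x + (m * x) ^ 2) * (1 + m * x) = 1 + (m * x) ^ 3 := by ring
    have h7 : 0 ≤ (m * x) ^ 3 := by positivity
    have h8 : (1 - m * x + (m * x) ^ 2) * (1 + m * x) < (1 - x) ^ m * (1 + m * x) :=
      mul_lt_mul_of_pos_right hcon (by linarith)
    linarith
  have hpos : 1 / 2 ≤ (1 - x) ^ m := by linarith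
  have hpos' : 0 < (1 - x) ^ m := by linarith
  have e : (1 - ν / p) * ((1 - x)⁻¹) ^ m - 1 = ((1 - ν * x) - (1 - x) ^ m) / (1 - x) ^ m := by
    rw [inv_pow, sub_div, div_self hpos'.ne', hx]
    ring
  rw [e, abs_div, abs_of_pos hpos', div_le_iff₀ hpos']
  have h1 : |(1 - ν * x) - (1 - x) ^ m| ≤ (m - ν) * x + (m * x) ^ 2 := by
    have h9 : 0 ≤ ((m : ℝ) - ν) * x := mul_nonneg (by linarith) hx0
    have h10 : 0 ≤ ((m : ℝ) * x) ^ 2 := by positivity
    rw [abs_le]
    constructor <;> nlinarith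
  refine h1.trans ?_
  have h2 : 2 * ((m : ℝ) - ν) / p + 2 * (m : ℝ) ^ 2 / p ^ 2 = 2 * (((m : ℝ) - ν) * x + (m * x) ^ 2) := by
    rw [hx]
    field_simp
  rw [h2]
  have h3 : 0 ≤ ((m : ℝ) - ν) * x + (m * x) ^ 2 := by
    have : 0 ≤ ((m : ℝ) - ν) := by linarith
    positivity
  nlinarith

lemma prod_sub_one_le {ι : Type*} (s : Finset ι) (φ δ : ι → ℝ) (h : ∀ i ∈ s, |φ i - 1| ≤ δ i) :
    |∏ i ∈ s, φ i - 1| ≤ (∑ i ∈ s, δ i) * Real.exp (∑ i ∈ s, δ i) := by
  have h1 := Finset.norm_prod_one_add_sub_one_le s (fun i => φ i - 1)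
  simp only [add_sub_cancel, Real.norm_eq_abs] at h1
  refine h1.trans ?_
  have h2 : ∑ i ∈ s, |φ i - 1| ≤ ∑ i ∈ s, δ i := sum_le_sum h
  have h3 : Real.exp (∑ i ∈ s, |φ i - 1|) ≤ Real.exp (∑ i ∈ s, δ i) := Real.exp_le_exp.2 h2
  have h4 : ∀ u : ℝ, Real.exp u - 1 ≤ u * Real.exp u := by
    intro u
    have h5 := Real.add_one_le_exp (-u)
    rw [Real.exp_neg] at h5
    have h6 := Real.exp_pos u
    have h7 : (-u + 1) * Real.exp u ≤ 1 := by
      calc (-u + 1) * Real.exp u ≤ (Real.exp u)⁻¹ * Real.exp u := mul_le_mul_of_nonneg_right h5 h6.le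
        _ = 1 := inv_mul_cancel₀ h6.ne'
    linarith
  linarith [h4 (∑ i ∈ s, δ i)]

/-- collisions -/
lemma card_le_image_add {α β : Type*} [DecidableEq α] [DecidableEq β] (s : Finset α) (f : α → β) :
    s.card ≤ (s.image f).card + (s.offDiag.filter (fun q => f q.1 = f q.2)).card := by
  induction s using Finset.induction_on with
  | empty => simp
  | insert a s ha ih =>
    rw [card_insert_of_notMem ha, image_insert]
    by_cases h : f a ∈ s.image f
    · rw [insert_eq_of_mem h]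
      obtain ⟨b, hb, hab⟩ := mem_image.1 h
      have h1 : insert (a, b) (s.offDiag.filter (fun q => f q.1 = f q.2)) ⊆
          (insert a s).offDiag.filter (fun q => f q.1 = f q.2) := by
        intro q hq
        rw [mem_insert] at hq
        rw [mem_filter, mem_offDiag]
        rcases hq with rfl | hq
        · refine ⟨⟨mem_insert_self _ _, mem_insert_of_mem hb, ?_⟩, hab.symm⟩
          intro hab'
          have hab2 : a = b := hab'
          exact ha (hab2 ▸ hb)
        · rw [mem_filter, mem_offDiag] at hq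
          exact ⟨⟨mem_insert_of_mem hq.1.1, mem_insert_of_mem hq.1.2.1, hq.1.2.2⟩, hq.2⟩
      have h2 := card_le_card h1
      rw [card_insert_of_notMem] at h2
      · omega
      · intro h3
        rw [mem_filter, mem_offDiag] at h3
        exact ha h3.1.1
    · rw [card_insert_of_notMem h]
      have h1 : s.offDiag.filter (fun q => f q.1 = f q.2) ⊆ (insert a s).offDiag.filter (fun q => f q.1 = f q.2) :=
        filter_subset_filter _ (offDiag_mono (subset_insert _ _))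
      have h2 := card_le_card h1
      omega

lemma exp_sum_inv (Z : ℕ) : Real.exp (∑ p ∈ pz Z, 1 / (p : ℝ)) ≤ (Vz Z)⁻¹ := by
  unfold Vz
  rw [← prod_inv_distrib, Real.exp_sum]
  apply prod_le_prod
  · intro p _
    exact (Real.exp_pos _).le
  · intro p hp
    have hp2 : (2 : ℝ) ≤ p := by exact_mod_cast (mem_pz.1 hp).2.two_le
    have h1 := Real.add_one_le_exp (-(1 / (p : ℝ)))
    have h2 : 0 < 1 - 1 / (p : ℝ) := by
      rw [sub_pos, div_lt_one (by linarith)]; linarith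
    rw [le_inv_comm₀ (Real.exp_pos _) h2, ← Real.exp_neg]
    linarith

lemma Vz_anti {y z : ℕ} (h : y ≤ z) : Vz z ≤ Vz y := by
  have hsub : pz y ⊆ pz z := by
    intro p hp
    rw [mem_pz] at hp ⊢
    exact ⟨hp.1.trans h, hp.2⟩
  have h1 : ∏ p ∈ pz z \ pz y, (1 - 1 / (p : ℝ)) ≤ 1 := by
    apply prod_le_one
    · intro p hp
      have hp2 : (2 : ℝ) ≤ p := by exact_mod_cast (mem_pz.1 (mem_sdiff.1 hp).1).2.two_le
      rw [sub_nonneg, div_le_one (by linarith)]; linarith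
    · intro p hp
      have : 0 ≤ 1 / (p : ℝ) := by positivity
      linarith
  have h2 : Vz z = (∏ p ∈ pz z \ pz y, (1 - 1 / (p : ℝ))) * Vz y := (prod_sdiff hsub).symm
  rw [h2]
  have h3 := Vz_pos y
  nlinarith

theorem Vz_small (E : ℕ) (e : ℝ) (he : 0 < e) : ∃ N0 : ℕ, ∀ N : ℕ, N0 ≤ N → ∀ z : ℕ, 1 ≤ z → (z : ℝ) ≤ Real.log N ^ E →
    (Vz z)⁻¹ ≤ Real.log N ^ e := by
  obtain ⟨C, hC⟩ := Pool.Agent.Helper256.KM.mertens_inv
  have hlim : Filter.Tendsto (fun N : ℕ => Real.log (N : ℝ)) Filter.atTop Filter.atTop :=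
    Real.tendsto_log_atTop.comp (tendsto_natCast_atTop_atTop (R := ℝ))
  have h2 : ∀ᶠ N : ℕ in Filter.atTop, (Real.exp (2 * C) * (E : ℝ) ^ 2) * Real.log (Real.log N) ^ 2 ≤ Real.log N ^ e := by
    have h3 := (isLittleO_log_rpow_atTop (half_pos he)).bound (show (0 : ℝ) < 1 / (Real.sqrt (Real.exp (2 * C) * (E : ℝ) ^ 2) + 1) by positivity)
    have h4 := hlim.eventually h3
    filter_upwards [h4, hlim.eventually_ge_atTop 1] with N h5 h6
    have h7 : 0 ≤ Real.log (Real.log N) := Real.log_nonneg h6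
    rw [Real.norm_of_nonneg h7, Real.norm_of_nonneg (by positivity), one_div, inv_mul_eq_div,
      le_div_iff₀ (by positivity)] at h5
    have h8 : (Real.log (Real.log N) * (Real.sqrt (Real.exp (2 * C) * (E : ℝ) ^ 2) + 1)) ^ 2 ≤ (Real.log N ^ (e / 2)) ^ 2 :=
      pow_le_pow_left₀ (by positivity) h5 2
    have h9 : (Real.log N ^ (e / 2)) ^ 2 = Real.log N ^ e := by
      rw [← Real.rpow_natCast, ← Real.rpow_mul (by linarith)]
      congr 1
      push_cast
      ring
    rw [h9, mul_pow] at h8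
    have h10 := Real.sq_sqrt (show (0 : ℝ) ≤ Real.exp (2 * C) * (E : ℝ) ^ 2 by positivity)
    have h11 : 0 ≤ Real.sqrt (Real.exp (2 * C) * (E : ℝ) ^ 2) := Real.sqrt_nonneg _
    have h12 : 0 ≤ Real.log (Real.log N) ^ 2 := by positivity
    calc _ = Real.log (Real.log N) ^ 2 * Real.sqrt (Real.exp (2 * C) * (E : ℝ) ^ 2) ^ 2 := by rw [h10]; ring
      _ ≤ Real.log (Real.log N) ^ 2 * (Real.sqrt (Real.exp (2 * C) * (E : ℝ) ^ 2) + 1) ^ 2 := by gcongr; linarith
      _ ≤ _ := h8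
  obtain ⟨N0, h0⟩ := Filter.eventually_atTop.1 (h2.and ((hlim.eventually_ge_atTop 3).and
    (((tendsto_rpow_atTop he).comp hlim).eventually_ge_atTop 3)))
  refine ⟨N0, fun N hN z hz hzE => ?_⟩
  obtain ⟨hb, hL, hL3⟩ := h0 N hN
  simp only [Function.comp] at hL3
  rcases lt_or_ge z 3 with h3 | h3
  · refine (Vz_inv_le z hz).trans ?_
    have : (z : ℝ) ≤ 3 := by exact_mod_cast h3.le
    linarith
  have h4 := hC z h3
  have h5 : (Vz z)⁻¹ ≤ Real.exp (2 * ∑ p ∈ pz z, 1 / (p : ℝ)) := by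
    unfold Vz
    rw [← prod_inv_distrib, mul_sum, Real.exp_sum]
    apply prod_le_prod
    · intro p hp
      have hp2 : (2 : ℝ) ≤ p := by exact_mod_cast (mem_pz.1 hp).2.two_le
      apply inv_nonneg.2
      rw [sub_nonneg, div_le_one (by linarith)]; linarith
    · intro p hp
      have hp2 : (2 : ℝ) ≤ p := by exact_mod_cast (mem_pz.1 hp).2.two_le
      have h6 : (1 - 1 / (p : ℝ))⁻¹ ≤ 2 * (1 / p) + 1 := by
        rw [inv_le_iff_one_le_mul₀ (by rw [sub_pos, div_lt_one (by linarith)]; linarith)]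
        have h7 : 0 < 1 / (p : ℝ) := by positivity
        have h8 : 1 / (p : ℝ) ≤ 1 / 2 := one_div_le_one_div_of_le (by norm_num) hp2
        nlinarith
      exact h6.trans (Real.add_one_le_exp _)
  have hz3 : (3 : ℝ) ≤ z := by exact_mod_cast h3
  have hlz : 1 ≤ Real.log z := by
    rw [← Real.log_exp 1]
    apply Real.log_le_log (Real.exp_pos _)
    have := Real.exp_one_lt_d9
    linarith
  have h6 : ∑ p ∈ pz z, 1 / (p : ℝ) ≤ Real.log (Real.log z) + C := by
    have := (abs_le.1 h4).2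
    unfold pz
    linarith
  have h7 : Real.log z ≤ E * Real.log (Real.log N) := by
    have h8 := Real.log_le_log (by linarith) hzE
    rw [Real.log_pow] at h8
    exact h8
  calc (Vz z)⁻¹ ≤ Real.exp (2 * ∑ p ∈ pz z, 1 / (p : ℝ)) := h5
    _ ≤ Real.exp (2 * (Real.log (Real.log z) + C)) := Real.exp_le_exp.2 (by linarith)
    _ = Real.exp (2 * C) * Real.log z ^ 2 := by
        rw [mul_add, Real.exp_add, mul_comm 2 (Real.log (Real.log z)), Real.exp_mul, Real.exp_log (by linarith)]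
        norm_num
        ring
    _ ≤ Real.exp (2 * C) * (E * Real.log (Real.log N)) ^ 2 := by gcongr
    _ = (Real.exp (2 * C) * (E : ℝ) ^ 2) * Real.log (Real.log N) ^ 2 := by ring
    _ ≤ _ := hb

end Pool.Agent.T9h23.Cor
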