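import Mathlib
import Pool.Agent.T9h23.Cor.Loc1
import Pool.Agent.H373R2.T7.SysCount

/-! Local densities: the sum over the constant term. -/

set_option autoImplicit false

namespace Pool.Agent.T9h23.Cor
open Finset Polynomial
open Pool.Agent.H373R2.T7

/-- the points at which `p` is sifted -/
def Rp (R : Finset ℤ) (zf : ℤ → ℕ) (p : ℕ) : Finset ℤ := R.filter (fun t => p ≤ zf t)

/-- the sifted residue -/
def rs (H : ℕ) (c : ℤ → ℤ) (p : ℕ) (t : ℤ) : ℕ := (((H : ℤ) + 1 - c t) % (p : ℤ)).toNat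

/-- the number of the sifted residues -/
def nup (H : ℕ) (R : Finset ℤ) (zf : ℤ → ℕ) (c : ℤ → ℤ) (p : ℕ) : ℕ := ((Rp R zf p).image (rs H c p)).card

noncomputable def phi (H : ℕ) (R : Finset ℤ) (zf : ℤ → ℕ) (c : ℤ → ℤ) (p : ℕ) : ℝ :=
  (1 - (nup H R zf c p : ℝ) / p) * ((1 - 1 / (p : ℝ))⁻¹) ^ (Rp R zf p).card

def QQ (H : ℕ) (R : Finset ℤ) (zf : ℤ → ℕ) (c : ℤ → ℤ) (p n : ℕ) : Prop :=
  ∃ t ∈ R, p ≤ zf t ∧ (p : ℤ) ∣ (n : ℤ) - (H + 1) + c t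

lemma rs_iff (H : ℕ) (c : ℤ → ℤ) {p : ℕ} (hp : 0 < p) (t : ℤ) {r : ℕ} (hr : r < p) :
    rs H c p t = r ↔ (p : ℤ) ∣ (r : ℤ) - (H + 1) + c t := by
  have hp' : (0 : ℤ) < p := by exact_mod_cast hp
  have h1 := Int.emod_nonneg ((H : ℤ) + 1 - c t) hp'.ne'
  have h2 := Int.emod_lt_of_pos ((H : ℤ) + 1 - c t) hp'
  have h3 : rs H c p t = r ↔ ((H : ℤ) + 1 - c t) % (p : ℤ) = (r : ℤ) % p := by
    unfold rs
    have : (r : ℤ) % p = r := Int.emod_eq_of_lt (by positivity) (by exact_mod_cast hr)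
    rw [this]
    omega
  rw [h3]
  constructor
  · intro h
    have h4 : ((r : ℤ)) ≡ ((H : ℤ) + 1 - c t) [ZMOD p] := h.symm
    have h5 := (Int.modEq_iff_dvd.1 h4.symm)
    have e : (r : ℤ) - (H + 1) + c t = r - ((H : ℤ) + 1 - c t) := by ring
    rw [e]; exact h5
  · intro h
    have e : (r : ℤ) - (H + 1) + c t = r - ((H : ℤ) + 1 - c t) := by ring
    rw [e] at h
    exact (Int.modEq_iff_dvd.2 h)

lemma rs_lt (H : ℕ) (c : ℤ → ℤ) {p : ℕ} (hp : 0 < p) (t : ℤ) : rs H c p t < p := by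
  have hp' : (0 : ℤ) < p := by exact_mod_cast hp
  have h1 := Int.emod_nonneg ((H : ℤ) + 1 - c t) hp'.ne'
  have h2 := Int.emod_lt_of_pos ((H : ℤ) + 1 - c t) hp'
  unfold rs
  omega

lemma nuB_QQ (H : ℕ) (R : Finset ℤ) (zf : ℤ → ℕ) (c : ℤ → ℤ) {p : ℕ} (hp : p.Prime) :
    nuB (QQ H R zf c) p = nup H R zf c p := by
  classical
  unfold nuB nup
  congr 1
  ext r
  rw [mem_filter, mem_range, mem_image]
  constructor
  · rintro ⟨hr, t, ht, hpt, hd⟩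
    refine ⟨t, ?_, (rs_iff H c hp.pos t hr).2 hd⟩
    unfold Rp
    rw [mem_filter]
    exact ⟨ht, hpt⟩
  · rintro ⟨t, ht, rfl⟩
    unfold Rp at ht
    rw [mem_filter] at ht
    have hlt := rs_lt H c hp.pos t
    exact ⟨hlt, t, ht.1, ht.2, (rs_iff H c hp.pos t hlt).1 rfl⟩

lemma perB_QQ (H : ℕ) (R : Finset ℤ) (zf : ℤ → ℕ) (c : ℤ → ℤ) (m : ℕ) (hm : R.card ≤ m) : PerB (QQ H R zf c) m := by
  constructor
  · intro p n
    unfold QQ
    refine exists_congr fun t => and_congr_right fun _ => and_congr_right fun _ => ?_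
    have h1 : (p : ℤ) ∣ (n : ℤ) - ((n % p : ℕ) : ℤ) := by
      rw [Int.natCast_mod]
      exact Int.dvd_self_sub_emod
    have e : (n : ℤ) - (H + 1) + c t = ((n : ℤ) - ((n % p : ℕ) : ℤ)) + ((((n % p : ℕ) : ℤ)) - (H + 1) + c t) := by ring
    rw [e, dvd_add_right h1]
  · intro p hp
    rw [nuB_QQ H R zf c hp]
    unfold nup
    exact card_image_le.trans ((card_filter_le _ _).trans hm)

lemma prod_V (R : Finset ℤ) (zf : ℤ → ℕ) (Z : ℕ) (hZ : ∀ t ∈ R, zf t ≤ Z) :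
    ∏ t ∈ R, (Vz (zf t))⁻¹ = ∏ p ∈ pz Z, ((1 - 1 / (p : ℝ))⁻¹) ^ (Rp R zf p).card := by
  have h1 : ∀ t ∈ R, (Vz (zf t))⁻¹ = ∏ p ∈ pz Z, if p ≤ zf t then (1 - 1 / (p : ℝ))⁻¹ else 1 := by
    intro t ht
    unfold Vz
    rw [← prod_inv_distrib, ← prod_filter]
    refine prod_congr ?_ fun _ _ => rfl
    ext p
    rw [mem_filter, mem_pz, mem_pz]
    have := hZ t ht
    constructor
    · rintro ⟨h2, h3⟩
      exact ⟨⟨h2.trans this, h3⟩, h2⟩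
    · rintro ⟨⟨_, h3⟩, h2⟩
      exact ⟨h2, h3⟩
  rw [prod_congr rfl h1, prod_comm]
  refine prod_congr rfl fun p _ => ?_
  rw [← prod_filter, prod_const]
  rfl

lemma lz_QQ (H : ℕ) (R : Finset ℤ) (zf : ℤ → ℕ) (c : ℤ → ℤ) (Z : ℕ) (hZ : ∀ t ∈ R, zf t ≤ Z) (n : ℕ) :
    ∏ t ∈ R, lz (zf t) ((n : ℤ) - (H + 1) + c t) =
      (∏ t ∈ R, (Vz (zf t))⁻¹) * (open Classical in if ∀ p ∈ pz Z, ¬ QQ H R zf c p n then (1 : ℝ) else 0) := by
  classical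
  split_ifs with h
  · rw [mul_one]
    refine prod_congr rfl fun t ht => ?_
    unfold lz lamz
    rw [if_pos]
    intro p hp hd
    rw [mem_pz] at hp
    refine h p (mem_pz.2 ⟨hp.1.trans (hZ t ht), hp.2⟩) ⟨t, ht, hp.1, ?_⟩
    rwa [Int.natCast_dvd]
  · rw [mul_zero]
    push Not at h
    obtain ⟨p, hp, t, ht, hpt, hd⟩ := h
    apply prod_eq_zero ht
    unfold lz lamz
    rw [if_neg]
    intro h2
    refine h2 p (mem_pz.2 ⟨hpt, (mem_pz.1 hp).2⟩) ?_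
    rwa [Int.natCast_dvd] at hd

lemma sum_shift (H : ℕ) (F : ℤ → ℝ) : ∑ x ∈ Icc (-(H : ℤ)) H, F x = ∑ n ∈ Icc 1 (2 * H + 1), F ((n : ℤ) - (H + 1)) := by
  symm
  apply sum_bij (fun (n : ℕ) _ => (n : ℤ) - (H + 1))
  · intro n hn
    rw [mem_Icc] at hn ⊢
    omega
  · intro a _ b _ h
    omega
  · intro x hx
    rw [mem_Icc] at hx
    exact ⟨(x + (H + 1)).toNat, by rw [mem_Icc]; omega, by omega⟩
  · intro n _
    rfl

theorem sum_x (m E U : ℕ) (hm : 1 ≤ m) : ∃ H0 : ℕ, ∀ H : ℕ, H0 ≤ H → ∀ Z : ℕ, 1 ≤ Z → (Z : ℝ) ≤ Real.log H ^ E →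
    ∀ R : Finset ℤ, R.card ≤ m → ∀ zf : ℤ → ℕ, (∀ t ∈ R, zf t ≤ Z) → ∀ c : ℤ → ℤ,
    |∑ x ∈ Icc (-(H : ℤ)) H, ∏ t ∈ R, lz (zf t) (x + c t) - (2 * H + 1) * ∏ p ∈ pz Z, phi H R zf c p| ≤
      (Vz Z)⁻¹ ^ m * ((2 * H + 1) / Real.log H ^ U) := by
  classical
  obtain ⟨N0, h0⟩ := sys_count m E U hm
  refine ⟨max N0 3, fun H hH Z hZ1 hZE R hR zf hzf c => ?_⟩
  have hH3 : 3 ≤ H := (le_max_right _ _).trans hH
  have hHr : (3 : ℝ) ≤ H := by exact_mod_cast hH3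
  have hl : 0 < Real.log H := Real.log_pos (by linarith)
  have hl2 : Real.log H ≤ Real.log ((2 * H + 1 : ℕ) : ℝ) := by
    apply Real.log_le_log (by linarith)
    push_cast
    linarith
  have h1 := h0 (2 * H + 1) (by have := (le_max_left N0 3).trans hH; omega) Z hZ1
    (hZE.trans (pow_le_pow_left₀ hl.le hl2 _)) (QQ H R zf c) (perB_QQ H R zf c m hR)
  have h2 : ∑ x ∈ Icc (-(H : ℤ)) H, ∏ t ∈ R, lz (zf t) (x + c t) =
      (∏ t ∈ R, (Vz (zf t))⁻¹) * ((((Icc 1 (2 * H + 1)).filter (fun n : ℕ => ∀ p ∈ pz Z, ¬ QQ H R zf c p n)).card : ℕ) : ℝ) := by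
    rw [sum_shift H (fun x => ∏ t ∈ R, lz (zf t) (x + c t))]
    rw [sum_congr rfl fun n _ => lz_QQ H R zf c Z hzf n, ← mul_sum, sum_boole]
  have h3 : ∏ p ∈ pz Z, phi H R zf c p = (∏ t ∈ R, (Vz (zf t))⁻¹) * ∏ p ∈ pz Z, (1 - (nuB (QQ H R zf c) p : ℝ) / p) := by
    rw [prod_V R zf Z hzf, ← prod_mul_distrib]
    refine prod_congr rfl fun p hp => ?_
    rw [nuB_QQ H R zf c (mem_pz.1 hp).2]
    unfold phi
    ring
  have h4 : 0 ≤ ∏ t ∈ R, (Vz (zf t))⁻¹ := prod_nonneg fun t _ => (inv_pos.2 (Vz_pos _)).le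
  have h5 : ∏ t ∈ R, (Vz (zf t))⁻¹ ≤ (Vz Z)⁻¹ ^ m := by
    have h6 : 1 ≤ (Vz Z)⁻¹ := (one_le_inv₀ (Vz_pos _)).2 (Vz_le_one Z)
    calc ∏ t ∈ R, (Vz (zf t))⁻¹ ≤ ∏ _t ∈ R, (Vz Z)⁻¹ := by
          apply prod_le_prod (fun t _ => (inv_pos.2 (Vz_pos _)).le)
          intro t ht
          exact inv_anti₀ (Vz_pos _) (Vz_anti (hzf t ht))
      _ = (Vz Z)⁻¹ ^ R.card := by rw [prod_const]
      _ ≤ (Vz Z)⁻¹ ^ m := pow_le_pow_right₀ h6 hR
  rw [h2, h3]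
  have e : (∏ t ∈ R, (Vz (zf t))⁻¹) * ((((Icc 1 (2 * H + 1)).filter (fun n : ℕ => ∀ p ∈ pz Z, ¬ QQ H R zf c p n)).card : ℕ) : ℝ) -
      (2 * H + 1) * ((∏ t ∈ R, (Vz (zf t))⁻¹) * ∏ p ∈ pz Z, (1 - (nuB (QQ H R zf c) p : ℝ) / p)) =
      (∏ t ∈ R, (Vz (zf t))⁻¹) * (((((Icc 1 (2 * H + 1)).filter (fun n : ℕ => ∀ p ∈ pz Z, ¬ QQ H R zf c p n)).card : ℕ) : ℝ) -
      ((2 * H + 1 : ℕ) : ℝ) * ∏ p ∈ pz Z, (1 - (nuB (QQ H R zf c) p : ℝ) / p)) := by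
    push_cast
    ring
  rw [e, abs_mul, abs_of_nonneg h4]
  refine mul_le_mul h5 (h1.trans ?_) (abs_nonneg _) (pow_nonneg (inv_pos.2 (Vz_pos _)).le _)
  refine (div_le_div_of_nonneg_left (by positivity) (by positivity) (pow_le_pow_left₀ hl.le hl2 U)).trans (le_of_eq ?_)
  push_cast
  rfl

/-- the correction at the primes above `y` -/
noncomputable def del (H : ℕ) (R : Finset ℤ) (zf : ℤ → ℕ) (c : ℤ → ℤ) (m y Z : ℕ) : ℝ :=
  ∑ p ∈ pz Z \ pz y, (2 * (((Rp R zf p).card : ℝ) - nup H R zf c p) / p + 2 * (m : ℝ) ^ 2 / (p : ℝ) ^ 2)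

lemma nup_le (H : ℕ) (R : Finset ℤ) (zf : ℤ → ℕ) (c : ℤ → ℤ) (p : ℕ) : nup H R zf c p ≤ (Rp R zf p).card := card_image_le

lemma del_nonneg (H : ℕ) (R : Finset ℤ) (zf : ℤ → ℕ) (c : ℤ → ℤ) (m y Z : ℕ) : 0 ≤ del H R zf c m y Z := by
  unfold del
  apply sum_nonneg
  intro p _
  have : (nup H R zf c p : ℝ) ≤ (Rp R zf p).card := by exact_mod_cast nup_le H R zf c p
  have h2 : 0 ≤ ((Rp R zf p).card : ℝ) - nup H R zf c p := by linarith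
  positivity

lemma loc_x (m E U : ℕ) (hm : 1 ≤ m) : ∃ H0 : ℕ, ∀ H : ℕ, H0 ≤ H → ∀ y Z : ℕ, 2 * m ≤ y → y ≤ Z → (Z : ℝ) ≤ Real.log H ^ E →
    ∀ R : Finset ℤ, R.card ≤ m → ∀ zf : ℤ → ℕ, (∀ t ∈ R, y ≤ zf t) → (∀ t ∈ R, zf t ≤ Z) → ∀ c : ℤ → ℤ,
    |∑ x ∈ Icc (-(H : ℤ)) H, ∏ t ∈ R, lz (zf t) (x + c t) - ∑ x ∈ Icc (-(H : ℤ)) H, ∏ t ∈ R, lz y (x + c t)| ≤
      2 * ((Vz Z)⁻¹ ^ m * ((2 * H + 1) / Real.log H ^ U)) +
      (2 * H + 1) * ((Vz Z)⁻¹ ^ (m + 4 * m ^ 2) * del H R zf c m y Z) := by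
  obtain ⟨H0, h0⟩ := sum_x m E U hm
  refine ⟨max H0 3, fun H hH y Z hy hyZ hZE R hR zf hzf1 hzf2 c => ?_⟩
  have hH0 : H0 ≤ H := (le_max_left _ _).trans hH
  have hH3 : 3 ≤ H := (le_max_right _ _).trans hH
  have hHr : (3 : ℝ) ≤ H := by exact_mod_cast hH3
  have hl : 0 < Real.log H := Real.log_pos (by linarith)
  have hyr : (y : ℝ) ≤ Z := by exact_mod_cast hyZ
  have h1 := h0 H hH0 Z (by omega) hZE R hR zf hzf2 c
  have h2 := h0 H hH0 y (by omega) (hyr.trans hZE) R hR (fun _ => y) (fun _ _ => le_rfl) c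
  have hV1 : 1 ≤ (Vz Z)⁻¹ := (one_le_inv₀ (Vz_pos _)).2 (Vz_le_one Z)
  have hVy : (Vz y)⁻¹ ≤ (Vz Z)⁻¹ := inv_anti₀ (Vz_pos _) (Vz_anti hyZ)
  have hVy0 : 0 < (Vz y)⁻¹ := inv_pos.2 (Vz_pos y)
  have h2' : |∑ x ∈ Icc (-(H : ℤ)) H, ∏ t ∈ R, lz y (x + c t) - (2 * H + 1) * ∏ p ∈ pz y, phi H R (fun _ => y) c p| ≤
      (Vz Z)⁻¹ ^ m * ((2 * H + 1) / Real.log H ^ U) := by
    refine h2.trans ?_
    gcongr
  have hsub : pz y ⊆ pz Z := by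
    intro p hp
    rw [mem_pz] at hp ⊢
    exact ⟨hp.1.trans hyZ, hp.2⟩
  have hRp : ∀ p ∈ pz y, Rp R zf p = Rp R (fun _ => y) p := by
    intro p hp
    unfold Rp
    rw [mem_pz] at hp
    refine filter_congr fun t ht => ?_
    have := hzf1 t ht
    constructor
    · intro _; exact hp.1
    · intro _; omega
  have e1 : ∏ p ∈ pz y, phi H R (fun _ => y) c p = ∏ p ∈ pz y, phi H R zf c p := by
    refine prod_congr rfl fun p hp => ?_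
    unfold phi nup
    rw [hRp p hp]
  have e2 : ∏ p ∈ pz Z, phi H R zf c p = (∏ p ∈ pz Z \ pz y, phi H R zf c p) * ∏ p ∈ pz y, phi H R zf c p :=
    (prod_sdiff hsub).symm
  have hRc : ∀ p, (Rp R zf p).card ≤ m := fun p => (card_filter_le _ _).trans hR
  -- the head
  have hnu : ∀ p : ℕ, p.Prime → (nup H R zf c p : ℝ) / p ≤ 1 := by
    intro p hp
    have hp0 : (0 : ℝ) < p := by exact_mod_cast hp.pos
    rw [div_le_one hp0, ← nuB_QQ H R zf c hp]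
    exact_mod_cast nuB_le _ _
  have h3 : |∏ p ∈ pz y, phi H R zf c p| ≤ (Vz Z)⁻¹ ^ m := by
    rw [abs_prod]
    calc ∏ p ∈ pz y, |phi H R zf c p| ≤ ∏ p ∈ pz y, ((1 - 1 / (p : ℝ))⁻¹) ^ m := by
          apply prod_le_prod (fun _ _ => abs_nonneg _)
          intro p hp
          have hp' := (mem_pz.1 hp).2
          have hp2 : (2 : ℝ) ≤ p := by exact_mod_cast hp'.two_le
          have h4 : 0 < 1 - 1 / (p : ℝ) := by
            rw [sub_pos, div_lt_one (by linarith)]; linarith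
          have h5 : 1 ≤ (1 - 1 / (p : ℝ))⁻¹ := by
            apply (one_le_inv₀ h4).2
            have : 0 ≤ 1 / (p : ℝ) := by positivity
            linarith
          have h6 := hnu p hp'
          have h7 : 0 ≤ (nup H R zf c p : ℝ) / p := by positivity
          unfold phi
          rw [abs_mul, abs_of_nonneg (by linarith : 0 ≤ 1 - (nup H R zf c p : ℝ) / p), abs_of_nonneg (by positivity)]
          calc (1 - (nup H R zf c p : ℝ) / p) * ((1 - 1 / (p : ℝ))⁻¹) ^ (Rp R zf p).card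
              ≤ 1 * ((1 - 1 / (p : ℝ))⁻¹) ^ m := by
                apply mul_le_mul (by linarith) (pow_le_pow_right₀ h5 (hRc p)) (by positivity) (by norm_num)
            _ = _ := one_mul _
      _ = (Vz y)⁻¹ ^ m := by
          rw [prod_pow]
          unfold Vz
          rw [← prod_inv_distrib]
      _ ≤ (Vz Z)⁻¹ ^ m := by gcongr
  -- the tail
  have hmem : ∀ p ∈ pz Z \ pz y, p.Prime ∧ y < p ∧ p ≤ Z := by
    intro p hp
    rw [mem_sdiff, mem_pz, mem_pz] at hp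
    refine ⟨hp.1.2, ?_, hp.1.1⟩
    by_contra hcon
    exact hp.2 ⟨by omega, hp.1.2⟩
  have h8 : |∏ p ∈ pz Z \ pz y, phi H R zf c p - 1| ≤ del H R zf c m y Z * Real.exp (del H R zf c m y Z) := by
    unfold del
    apply prod_sub_one_le
    intro p hp
    obtain ⟨hpp, hyp, _⟩ := hmem p hp
    have hpr : (2 : ℝ) * m ≤ p := by exact_mod_cast (by omega : 2 * m ≤ p)
    have hp2 : (2 : ℝ) ≤ p := by exact_mod_cast hpp.two_le
    have hcr : ((Rp R zf p).card : ℝ) ≤ m := by exact_mod_cast hRc p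
    refine (phi_bound p (Rp R zf p).card (nup H R zf c p) (nup_le _ _ _ _ _) (by linarith) hp2).trans ?_
    gcongr
  have h9 : del H R zf c m y Z ≤ (4 * m ^ 2 : ℕ) * ∑ p ∈ pz Z, 1 / (p : ℝ) := by
    rw [mul_sum]
    refine le_trans ?_ (sum_le_sum_of_subset_of_nonneg (s := pz Z \ pz y) sdiff_subset (fun _ _ _ => by positivity))
    unfold del
    apply sum_le_sum
    intro p hp
    obtain ⟨hpp, hyp, _⟩ := hmem p hp
    have hp2 : (2 : ℝ) ≤ p := by exact_mod_cast hpp.two_le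
    have hp0 : (0 : ℝ) < p := by linarith
    have hcr : ((Rp R zf p).card : ℝ) ≤ m := by exact_mod_cast hRc p
    have hn0 : (0 : ℝ) ≤ nup H R zf c p := Nat.cast_nonneg _
    have hmr : (1 : ℝ) ≤ m := by exact_mod_cast hm
    have a1 : 2 * (((Rp R zf p).card : ℝ) - nup H R zf c p) / p ≤ 2 * (m : ℝ) ^ 2 * (1 / p) := by
      rw [div_eq_mul_one_div]
      apply mul_le_mul_of_nonneg_right _ (by positivity)
      nlinarith
    have a2 : 2 * (m : ℝ) ^ 2 / (p : ℝ) ^ 2 ≤ 2 * (m : ℝ) ^ 2 * (1 / p) := by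
      rw [div_eq_mul_one_div]
      apply mul_le_mul_of_nonneg_left _ (by positivity)
      apply one_div_le_one_div_of_le hp0
      nlinarith
    push_cast
    linarith
  have h10 : Real.exp (del H R zf c m y Z) ≤ (Vz Z)⁻¹ ^ (4 * m ^ 2) := by
    refine (Real.exp_le_exp.2 h9).trans ?_
    rw [Real.exp_nat_mul]
    exact pow_le_pow_left₀ (Real.exp_pos _).le (exp_sum_inv Z) _
  have h11 : |(2 * H + 1) * ∏ p ∈ pz Z, phi H R zf c p - (2 * H + 1) * ∏ p ∈ pz y, phi H R (fun _ => y) c p| ≤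
      (2 * H + 1) * ((Vz Z)⁻¹ ^ (m + 4 * m ^ 2) * del H R zf c m y Z) := by
    rw [e1, e2]
    have e3 : (2 * (H : ℝ) + 1) * ((∏ p ∈ pz Z \ pz y, phi H R zf c p) * ∏ p ∈ pz y, phi H R zf c p) -
        (2 * H + 1) * ∏ p ∈ pz y, phi H R zf c p =
        (2 * H + 1) * ((∏ p ∈ pz y, phi H R zf c p) * (∏ p ∈ pz Z \ pz y, phi H R zf c p - 1)) := by ring
    rw [e3, abs_mul, abs_of_nonneg (by positivity : (0 : ℝ) ≤ 2 * H + 1), abs_mul]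
    apply mul_le_mul_of_nonneg_left _ (by positivity)
    have hd := del_nonneg H R zf c m y Z
    calc |∏ p ∈ pz y, phi H R zf c p| * |∏ p ∈ pz Z \ pz y, phi H R zf c p - 1|
        ≤ (Vz Z)⁻¹ ^ m * (del H R zf c m y Z * (Vz Z)⁻¹ ^ (4 * m ^ 2)) := by
          apply mul_le_mul h3 _ (abs_nonneg _) (by positivity)
          refine h8.trans ?_
          gcongr
      _ = _ := by rw [pow_add]; ring
  have e4 : ∑ x ∈ Icc (-(H : ℤ)) H, ∏ t ∈ R, lz (zf t) (x + c t) - ∑ x ∈ Icc (-(H : ℤ)) H, ∏ t ∈ R, lz y (x + c t) =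
      (∑ x ∈ Icc (-(H : ℤ)) H, ∏ t ∈ R, lz (zf t) (x + c t) - (2 * H + 1) * ∏ p ∈ pz Z, phi H R zf c p) -
      (∑ x ∈ Icc (-(H : ℤ)) H, ∏ t ∈ R, lz y (x + c t) - (2 * H + 1) * ∏ p ∈ pz y, phi H R (fun _ => y) c p) +
      ((2 * H + 1) * ∏ p ∈ pz Z, phi H R zf c p - (2 * H + 1) * ∏ p ∈ pz y, phi H R (fun _ => y) c p) := by ring
  rw [e4]
  refine (abs_add_le _ _).trans ?_
  refine (add_le_add (abs_sub _ _) h11).trans ?_
  linarith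

end Pool.Agent.T9h23.Cor
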