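import Mathlib
import Pool.Agent.T9h23.Cor.Loc2

/-! Local densities: the average over the other coefficients. -/

set_option autoImplicit false

namespace Pool.Agent.T9h23.Cor
open Finset Polynomial
open Pool.Agent.H373R2.T7

/-- the values without the constant term -/
def cb {d : ℕ} (P : ℤ → ℤ) (b : Fin d → ℤ) (t : ℤ) : ℤ := P t + ∑ i, b i * t ^ ((i : ℕ) + 1)

lemma fv_insert {d : ℕ} (P : ℤ → ℤ) (b : Fin d → ℤ) (x t : ℤ) :
    fv P ((0 : Fin (d + 1)).insertNth x b) t = x + cb P b t := by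
  unfold fv cb
  rw [Fin.sum_univ_succ]
  simp only [Fin.insertNth_zero', Fin.cons_zero, Fin.cons_succ, Fin.val_zero, pow_zero, mul_one, Fin.val_succ]
  ring

lemma cb_insert {d : ℕ} (P : ℤ → ℤ) (b : Fin d → ℤ) (x t : ℤ) :
    cb P ((0 : Fin (d + 1)).insertNth x b) t = P t + x * t + ∑ i : Fin d, b i * t ^ ((i : ℕ) + 2) := by
  unfold cb
  rw [Fin.sum_univ_succ]
  simp only [Fin.insertNth_zero', Fin.cons_zero, Fin.cons_succ, Fin.val_zero, Fin.val_succ, zero_add, pow_one]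
  rw [add_assoc]

lemma card_cong (H p : ℕ) (hp : p.Prime) (u v : ℤ) (hv : ¬ (p : ℤ) ∣ v) :
    ((Icc (-(H : ℤ)) H).filter (fun x => (p : ℤ) ∣ u + x * v)).card ≤ 2 * H / p + 1 := by
  have hp0 : (0 : ℤ) < p := by exact_mod_cast hp.pos
  have h1 : ((Icc (-(H : ℤ)) H).filter (fun x => (p : ℤ) ∣ u + x * v)).card ≤ (range (2 * H / p + 1)).card := by
    apply card_le_card_of_injOn (fun x : ℤ => ((x + (H : ℤ)) / (p : ℤ)).toNat)
    · intro x hx
      rw [mem_coe, mem_filter, mem_Icc] at hx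
      rw [mem_coe, mem_range]
      have h2 : (x + H) / (p : ℤ) ≤ (2 * H : ℤ) / p := Int.ediv_le_ediv hp0 (by omega)
      have h3 : 0 ≤ (x + H) / (p : ℤ) := Int.ediv_nonneg (by omega) hp0.le
      have h4 : ((2 * H / p : ℕ) : ℤ) = (2 * H : ℤ) / p := by push_cast; rfl
      show ((x + (H : ℤ)) / (p : ℤ)).toNat < 2 * H / p + 1
      have h5 : (x + (H : ℤ)) / (p : ℤ) < ((2 * H / p : ℕ) : ℤ) + 1 := by linarith
      omega
    · intro x hx x' hx' h
      rw [mem_coe, mem_filter, mem_Icc] at hx hx'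
      simp only at h
      have h3 : 0 ≤ (x + H) / (p : ℤ) := Int.ediv_nonneg (by omega) hp0.le
      have h3' : 0 ≤ (x' + H) / (p : ℤ) := Int.ediv_nonneg (by omega) hp0.le
      have h4 : (x + H) / (p : ℤ) = (x' + H) / (p : ℤ) := by omega
      have h5 : (p : ℤ) ∣ (x - x') * v := by
        have := dvd_sub hx.2 hx'.2
        have e : u + x * v - (u + x' * v) = (x - x') * v := by ring
        rwa [e] at this
      have h6 : (p : ℤ) ∣ x - x' := by
        rcases (Nat.prime_iff_prime_int.1 hp).dvd_or_dvd h5 with h | h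
        · exact h
        · exact absurd h hv
      have h7 := Int.emod_add_mul_ediv (x + H) p
      have h8 := Int.emod_add_mul_ediv (x' + H) p
      have h9 : (x + H) % (p : ℤ) = (x' + H) % (p : ℤ) := by
        apply Int.emod_eq_emod_iff_emod_sub_eq_zero.2
        apply Int.emod_eq_zero_of_dvd
        have e : x + H - (x' + H) = x - x' := by ring
        rwa [e]
      rw [h4, h9] at h7
      linarith
  rwa [card_range] at h1

lemma card_cong_real (H p : ℕ) (hp : p.Prime) (hpH : p ≤ 2 * H + 1) (u v : ℤ) (hv : ¬ (p : ℤ) ∣ v) :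
    (((Icc (-(H : ℤ)) H).filter (fun x => (p : ℤ) ∣ u + x * v)).card : ℝ) ≤ (2 * H + 1) * (2 / p) := by
  have h1 := card_cong H p hp u v hv
  have hp0 : (0 : ℝ) < p := by exact_mod_cast hp.pos
  have h2 : (((2 * H / p + 1 : ℕ)) : ℝ) ≤ (2 * H + 1) * (2 / p) := by
    push_cast
    have h3 : (((2 * H / p : ℕ)) : ℝ) ≤ ((2 * H : ℕ) : ℝ) / p := Nat.cast_div_le
    push_cast at h3
    have h4 : (p : ℝ) ≤ 2 * H + 1 := by exact_mod_cast hpH
    have h5 : (1 : ℝ) ≤ (2 * H + 1) / p := by rw [le_div_iff₀ hp0]; linarith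
    calc (((2 * H / p : ℕ)) : ℝ) + 1 ≤ 2 * H / p + (2 * H + 1) / p := add_le_add h3 h5
      _ ≤ (2 * H + 1) / p + (2 * H + 1) / p := by gcongr; linarith
      _ = (2 * H + 1) * (2 / p) := by ring
  exact le_trans (by exact_mod_cast h1) h2

open Classical in
lemma sum_cong {d : ℕ} (hd : 1 ≤ d) (H p : ℕ) (hp : p.Prime) (hpH : p ≤ 2 * H + 1) (P : ℤ → ℤ) (s t : ℤ) :
    ∑ b ∈ Box d H, (if (p : ℤ) ∣ cb P b s - cb P b t then (1 : ℝ) else 0) ≤
      (2 * H + 1) ^ d * (2 / p + if (p : ℤ) ∣ s - t then 1 else 0) := by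
  obtain ⟨d', rfl⟩ : ∃ d', d = d' + 1 := ⟨d - 1, by omega⟩
  have hp0 : (0 : ℝ) < p := by exact_mod_cast hp.pos
  have hB : ((Box (d' + 1) H).card : ℝ) = (2 * H + 1) ^ (d' + 1) := by rw [card_Box]; push_cast; rfl
  by_cases h : (p : ℤ) ∣ s - t
  · rw [if_pos h]
    calc ∑ b ∈ Box (d' + 1) H, (if (p : ℤ) ∣ cb P b s - cb P b t then (1 : ℝ) else 0) ≤ ∑ _b ∈ Box (d' + 1) H, (1 : ℝ) := by
          apply sum_le_sum
          intro b _
          split_ifs <;> norm_num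
      _ = (2 * H + 1) ^ (d' + 1) * 1 := by rw [sum_const, nsmul_eq_mul, hB]
      _ ≤ _ := by
          apply mul_le_mul_of_nonneg_left _ (by positivity)
          have : 0 < 2 / (p : ℝ) := by positivity
          linarith
  · rw [if_neg h, add_zero, sum_Box_insert H 0]
    calc ∑ b ∈ Box d' H, ∑ x ∈ Icc (-(H : ℤ)) H, (if (p : ℤ) ∣ cb P ((0 : Fin (d' + 1)).insertNth x b) s -
            cb P ((0 : Fin (d' + 1)).insertNth x b) t then (1 : ℝ) else 0)
        ≤ ∑ _b ∈ Box d' H, (2 * H + 1) * (2 / (p : ℝ)) := by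
          apply sum_le_sum
          intro b _
          rw [sum_boole]
          refine le_trans (le_of_eq ?_) (card_cong_real H p hp hpH
            ((P s + ∑ i : Fin d', b i * s ^ ((i : ℕ) + 2)) - (P t + ∑ i : Fin d', b i * t ^ ((i : ℕ) + 2))) (s - t) h)
          congr 2
          refine filter_congr fun x _ => ?_
          rw [cb_insert, cb_insert]
          have e : P s + x * s + ∑ i : Fin d', b i * s ^ ((i : ℕ) + 2) - (P t + x * t + ∑ i : Fin d', b i * t ^ ((i : ℕ) + 2)) =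
              (P s + ∑ i : Fin d', b i * s ^ ((i : ℕ) + 2)) - (P t + ∑ i : Fin d', b i * t ^ ((i : ℕ) + 2)) + x * (s - t) := by ring
          rw [e]
      _ = _ := by
          rw [sum_const, nsmul_eq_mul, card_Box]
          push_cast
          ring

lemma rs_cong (H : ℕ) (c : ℤ → ℤ) {p : ℕ} (hp : 0 < p) {s t : ℤ} (h : rs H c p s = rs H c p t) : (p : ℤ) ∣ c s - c t := by
  have hp' : (0 : ℤ) < p := by exact_mod_cast hp
  have h1 := Int.emod_nonneg ((H : ℤ) + 1 - c s) hp'.ne'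
  have h2 := Int.emod_nonneg ((H : ℤ) + 1 - c t) hp'.ne'
  unfold rs at h
  have h3 : ((H : ℤ) + 1 - c s) % (p : ℤ) = ((H : ℤ) + 1 - c t) % (p : ℤ) := by omega
  have h4 : (p : ℤ) ∣ ((H : ℤ) + 1 - c t) - ((H : ℤ) + 1 - c s) := Int.ModEq.dvd h3
  have e : ((H : ℤ) + 1 - c t) - ((H : ℤ) + 1 - c s) = c s - c t := by ring
  rwa [e] at h4

open Classical in
lemma del_le (H : ℕ) (R : Finset ℤ) (zf : ℤ → ℕ) (c : ℤ → ℤ) (m y Z : ℕ) :
    del H R zf c m y Z ≤ ∑ p ∈ pz Z \ pz y, (2 / (p : ℝ) * (∑ q ∈ R.offDiag, (if (p : ℤ) ∣ c q.1 - c q.2 then (1 : ℝ) else 0)) +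
      2 * (m : ℝ) ^ 2 / (p : ℝ) ^ 2) := by
  unfold del
  apply sum_le_sum
  intro p hp
  have hpp : p.Prime := (mem_pz.1 (mem_sdiff.1 hp).1).2
  have hp0 : (0 : ℝ) < p := by exact_mod_cast hpp.pos
  have h1 := card_le_image_add (Rp R zf p) (rs H c p)
  have h2 : ((Rp R zf p).offDiag.filter (fun q => rs H c p q.1 = rs H c p q.2)).card ≤
      (R.offDiag.filter (fun q => (p : ℤ) ∣ c q.1 - c q.2)).card := by
    apply card_le_card
    intro q hq
    rw [mem_filter, mem_offDiag] at hq ⊢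
    refine ⟨⟨(mem_filter.1 hq.1.1).1, (mem_filter.1 hq.1.2.1).1, hq.1.2.2⟩, rs_cong H c hpp.pos hq.2⟩
  have h3 : ((Rp R zf p).card : ℝ) - nup H R zf c p ≤ ∑ q ∈ R.offDiag, (if (p : ℤ) ∣ c q.1 - c q.2 then (1 : ℝ) else 0) := by
    rw [sum_boole]
    have h4 : ((Rp R zf p).card : ℝ) ≤ nup H R zf c p + ((R.offDiag.filter (fun q => (p : ℤ) ∣ c q.1 - c q.2)).card : ℝ) := by
      unfold nup
      exact_mod_cast h1.trans (Nat.add_le_add_left h2 _)
    linarith
  have h5 : 2 * (((Rp R zf p).card : ℝ) - nup H R zf c p) / p = 2 / (p : ℝ) * (((Rp R zf p).card : ℝ) - nup H R zf c p) := by ring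
  rw [h5]
  gcongr

/-- the sum of `1/p²` above `y` -/
lemma sum_sq_tail (y Z : ℕ) (hy : 1 ≤ y) : ∑ p ∈ pz Z \ pz y, 1 / (p : ℝ) ^ 2 ≤ 1 / (y : ℝ) := by
  have hy0 : (0 : ℝ) < y := by exact_mod_cast hy
  have h1 : ∀ W : ℕ, y ≤ W → ∑ n ∈ Ioc y W, 1 / (n : ℝ) ^ 2 ≤ 1 / (y : ℝ) - 1 / (W : ℝ) := by
    intro W hW
    induction W, hW using Nat.le_induction with
    | base => simp
    | succ W hW ih =>
      have hW0 : (0 : ℝ) < W := by exact_mod_cast (by omega : 0 < W)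
      rw [sum_Ioc_succ_top hW]
      have h2 : 1 / ((W + 1 : ℕ) : ℝ) ^ 2 ≤ 1 / (W : ℝ) - 1 / ((W + 1 : ℕ) : ℝ) := by
        push_cast
        rw [div_sub_div _ _ hW0.ne' (by positivity), div_le_div_iff₀ (by positivity) (by positivity)]
        nlinarith
      linarith
  rcases le_or_gt y Z with h | h
  · calc ∑ p ∈ pz Z \ pz y, 1 / (p : ℝ) ^ 2 ≤ ∑ n ∈ Ioc y Z, 1 / (n : ℝ) ^ 2 := by
          apply sum_le_sum_of_subset_of_nonneg
          · intro p hp
            rw [mem_sdiff, mem_pz, mem_pz] at hp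
            rw [mem_Ioc]
            refine ⟨?_, hp.1.1⟩
            by_contra hcon
            exact hp.2 ⟨by omega, hp.1.2⟩
          · intro _ _ _
            positivity
      _ ≤ 1 / (y : ℝ) - 1 / (Z : ℝ) := h1 Z h
      _ ≤ 1 / (y : ℝ) := by
          have : (0 : ℝ) ≤ 1 / (Z : ℝ) := by positivity
          linarith
  · have : pz Z \ pz y = ∅ := by
      rw [sdiff_eq_empty_iff_subset]
      intro p hp
      rw [mem_pz] at hp ⊢
      exact ⟨by omega, hp.2⟩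
    rw [this, sum_empty]
    positivity

/-- few primes above `y` divide a small integer -/
lemma few_primes (y Z : ℕ) (v : ℤ) (hv : v ≠ 0) :
    (y : ℝ) ^ ((pz Z \ pz y).filter (fun p : ℕ => (p : ℤ) ∣ v)).card ≤ |(v : ℝ)| := by
  have hS : ∀ p ∈ (pz Z \ pz y).filter (fun p : ℕ => (p : ℤ) ∣ v), p.Prime ∧ y < p ∧ p ∣ v.natAbs := by
    intro p hp
    rw [mem_filter, mem_sdiff, mem_pz, mem_pz, Int.natCast_dvd] at hp
    refine ⟨hp.1.1.2, ?_, hp.2⟩
    by_contra hcon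
    exact hp.1.2 ⟨by omega, hp.1.1.2⟩
  have h1 : ∏ p ∈ (pz Z \ pz y).filter (fun p : ℕ => (p : ℤ) ∣ v), p ∣ v.natAbs :=
    (Finset.prod_primes_dvd _ (fun p hp => (hS p hp).1.prime) (fun p hp => (hS p hp).2.2))
  have h2 : ∏ p ∈ (pz Z \ pz y).filter (fun p : ℕ => (p : ℤ) ∣ v), p ≤ v.natAbs :=
    Nat.le_of_dvd (Int.natAbs_pos.2 hv) h1
  have h3 : y ^ ((pz Z \ pz y).filter (fun p : ℕ => (p : ℤ) ∣ v)).card ≤ ∏ p ∈ (pz Z \ pz y).filter (fun p : ℕ => (p : ℤ) ∣ v), p := by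
    rw [← prod_const]
    exact prod_le_prod' fun p hp => (hS p hp).2.1.le
  have h4 : ((v.natAbs : ℕ) : ℝ) = |(v : ℝ)| := by rw [Nat.cast_natAbs, Int.cast_abs]
  rw [← h4]
  exact_mod_cast h3.trans h2

end Pool.Agent.T9h23.Cor
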