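import Mathlib
import Pool.Agent.T9h23.Cor.Loc3

/-! The comparison of two sieve models at several points. -/

set_option autoImplicit false

namespace Pool.Agent.T9h23.Cor
open Finset Polynomial
open Pool.Agent.H373R2.T7

open Classical in
lemma del_sum {d : ℕ} (hd : 1 ≤ d) (H y Z : ℕ) (hZ : Z ≤ 2 * H + 1) (hy : 1 ≤ y) (R : Finset ℤ) (m : ℕ) (hR : R.card ≤ m)
    (zf : ℤ → ℕ) (P : ℤ → ℤ) (κ : ℝ) (hκ0 : 0 ≤ κ)
    (hκ : ∀ q ∈ R.offDiag, (((pz Z \ pz y).filter (fun p : ℕ => (p : ℤ) ∣ q.1 - q.2)).card : ℝ) ≤ κ) :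
    ∑ b ∈ Box d H, del H R zf (cb P b) m y Z ≤ (2 * H + 1) ^ d * ((6 * (m : ℝ) ^ 2 + 2 * (m : ℝ) ^ 2 * κ) / y) := by
  have hy0 : (0 : ℝ) < y := by exact_mod_cast hy
  have hoff : ((R.offDiag.card : ℕ) : ℝ) ≤ (m : ℝ) ^ 2 := by
    have h1 : R.offDiag.card ≤ m ^ 2 := by
      rw [offDiag_card]
      calc R.card * R.card - R.card ≤ R.card * R.card := Nat.sub_le _ _
        _ ≤ m * m := Nat.mul_le_mul hR hR
        _ = m ^ 2 := by ring
    exact_mod_cast h1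
  have hmem : ∀ p ∈ pz Z \ pz y, p.Prime ∧ y < p ∧ p ≤ Z := by
    intro p hp
    rw [mem_sdiff, mem_pz, mem_pz] at hp
    refine ⟨hp.1.2, ?_, hp.1.1⟩
    by_contra hcon
    exact hp.2 ⟨by omega, hp.1.2⟩
  obtain ⟨N, hN⟩ : ∃ N : ℝ, N = (2 * H + 1) ^ d := ⟨_, rfl⟩
  have hN0 : 0 ≤ N := by rw [hN]; positivity
  have hBc : ((Box d H).card : ℝ) = N := by rw [card_Box, hN]; push_cast; rfl
  calc ∑ b ∈ Box d H, del H R zf (cb P b) m y Z
      ≤ ∑ b ∈ Box d H, ∑ p ∈ pz Z \ pz y, (2 / (p : ℝ) * (∑ q ∈ R.offDiag, (if (p : ℤ) ∣ cb P b q.1 - cb P b q.2 then (1 : ℝ) else 0)) +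
      2 * (m : ℝ) ^ 2 / (p : ℝ) ^ 2) := sum_le_sum fun b _ => del_le H R zf (cb P b) m y Z
    _ = ∑ p ∈ pz Z \ pz y, (2 / (p : ℝ) * (∑ q ∈ R.offDiag, ∑ b ∈ Box d H, (if (p : ℤ) ∣ cb P b q.1 - cb P b q.2 then (1 : ℝ) else 0)) +
      N * (2 * (m : ℝ) ^ 2 / (p : ℝ) ^ 2)) := by
        rw [sum_comm]
        refine sum_congr rfl fun p _ => ?_
        rw [sum_add_distrib, sum_const, nsmul_eq_mul, hBc, ← mul_sum, sum_comm]
    _ ≤ ∑ p ∈ pz Z \ pz y, (2 / (p : ℝ) * (∑ q ∈ R.offDiag, N * (2 / p + if (p : ℤ) ∣ q.1 - q.2 then 1 else 0)) +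
      N * (2 * (m : ℝ) ^ 2 / (p : ℝ) ^ 2)) := by
        apply sum_le_sum
        intro p hp
        obtain ⟨hpp, _, hpZ⟩ := hmem p hp
        gcongr with q _
        rw [hN]
        exact sum_cong hd H p hpp (hpZ.trans hZ) P q.1 q.2
    _ = N * (∑ p ∈ pz Z \ pz y, (4 * (R.offDiag.card : ℝ) + 2 * (m : ℝ) ^ 2) * (1 / (p : ℝ) ^ 2) +
        ∑ q ∈ R.offDiag, ∑ p ∈ (pz Z \ pz y).filter (fun p : ℕ => (p : ℤ) ∣ q.1 - q.2), 2 / (p : ℝ)) := by
        rw [mul_add, mul_sum, mul_sum]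
        have e1 : ∀ q ∈ R.offDiag, N * ∑ p ∈ (pz Z \ pz y).filter (fun p : ℕ => (p : ℤ) ∣ q.1 - q.2), 2 / (p : ℝ) =
            ∑ p ∈ pz Z \ pz y, 2 / (p : ℝ) * (N * if (p : ℤ) ∣ q.1 - q.2 then 1 else 0) := by
          intro q _
          rw [sum_filter, mul_sum]
          refine sum_congr rfl fun p _ => ?_
          split_ifs <;> ring
        rw [sum_congr rfl e1, sum_comm, ← sum_add_distrib]
        refine sum_congr rfl fun p hp => ?_
        have hp0 : (0 : ℝ) < p := by exact_mod_cast (hmem p hp).1.pos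
        have e2 : ∑ q ∈ R.offDiag, N * (2 / (p : ℝ) + if (p : ℤ) ∣ q.1 - q.2 then 1 else 0) =
            N * ((R.offDiag.card : ℝ) * (2 / p) + ∑ q ∈ R.offDiag, (if (p : ℤ) ∣ q.1 - q.2 then (1 : ℝ) else 0)) := by
          rw [← mul_sum, sum_add_distrib, sum_const, nsmul_eq_mul]
        have e3 : ∑ q ∈ R.offDiag, 2 / (p : ℝ) * (N * if (p : ℤ) ∣ q.1 - q.2 then 1 else 0) =
            2 / (p : ℝ) * (N * ∑ q ∈ R.offDiag, (if (p : ℤ) ∣ q.1 - q.2 then (1 : ℝ) else 0)) := by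
          rw [← mul_sum, ← mul_sum]
        rw [e2, e3]
        field_simp
        ring
    _ ≤ N * ((6 * (m : ℝ) ^ 2) * (1 / y) + (m : ℝ) ^ 2 * (κ * (2 / y))) := by
        apply mul_le_mul_of_nonneg_left _ hN0
        apply add_le_add
        · rw [← mul_sum]
          apply mul_le_mul _ (sum_sq_tail y Z hy) (sum_nonneg fun _ _ => by positivity) (by positivity)
          linarith
        · calc ∑ q ∈ R.offDiag, ∑ p ∈ (pz Z \ pz y).filter (fun p : ℕ => (p : ℤ) ∣ q.1 - q.2), 2 / (p : ℝ)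
              ≤ ∑ q ∈ R.offDiag, κ * (2 / (y : ℝ)) := by
                apply sum_le_sum
                intro q hq
                calc ∑ p ∈ (pz Z \ pz y).filter (fun p : ℕ => (p : ℤ) ∣ q.1 - q.2), 2 / (p : ℝ)
                    ≤ ∑ _p ∈ (pz Z \ pz y).filter (fun p : ℕ => (p : ℤ) ∣ q.1 - q.2), 2 / (y : ℝ) := by
                      apply sum_le_sum
                      intro p hp
                      have h1 := (hmem p (mem_filter.1 hp).1).2.1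
                      have h2 : (y : ℝ) ≤ p := by exact_mod_cast h1.le
                      gcongr
                  _ = (((pz Z \ pz y).filter (fun p : ℕ => (p : ℤ) ∣ q.1 - q.2)).card : ℝ) * (2 / y) := by
                      rw [sum_const, nsmul_eq_mul]
                  _ ≤ κ * (2 / y) := mul_le_mul_of_nonneg_right (hκ q hq) (by positivity)
            _ = (R.offDiag.card : ℝ) * (κ * (2 / y)) := by rw [sum_const, nsmul_eq_mul]
            _ ≤ (m : ℝ) ^ 2 * (κ * (2 / y)) := mul_le_mul_of_nonneg_right hoff (by positivity)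
    _ = _ := by
        rw [hN]
        field_simp

theorem ev_rpow (c e : ℝ) (he : 0 < e) : ∃ N0 : ℕ, ∀ N : ℕ, N0 ≤ N → c ≤ Real.log N ^ e := by
  have hlim : Filter.Tendsto (fun N : ℕ => Real.log (N : ℝ)) Filter.atTop Filter.atTop :=
    Real.tendsto_log_atTop.comp (tendsto_natCast_atTop_atTop (R := ℝ))
  exact Filter.eventually_atTop.1 (((tendsto_rpow_atTop he).comp hlim).eventually_ge_atTop c)

theorem loc (d m A E : ℕ) (hd : 1 ≤ d) (hm : 1 ≤ m) (e e' : ℝ) (he : 0 < e) (he' : 0 < e') : ∃ H0 : ℕ, ∀ H : ℕ, H0 ≤ H → ∀ y : ℕ,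
    Real.log H ^ e ≤ y → (y : ℝ) ≤ Real.log H ^ E → ∀ (T0 : ℕ) (P : ℤ → ℤ), (T0 : ℝ) ≤ Real.log H ^ A →
    ∀ R : Finset ℤ, R.card ≤ m → (∀ t ∈ R, |t| ≤ (T0 : ℤ)) → ∀ zf : ℤ → ℕ, (∀ t ∈ R, y ≤ zf t) → (∀ t ∈ R, (zf t : ℝ) ≤ Real.log H ^ E) →
    |∑ f ∈ Box (d + 1) H, ∏ t ∈ R, lz (zf t) (fv P f t) - ∑ f ∈ Box (d + 1) H, ∏ t ∈ R, lz y (fv P f t)| ≤
      (2 * H + 1) ^ (d + 1) * (Real.log H ^ e' / y) := by
  classical
  obtain ⟨n0, h0⟩ := loc_x m E E hm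
  obtain ⟨n1, h1⟩ := Vz_small E (e' / (2 * (m + 4 * m ^ 2 : ℕ))) (by positivity)
  obtain ⟨n2, h2⟩ := ev_L' 3
  obtain ⟨n3, h3⟩ := ev_rpow (6 * (m : ℝ) ^ 2 + 2 * (m : ℝ) ^ 2 * (((A : ℝ) + 1) / e) + 2) (e' / 2) (by positivity)
  obtain ⟨n4, h4⟩ := ev_rpow (2 * m) e he
  obtain ⟨n5, h5⟩ := ev_log' E 1
  refine ⟨max (max (max n0 n1) (max n2 n3)) (max n4 (max n5 4)), fun H hH y hy1 hy2 T0 P hT0 R hR hRT zf hzf1 hzf2 => ?_⟩
  have hn0 : n0 ≤ H := (((le_max_left _ _).trans (le_max_left _ _)).trans (le_max_left _ _)).trans hH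
  have hn1 : n1 ≤ H := (((le_max_right _ _).trans (le_max_left _ _)).trans (le_max_left _ _)).trans hH
  have hn2 : n2 ≤ H := (((le_max_left _ _).trans (le_max_right _ _)).trans (le_max_left _ _)).trans hH
  have hn3 : n3 ≤ H := (((le_max_right _ _).trans (le_max_right _ _)).trans (le_max_left _ _)).trans hH
  have hn4 : n4 ≤ H := ((le_max_left _ _).trans (le_max_right _ _)).trans hH
  have hn5 : n5 ≤ H := (((le_max_left _ _).trans (le_max_right _ _)).trans (le_max_right _ _)).trans hH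
  have hH4 : 4 ≤ H := (((le_max_right _ _).trans (le_max_right _ _)).trans (le_max_right _ _)).trans hH
  have hHr : (4 : ℝ) ≤ H := by exact_mod_cast hH4
  have hH0 : (0 : ℝ) < H := by linarith
  have hL := h2 H hn2
  have a3 := h3 H hn3
  have a4 := h4 H hn4
  have a5 := h5 H hn5
  obtain ⟨L, hLd⟩ : ∃ L, L = Real.log H := ⟨_, rfl⟩
  obtain ⟨Z, hZd⟩ : ∃ Z : ℕ, Z = ⌊Real.log H ^ E⌋₊ := ⟨_, rfl⟩
  have hLE : 0 ≤ Real.log H ^ E := by rw [← hLd] at hL ⊢; positivity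
  have hZ1 : (Z : ℝ) ≤ Real.log H ^ E := by rw [hZd]; exact Nat.floor_le hLE
  have hyZ : y ≤ Z := by rw [hZd]; exact Nat.le_floor hy2
  have hzZ : ∀ t ∈ R, zf t ≤ Z := fun t ht => by rw [hZd]; exact Nat.le_floor (hzf2 t ht)
  have hmy : 2 * m ≤ y := by
    have : (2 * (m : ℝ)) ≤ y := a4.trans hy1
    exact_mod_cast this
  have hy0 : 1 ≤ y := by omega
  have hyr : (0 : ℝ) < y := by exact_mod_cast hy0
  have hZH : Z ≤ 2 * H + 1 := by
    have : (Z : ℝ) ≤ 2 * H + 1 := by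
      have h6 : √(H : ℝ) ≤ H := by
        rw [Real.sqrt_le_left hH0.le]; nlinarith
      have h7 : Real.log H ^ E ≤ √(H : ℝ) := by simpa using a5
      linarith
    exact_mod_cast this
  have hV := h1 H hn1 Z (by omega) hZ1
  have hV1 : 1 ≤ (Vz Z)⁻¹ := (one_le_inv₀ (Vz_pos _)).2 (Vz_le_one Z)
  have hL0 : 0 < Real.log H := by linarith
  have hL1 : 1 ≤ Real.log H := by linarith
  have hVm : (Vz Z)⁻¹ ^ (m + 4 * m ^ 2) ≤ Real.log H ^ (e' / 2) := by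
    calc (Vz Z)⁻¹ ^ (m + 4 * m ^ 2) ≤ (Real.log H ^ (e' / (2 * (m + 4 * m ^ 2 : ℕ)))) ^ (m + 4 * m ^ 2) :=
          pow_le_pow_left₀ (by linarith) hV _
      _ = Real.log H ^ (e' / 2) := by
          rw [← Real.rpow_natCast, ← Real.rpow_mul hL0.le]
          congr 1
          have hmm : (((m + 4 * m ^ 2 : ℕ)) : ℝ) ≠ 0 := by
            have : 0 < m + 4 * m ^ 2 := by positivity
            exact_mod_cast this.ne'
          field_simp
  have hVm' : (Vz Z)⁻¹ ^ m ≤ Real.log H ^ (e' / 2) := (pow_le_pow_right₀ hV1 (by omega)).trans hVm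
  -- the number of primes
  have hκ : ∀ q ∈ R.offDiag, (((pz Z \ pz y).filter (fun p : ℕ => (p : ℤ) ∣ q.1 - q.2)).card : ℝ) ≤ ((A : ℝ) + 1) / e := by
    intro q hq
    rw [mem_offDiag] at hq
    have hne : q.1 - q.2 ≠ 0 := sub_ne_zero.2 hq.2.2
    have h6 := few_primes y Z (q.1 - q.2) hne
    have h7 : |((q.1 - q.2 : ℤ) : ℝ)| ≤ Real.log H ^ ((A : ℝ) + 1) := by
      have h8 : |((q.1 - q.2 : ℤ) : ℝ)| ≤ 2 * T0 := by
        have h9 := abs_sub q.1 q.2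
        have h10 := hRT _ hq.1
        have h11 := hRT _ hq.2.1
        have h12 : |q.1 - q.2| ≤ 2 * (T0 : ℤ) := by linarith
        exact_mod_cast h12
      calc |((q.1 - q.2 : ℤ) : ℝ)| ≤ 2 * T0 := h8
        _ ≤ Real.log H * Real.log H ^ A := by
            apply mul_le_mul (by linarith) hT0 (Nat.cast_nonneg _) hL0.le
        _ = Real.log H ^ ((A : ℝ) + 1) := by
            rw [Real.rpow_add hL0, Real.rpow_natCast, Real.rpow_one]
            ring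
    obtain ⟨n, hn⟩ : ∃ n : ℕ, n = ((pz Z \ pz y).filter (fun p : ℕ => (p : ℤ) ∣ q.1 - q.2)).card := ⟨_, rfl⟩
    rw [← hn] at h6 ⊢
    have h8 : Real.log H ^ (e * n) ≤ Real.log H ^ ((A : ℝ) + 1) := by
      calc Real.log H ^ (e * n) = (Real.log H ^ e) ^ n := by rw [Real.rpow_mul hL0.le, Real.rpow_natCast]
        _ ≤ (y : ℝ) ^ n := pow_le_pow_left₀ (by positivity) hy1 _
        _ ≤ _ := h6.trans h7
    have h9 : e * n ≤ (A : ℝ) + 1 := (Real.rpow_le_rpow_left_iff (by linarith)).1 h8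
    rw [le_div_iff₀ he]
    linarith
  have hdel := del_sum hd H y Z hZH hy0 R m hR zf P (((A : ℝ) + 1) / e) (by positivity) hκ
  -- the sum over the constant term
  rw [sum_Box_insert H 0, sum_Box_insert H 0, ← sum_sub_distrib]
  have hx : ∀ b ∈ Box d H, |∑ x ∈ Icc (-(H : ℤ)) H, ∏ t ∈ R, lz (zf t) (fv P ((0 : Fin (d + 1)).insertNth x b) t) -
      ∑ x ∈ Icc (-(H : ℤ)) H, ∏ t ∈ R, lz y (fv P ((0 : Fin (d + 1)).insertNth x b) t)| ≤
      2 * ((Vz Z)⁻¹ ^ m * ((2 * H + 1) / Real.log H ^ E)) +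
      (2 * H + 1) * ((Vz Z)⁻¹ ^ (m + 4 * m ^ 2) * del H R zf (cb P b) m y Z) := by
    intro b _
    simp only [fv_insert]
    exact h0 H hn0 y Z hmy hyZ hZ1 R hR zf hzf1 hzZ (cb P b)
  refine (abs_sum_le_sum_abs _ _).trans ((sum_le_sum hx).trans ?_)
  rw [sum_add_distrib, sum_const, nsmul_eq_mul, card_Box, ← mul_sum, ← mul_sum]
  push_cast
  have hLEy : (1 : ℝ) / Real.log H ^ E ≤ 1 / y := one_div_le_one_div_of_le hyr hy2
  obtain ⟨N, hN⟩ : ∃ N : ℝ, N = (2 * H + 1) ^ d := ⟨_, rfl⟩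
  have hN0 : 0 ≤ N := by rw [hN]; positivity
  rw [← hN] at hdel
  rw [pow_succ (2 * (H : ℝ) + 1) d, ← hN]
  have e6 : (0 : ℝ) ≤ Real.log H ^ (e' / 2) := by positivity
  have e7 : Real.log H ^ (e' / 2) * Real.log H ^ (e' / 2) = Real.log H ^ e' := by
    rw [← Real.rpow_add hL0]; congr 1; ring
  have hV0 : 0 ≤ (Vz Z)⁻¹ := by linarith
  calc N * (2 * ((Vz Z)⁻¹ ^ m * ((2 * H + 1) / Real.log H ^ E))) +
        (2 * H + 1) * ((Vz Z)⁻¹ ^ (m + 4 * m ^ 2) * ∑ b ∈ Box d H, del H R zf (cb P b) m y Z)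
      ≤ N * (2 * (Real.log H ^ (e' / 2) * ((2 * H + 1) * (1 / y)))) +
        (2 * H + 1) * (Real.log H ^ (e' / 2) * (N * ((6 * (m : ℝ) ^ 2 + 2 * (m : ℝ) ^ 2 * (((A : ℝ) + 1) / e)) / y))) := by
        apply add_le_add
        · rw [div_eq_mul_one_div (2 * (H : ℝ) + 1)]
          gcongr
        · gcongr
          exact sum_nonneg fun b _ => del_nonneg _ _ _ _ _ _ _
    _ = N * (2 * H + 1) * (Real.log H ^ (e' / 2) * (6 * (m : ℝ) ^ 2 + 2 * (m : ℝ) ^ 2 * (((A : ℝ) + 1) / e) + 2) / y) := by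
        field_simp
        ring
    _ ≤ N * (2 * H + 1) * (Real.log H ^ (e' / 2) * Real.log H ^ (e' / 2) / y) := by gcongr
    _ = _ := by rw [e7]

end Pool.Agent.T9h23.Cor
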