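import Mathlib
import Pool.Agent.T9h23.Cor.Loc4

/-! Correlations at up to `2 d + 1` points: all weights may be replaced by the small sieve model. -/

set_option autoImplicit false

namespace Pool.Agent.T9h23.Cor
open Finset Polynomial
open Pool.Agent.H373R2.T7

/-- the weights: the von Mangoldt function and the sieve models of levels between `y` and `(log H)^E` -/
def Wt (H E y : ℕ) (w : ℤ → ℝ) : Prop := w = Lam ∨ ∃ z : ℕ, y ≤ z ∧ (z : ℝ) ≤ Real.log H ^ E ∧ w = lz z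

lemma Wt.nonneg {H E y : ℕ} {w : ℤ → ℝ} (h : Wt H E y w) (u : ℤ) : 0 ≤ w u := by
  rcases h with rfl | ⟨z, _, _, rfl⟩
  · exact Lam_nonneg u
  · exact lz_nonneg z u

lemma Wt_lz {H E y : ℕ} (hy : (y : ℝ) ≤ Real.log H ^ E) : Wt H E y (lz y) := Or.inr ⟨y, le_rfl, hy, rfl⟩

theorem Wt_le (E : ℕ) : ∃ H0 : ℕ, ∀ H : ℕ, H0 ≤ H → ∀ y : ℕ, 1 ≤ y → ∀ w : ℤ → ℝ, Wt H E y w → ∀ u : ℤ, |u| ≤ (H : ℤ) ^ 2 →
    w u ≤ 2 * Real.log H := by
  obtain ⟨N1, h1⟩ := Vz_inv_small E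
  refine ⟨max N1 4, fun H hH y hy w hw u hu => ?_⟩
  have hN1 : N1 ≤ H := (le_max_left _ _).trans hH
  have hH4 : 4 ≤ H := (le_max_right _ _).trans hH
  have hl : 0 ≤ Real.log H := Real.log_natCast_nonneg H
  rcases hw with rfl | ⟨z, hz1, hz2, rfl⟩
  · exact (le_abs_self _).trans (Lam_le2 hH4 u hu)
  · have := (lz_le z u).trans (h1 H hN1 z (by omega) hz2)
    linarith

theorem corr_all (d A E : ℕ) (hd : 1 ≤ d) (e e' : ℝ) (he : 0 < e) (he' : 0 < e') : ∃ H0 : ℕ, ∀ H : ℕ, H0 ≤ H → ∀ y : ℕ,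
    Real.log H ^ e ≤ y → (y : ℝ) ≤ Real.log H ^ E → ∀ (T0 : ℕ) (P : ℤ → ℤ), (T0 : ℝ) ≤ Real.log H ^ A →
    (∀ t : ℤ, |t| ≤ T0 → |(P t : ℝ)| ≤ H * Real.log H ^ A) →
    ∀ R : Finset ℤ, R.card ≤ 2 * d + 1 → (∀ t ∈ R, |t| ≤ (T0 : ℤ)) → ∀ W : ℤ → ℤ → ℝ, (∀ t ∈ R, Wt H E y (W t)) →
    |∑ f ∈ Box (d + 1) H, ∏ t ∈ R, W t (fv P f t) - ∑ f ∈ Box (d + 1) H, ∏ t ∈ R, lz y (fv P f t)| ≤
      (2 * H + 1) ^ (d + 1) * (Real.log H ^ e' / y) := by
  classical
  obtain ⟨E0, hE⟩ := rep d A 1 E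
  obtain ⟨E1, hE1⟩ : ∃ E1, E1 = max E E0 + 1 := ⟨_, rfl⟩
  obtain ⟨n0, h0⟩ := hE E1
  obtain ⟨n1, h1⟩ := loc d (2 * d + 1) A E1 hd (by omega) e (e' / 2) he (by positivity)
  obtain ⟨n2, h2⟩ := ev_L' 4
  obtain ⟨n3, h3⟩ := ev_rpow 2 (e' / 2) (by positivity)
  obtain ⟨n4, h4⟩ := Vz_inv_small E
  refine ⟨max (max (max n0 n1) (max n2 n3)) (max n4 4), fun H hH y hy1 hy2 T0 P hT0 hP R hR hRT W hW => ?_⟩
  have hn0 : n0 ≤ H := (((le_max_left _ _).trans (le_max_left _ _)).trans (le_max_left _ _)).trans hH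
  have hn1 : n1 ≤ H := (((le_max_right _ _).trans (le_max_left _ _)).trans (le_max_left _ _)).trans hH
  have hn2 : n2 ≤ H := (((le_max_left _ _).trans (le_max_right _ _)).trans (le_max_left _ _)).trans hH
  have hn3 : n3 ≤ H := (((le_max_right _ _).trans (le_max_right _ _)).trans (le_max_left _ _)).trans hH
  have hn4 : n4 ≤ H := ((le_max_left _ _).trans (le_max_right _ _)).trans hH
  have hH4 : 4 ≤ H := ((le_max_right _ _).trans (le_max_right _ _)).trans hH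
  have hL := h2 H hn2
  have a3 := h3 H hn3
  have a4 := h4 H hn4
  have hL0 : 0 < Real.log H := by linarith
  have hL1 : 1 ≤ Real.log H := by linarith
  have hLe : 1 ≤ Real.log H ^ e := Real.one_le_rpow hL1 he.le
  have hy0 : (1 : ℝ) ≤ y := hLe.trans hy1
  have hyn : 1 ≤ y := by exact_mod_cast hy0
  -- the large level
  obtain ⟨z1, hz1⟩ : ∃ z1 : ℕ, z1 = ⌊Real.log H ^ E1⌋₊ := ⟨_, rfl⟩
  have hz1a : (z1 : ℝ) ≤ Real.log H ^ E1 := by rw [hz1]; exact Nat.floor_le (by positivity)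
  have hz1b : Real.log H ^ (max E E0) ≤ z1 := by
    have h5 : Real.log H ^ E1 < z1 + 1 := by rw [hz1]; exact Nat.lt_floor_add_one _
    have h6 : Real.log H ^ E1 = Real.log H ^ (max E E0) * Real.log H := by rw [hE1, pow_succ]
    have h7 : 1 ≤ Real.log H ^ (max E E0) := one_le_pow₀ hL1
    nlinarith
  have hz1c : Real.log H ^ E0 ≤ z1 := (pow_le_pow_right₀ hL1 (le_max_right _ _)).trans hz1b
  have hz1d : Real.log H ^ E ≤ z1 := (pow_le_pow_right₀ hL1 (le_max_left _ _)).trans hz1b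
  have hyz1 : y ≤ z1 := by exact_mod_cast hy2.trans hz1d
  have hEE1 : Real.log H ^ E ≤ Real.log H ^ E1 := pow_le_pow_right₀ hL1 (by omega)
  -- the points
  obtain ⟨R1, hR1⟩ : ∃ R1, R1 = R.filter (fun t => W t = Lam) := ⟨_, rfl⟩
  obtain ⟨R2, hR2⟩ : ∃ R2, R2 = R.filter (fun t => ¬ W t = Lam) := ⟨_, rfl⟩
  have hR2w : ∀ t ∈ R2, ∃ z : ℕ, y ≤ z ∧ (z : ℝ) ≤ Real.log H ^ E ∧ W t = lz z := by
    intro t ht
    rw [hR2, mem_filter] at ht
    rcases hW t ht.1 with h | h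
    · exact absurd h ht.2
    · exact h
  choose! zf hzf1 hzf2 hzf3 using hR2w
  have hspl : ∀ g : ℤ → ℝ, ∏ t ∈ R, g t = (∏ t ∈ R1, g t) * ∏ t ∈ R2, g t := by
    intro g
    rw [hR1, hR2, prod_filter_mul_prod_filter_not]
  have hdis : Disjoint R1 R2 := by
    rw [hR1, hR2]
    exact disjoint_filter_filter_not _ _ _
  have hcard : R1.card + R2.card = R.card := by
    rw [hR1, hR2, card_filter_add_card_filter_not]
  have hR1s : ∀ t ∈ R1, t ∈ R := fun t ht => by rw [hR1] at ht; exact (mem_filter.1 ht).1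
  have hR2s : ∀ t ∈ R2, t ∈ R := fun t ht => by rw [hR2] at ht; exact (mem_filter.1 ht).1
  have b1 := h0 H hn0 z1 hz1c hz1a T0 P hT0 hP R1 R2 hdis (by omega) (fun t ht => hRT t (hR1s t ht)) (fun t ht => hRT t (hR2s t ht)) W
    (fun t ht u _ => by
      rw [hzf3 t ht, abs_of_nonneg (lz_nonneg _ _), pow_one]
      exact (lz_le _ _).trans (a4 (zf t) (hyn.trans (hzf1 t ht)) (hzf2 t ht)))
  have e1 : ∀ f ∈ Box (d + 1) H, (∏ t ∈ R1, Lam (fv P f t)) * ∏ t ∈ R2, W t (fv P f t) = ∏ t ∈ R, W t (fv P f t) := by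
    intro f _
    rw [hspl]
    congr 1
    refine prod_congr rfl fun t ht => ?_
    rw [hR1, mem_filter] at ht
    rw [ht.2]
  have e2 : ∀ f ∈ Box (d + 1) H, (∏ t ∈ R1, lz z1 (fv P f t)) * ∏ t ∈ R2, W t (fv P f t) =
      ∏ t ∈ R, lz (if t ∈ R1 then z1 else zf t) (fv P f t) := by
    intro f _
    rw [hspl]
    congr 1
    · refine prod_congr rfl fun t ht => ?_
      rw [if_pos ht]
    · refine prod_congr rfl fun t ht => ?_
      rw [if_neg (fun h => disjoint_left.1 hdis h ht), hzf3 t ht]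
  rw [sum_congr rfl e1, sum_congr rfl e2] at b1
  have hmem : ∀ t ∈ R, t ∉ R1 → t ∈ R2 := by
    intro t ht h
    rw [hR2, mem_filter]
    refine ⟨ht, fun h' => h ?_⟩
    rw [hR1, mem_filter]
    exact ⟨ht, h'⟩
  have b2 := h1 H hn1 y hy1 (hy2.trans hEE1) T0 P hT0 R hR hRT (fun t => if t ∈ R1 then z1 else zf t)
    (fun t ht => by
      by_cases h : t ∈ R1
      · simp only [h, if_true]; exact hyz1
      · simp only [h, if_false]; exact hzf1 t (hmem t ht h))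
    (fun t ht => by
      by_cases h : t ∈ R1
      · simp only [h, if_true]; exact hz1a
      · simp only [h, if_false]; exact (hzf2 t (hmem t ht h)).trans hEE1)
  refine (abs_sub_le _ _ _).trans ((add_le_add b1 b2).trans ?_)
  have hNp : (0 : ℝ) < (2 * H + 1) ^ (d + 1) := by positivity
  have e7 : Real.log H ^ (e' / 2) * Real.log H ^ (e' / 2) = Real.log H ^ e' := by
    rw [← Real.rpow_add hL0]; congr 1; ring
  have hE2 : 1 / Real.log H ^ E ≤ 1 / y := one_div_le_one_div_of_le (by linarith) hy2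
  calc (2 * (H : ℝ) + 1) ^ (d + 1) / Real.log H ^ E + (2 * H + 1) ^ (d + 1) * (Real.log H ^ (e' / 2) / y)
      = (2 * (H : ℝ) + 1) ^ (d + 1) * (1 / Real.log H ^ E + Real.log H ^ (e' / 2) / y) := by ring
    _ ≤ (2 * (H : ℝ) + 1) ^ (d + 1) * (1 / y + Real.log H ^ (e' / 2) / y) := by gcongr
    _ = (2 * (H : ℝ) + 1) ^ (d + 1) * ((1 + Real.log H ^ (e' / 2)) / y) := by ring
    _ ≤ (2 * (H : ℝ) + 1) ^ (d + 1) * (Real.log H ^ e' / y) := by
        gcongr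
        rw [← e7]
        nlinarith

/-- the mean of a product of weights, some of them squared, is small -/
theorem corr_upper (d A E : ℕ) (hd : 1 ≤ d) (e e' : ℝ) (he : 0 < e) (he' : 0 < e') : ∃ H0 : ℕ, ∀ H : ℕ, H0 ≤ H → ∀ y : ℕ,
    Real.log H ^ e ≤ y → (y : ℝ) ≤ Real.log H ^ E → ∀ (T0 : ℕ) (P : ℤ → ℤ), (T0 : ℝ) ≤ Real.log H ^ A →
    (∀ t : ℤ, |t| ≤ T0 → |(P t : ℝ)| ≤ H * Real.log H ^ A) →
    ∀ R : Finset ℤ, R.card ≤ 2 * d + 1 → (∀ t ∈ R, |t| ≤ (T0 : ℤ)) → ∀ W : ℤ → ℤ → ℝ, (∀ t ∈ R, Wt H E y (W t)) →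
    ∀ R' : Finset ℤ, R' ⊆ R →
    ∑ f ∈ Box (d + 1) H, (∏ t ∈ R, W t (fv P f t)) * ∏ t ∈ R', W t (fv P f t) ≤
      (2 * H + 1) ^ (d + 1) * ((2 * Real.log H) ^ R'.card * Real.log H ^ e') := by
  obtain ⟨n0, h0⟩ := corr_all d A E hd e (e' / 2) he (by positivity)
  obtain ⟨n1, h1⟩ := Vz_small E (e' / (2 * (2 * d + 1 : ℕ))) (by positivity)
  obtain ⟨n2, h2⟩ := ev_L' (2 * d + 3)
  obtain ⟨n3, h3⟩ := ev_rpow 2 (e' / 2) (by positivity)
  obtain ⟨n4, h4⟩ := Wt_le E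
  obtain ⟨n5, h5⟩ := ev_log' (A * d + A + 1) 1
  refine ⟨max (max (max n0 n1) (max n2 n3)) (max (max n4 n5) 4), fun H hH y hy1 hy2 T0 P hT0 hP R hR hRT W hW R' hR' => ?_⟩
  have hn0 : n0 ≤ H := (((le_max_left _ _).trans (le_max_left _ _)).trans (le_max_left _ _)).trans hH
  have hn1 : n1 ≤ H := (((le_max_right _ _).trans (le_max_left _ _)).trans (le_max_left _ _)).trans hH
  have hn2 : n2 ≤ H := (((le_max_left _ _).trans (le_max_right _ _)).trans (le_max_left _ _)).trans hH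
  have hn3 : n3 ≤ H := (((le_max_right _ _).trans (le_max_right _ _)).trans (le_max_left _ _)).trans hH
  have hn4 : n4 ≤ H := (((le_max_left _ _).trans (le_max_left _ _)).trans (le_max_right _ _)).trans hH
  have hn5 : n5 ≤ H := (((le_max_right _ _).trans (le_max_left _ _)).trans (le_max_right _ _)).trans hH
  have hH4 : 4 ≤ H := ((le_max_right _ _).trans (le_max_right _ _)).trans hH
  have hHr : (4 : ℝ) ≤ H := by exact_mod_cast hH4
  have hL := h2 H hn2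
  have a3 := h3 H hn3
  have a5 := h5 H hn5
  have hd0 : (0 : ℝ) ≤ d := Nat.cast_nonneg d
  have hL0 : 0 < Real.log H := by linarith
  have hL1 : 1 ≤ Real.log H := by linarith
  have hLe : 1 ≤ Real.log H ^ e := Real.one_le_rpow hL1 he.le
  have hy0 : (1 : ℝ) ≤ y := hLe.trans hy1
  have hyn : 1 ≤ y := by exact_mod_cast hy0
  have hval : ∀ f ∈ Box (d + 1) H, ∀ t ∈ R, |fv P f t| ≤ (H : ℤ) ^ 2 := by
    intro f hf t ht
    rw [mem_Box] at hf
    have h6 := fv_le H (Real.log H) A hL T0 hT0 P hP f (fun i => (hf i).trans (by have : (0 : ℤ) ≤ H := by positivity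
                                                                                  linarith)) t (hRT t ht)
    have h7 : √(H : ℝ) ≤ H := by
      rw [Real.sqrt_le_left (by linarith)]; nlinarith
    have h8 : ((|fv P f t| : ℤ) : ℝ) ≤ (((H : ℤ) ^ 2 : ℤ) : ℝ) := by
      push_cast
      calc |((fv P f t : ℤ) : ℝ)| ≤ H * Real.log H ^ (A * d + A + 1) := h6
        _ ≤ H * H := by
            apply mul_le_mul_of_nonneg_left _ (by linarith)
            linarith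
        _ = (H : ℝ) ^ 2 := by ring
    exact_mod_cast h8
  have hV := h1 H hn1 y hyn hy2
  have hV1 : 1 ≤ (Vz y)⁻¹ := (one_le_inv₀ (Vz_pos _)).2 (Vz_le_one y)
  have hNp : (0 : ℝ) < (2 * H + 1) ^ (d + 1) := by positivity
  -- the mean of the small models
  have hm : ∑ f ∈ Box (d + 1) H, ∏ t ∈ R, lz y (fv P f t) ≤ (2 * H + 1) ^ (d + 1) * Real.log H ^ (e' / 2) := by
    calc ∑ f ∈ Box (d + 1) H, ∏ t ∈ R, lz y (fv P f t) ≤ ∑ _f ∈ Box (d + 1) H, Real.log H ^ (e' / 2) := by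
          apply sum_le_sum
          intro f _
          calc ∏ t ∈ R, lz y (fv P f t) ≤ ∏ _t ∈ R, (Vz y)⁻¹ := prod_le_prod (fun t _ => lz_nonneg _ _) fun t _ => lz_le _ _
            _ = (Vz y)⁻¹ ^ R.card := by rw [prod_const]
            _ ≤ (Vz y)⁻¹ ^ (2 * d + 1) := pow_le_pow_right₀ hV1 hR
            _ ≤ (Real.log H ^ (e' / (2 * (2 * d + 1 : ℕ)))) ^ (2 * d + 1) := pow_le_pow_left₀ (by linarith) hV _
            _ = Real.log H ^ (e' / 2) := by
                rw [← Real.rpow_natCast, ← Real.rpow_mul hL0.le]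
                congr 1
                have hmm : (((2 * d + 1 : ℕ)) : ℝ) ≠ 0 := by positivity
                field_simp
      _ = _ := by
          rw [sum_const, nsmul_eq_mul, card_Box]
          push_cast
          ring
  have hb := (abs_le.1 (h0 H hn0 y hy1 hy2 T0 P hT0 hP R hR hRT W hW)).2
  have e7 : Real.log H ^ (e' / 2) * Real.log H ^ (e' / 2) = Real.log H ^ e' := by
    rw [← Real.rpow_add hL0]; congr 1; ring
  have hLe2 : 0 ≤ Real.log H ^ (e' / 2) := by positivity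
  have hW1 : ∑ f ∈ Box (d + 1) H, ∏ t ∈ R, W t (fv P f t) ≤ (2 * H + 1) ^ (d + 1) * Real.log H ^ e' := by
    have h9 : Real.log H ^ (e' / 2) / y ≤ Real.log H ^ (e' / 2) := div_le_self hLe2 hy0
    calc ∑ f ∈ Box (d + 1) H, ∏ t ∈ R, W t (fv P f t)
        ≤ (2 * H + 1) ^ (d + 1) * Real.log H ^ (e' / 2) + (2 * H + 1) ^ (d + 1) * (Real.log H ^ (e' / 2) / y) := by linarith
      _ ≤ (2 * H + 1) ^ (d + 1) * Real.log H ^ (e' / 2) + (2 * H + 1) ^ (d + 1) * Real.log H ^ (e' / 2) := by gcongr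
      _ = (2 * H + 1) ^ (d + 1) * (2 * Real.log H ^ (e' / 2)) := by ring
      _ ≤ (2 * H + 1) ^ (d + 1) * (Real.log H ^ (e' / 2) * Real.log H ^ (e' / 2)) := by gcongr
      _ = _ := by rw [e7]
  calc ∑ f ∈ Box (d + 1) H, (∏ t ∈ R, W t (fv P f t)) * ∏ t ∈ R', W t (fv P f t)
      ≤ ∑ f ∈ Box (d + 1) H, (∏ t ∈ R, W t (fv P f t)) * (2 * Real.log H) ^ R'.card := by
        apply sum_le_sum
        intro f hf
        apply mul_le_mul_of_nonneg_left _ (prod_nonneg fun t ht => (hW t ht).nonneg _)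
        calc ∏ t ∈ R', W t (fv P f t) ≤ ∏ _t ∈ R', (2 * Real.log H) :=
              prod_le_prod (fun t ht => (hW t (hR' ht)).nonneg _) fun t ht =>
                h4 H hn4 y hyn (W t) (hW t (hR' ht)) _ (hval f hf t (hR' ht))
          _ = _ := by rw [prod_const]
    _ = (∑ f ∈ Box (d + 1) H, ∏ t ∈ R, W t (fv P f t)) * (2 * Real.log H) ^ R'.card := by rw [sum_mul]
    _ ≤ ((2 * H + 1) ^ (d + 1) * Real.log H ^ e') * (2 * Real.log H) ^ R'.card := by gcongr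
    _ = _ := by ring

end Pool.Agent.T9h23.Cor
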