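import Mathlib
import Pool.Agent.T9h23.Cor.All

/-! Second moments for systems of independent random polynomials. -/

set_option autoImplicit false

namespace Pool.Agent.T9h23.Cor
open Finset Polynomial
open Pool.Agent.H373R2.T7

/-- the box of the coefficients of `r` polynomials -/
noncomputable def Om {r : ℕ} (dd : Fin r → ℕ) (H : ℕ) : Finset ((j : Fin r) → (Fin (dd j + 1) → ℤ)) :=
  Fintype.piFinset (fun j => Box (dd j + 1) H)

/-- the product of the weights of the values at the points of `T` -/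
noncomputable def MM {r : ℕ} {dd : Fin r → ℕ} (w : ℤ → ℝ) (P : Fin r → ℤ → ℤ) (f : (j : Fin r) → (Fin (dd j + 1) → ℤ))
    (T : Fin r → Finset ℤ) : ℝ := ∏ j, ∏ t ∈ T j, w (fv (P j) (f j) t)

/-- the number of systems -/
noncomputable def NN {r : ℕ} (dd : Fin r → ℕ) (H : ℕ) : ℝ := ∏ j, (2 * (H : ℝ) + 1) ^ (dd j + 1)

lemma NN_pos {r : ℕ} (dd : Fin r → ℕ) (H : ℕ) : 0 < NN dd H := prod_pos fun _ _ => by positivity

lemma card_Om {r : ℕ} (dd : Fin r → ℕ) (H : ℕ) : ((Om dd H).card : ℝ) = NN dd H := by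
  unfold Om NN
  rw [Fintype.card_piFinset]
  push_cast
  refine prod_congr rfl fun j _ => ?_
  rw [card_Box]
  push_cast
  rfl

lemma sum_Om {r : ℕ} (dd : Fin r → ℕ) (H : ℕ) (Φ : (j : Fin r) → (Fin (dd j + 1) → ℤ) → ℝ) :
    ∑ f ∈ Om dd H, ∏ j, Φ j (f j) = ∏ j, ∑ g ∈ Box (dd j + 1) H, Φ j g := by
  unfold Om
  rw [Finset.prod_univ_sum]

lemma MM_nonneg {r : ℕ} {dd : Fin r → ℕ} {w : ℤ → ℝ} (hw : ∀ u, 0 ≤ w u) (P : Fin r → ℤ → ℤ)
    (f : (j : Fin r) → (Fin (dd j + 1) → ℤ)) (T : Fin r → Finset ℤ) : 0 ≤ MM w P f T :=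
  prod_nonneg fun _ _ => prod_nonneg fun _ _ => hw _

lemma prod_diff {ι : Type*} [DecidableEq ι] (s : Finset ι) (x c N : ι → ℝ) (B η : ℝ) (hB : 1 ≤ B) (hη : 0 ≤ η) (hN : ∀ j ∈ s, 0 ≤ N j)
    (hx : ∀ j ∈ s, |x j| ≤ N j * B) (hc : ∀ j ∈ s, |c j| ≤ N j * B) (hxc : ∀ j ∈ s, |x j - c j| ≤ N j * η) :
    |∏ j ∈ s, x j - ∏ j ∈ s, c j| ≤ (∏ j ∈ s, N j) * (s.card * η * B ^ s.card) := by
  induction s using Finset.induction_on with
  | empty => simp
  | insert a s ha ih =>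
    have ih' := ih (fun j hj => hN j (mem_insert_of_mem hj)) (fun j hj => hx j (mem_insert_of_mem hj))
      (fun j hj => hc j (mem_insert_of_mem hj)) (fun j hj => hxc j (mem_insert_of_mem hj))
    have hNs : 0 ≤ ∏ j ∈ s, N j := prod_nonneg fun j hj => hN j (mem_insert_of_mem hj)
    have hNa : 0 ≤ N a := hN a (mem_insert_self _ _)
    rw [prod_insert ha, prod_insert ha, prod_insert ha, card_insert_of_notMem ha]
    have e : x a * ∏ j ∈ s, x j - c a * ∏ j ∈ s, c j = (x a - c a) * ∏ j ∈ s, x j + c a * (∏ j ∈ s, x j - ∏ j ∈ s, c j) := by ring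
    have h1 : |∏ j ∈ s, x j| ≤ (∏ j ∈ s, N j) * B ^ s.card := by
      rw [abs_prod]
      calc ∏ j ∈ s, |x j| ≤ ∏ j ∈ s, (N j * B) := prod_le_prod (fun _ _ => abs_nonneg _) fun j hj => hx j (mem_insert_of_mem hj)
        _ = _ := by rw [prod_mul_distrib, prod_const]
    rw [e]
    refine (abs_add_le _ _).trans ?_
    rw [abs_mul, abs_mul]
    have hBs : 1 ≤ B ^ s.card := one_le_pow₀ hB
    calc |x a - c a| * |∏ j ∈ s, x j| + |c a| * |∏ j ∈ s, x j - ∏ j ∈ s, c j|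
        ≤ (N a * η) * ((∏ j ∈ s, N j) * B ^ s.card) + (N a * B) * ((∏ j ∈ s, N j) * (s.card * η * B ^ s.card)) := by
          apply add_le_add
          · exact mul_le_mul (hxc a (mem_insert_self _ _)) h1 (abs_nonneg _) (by positivity)
          · exact mul_le_mul (hc a (mem_insert_self _ _)) ih' (abs_nonneg _) (by positivity)
      _ = (N a * ∏ j ∈ s, N j) * (η * (B ^ s.card * 1) + s.card * η * (B ^ s.card * B)) := by ring
      _ ≤ (N a * ∏ j ∈ s, N j) * (η * (B ^ s.card * B) + s.card * η * (B ^ s.card * B)) := by gcongr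
      _ = _ := by
          push_cast
          rw [pow_succ]
          ring

theorem pair_disj (r : ℕ) (dd : Fin r → ℕ) (A E : ℕ) (hdd : ∀ j, 1 ≤ dd j) (e e' : ℝ) (he : 0 < e) (he' : 0 < e') :
    ∃ H0 : ℕ, ∀ H : ℕ, H0 ≤ H → ∀ y : ℕ,
    Real.log H ^ e ≤ y → (y : ℝ) ≤ Real.log H ^ E → ∀ (T0 : ℕ) (P : Fin r → ℤ → ℤ), (T0 : ℝ) ≤ Real.log H ^ A →
    (∀ j, ∀ t : ℤ, |t| ≤ T0 → |(P j t : ℝ)| ≤ H * Real.log H ^ A) →
    ∀ T T' : Fin r → Finset ℤ, (∀ j, (T j).card ≤ dd j) → (∀ j, (T' j).card ≤ dd j) →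
    (∀ j, ∀ t ∈ T j, |t| ≤ (T0 : ℤ)) → (∀ j, ∀ t ∈ T' j, |t| ≤ (T0 : ℤ)) → (∀ j, Disjoint (T j) (T' j)) →
    ∀ w : ℤ → ℝ, Wt H E y w →
    |∑ f ∈ Om dd H, (MM w P f T - MM (lz y) P f T) * (MM w P f T' - MM (lz y) P f T')| ≤
      NN dd H * (Real.log H ^ e' / y) := by
  classical
  obtain ⟨e2, he2⟩ : ∃ e2 : ℝ, e2 = e' / (2 * (r + 1)) := ⟨_, rfl⟩
  have he20 : 0 < e2 := by rw [he2]; positivity
  have hall : ∃ H0 : ℕ, ∀ H : ℕ, H0 ≤ H → ∀ j, ∀ y : ℕ,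
    Real.log H ^ e ≤ y → (y : ℝ) ≤ Real.log H ^ E → ∀ (T0 : ℕ) (P : ℤ → ℤ), (T0 : ℝ) ≤ Real.log H ^ A →
    (∀ t : ℤ, |t| ≤ T0 → |(P t : ℝ)| ≤ H * Real.log H ^ A) →
    ∀ R : Finset ℤ, R.card ≤ 2 * dd j + 1 → (∀ t ∈ R, |t| ≤ (T0 : ℤ)) → ∀ W : ℤ → ℤ → ℝ, (∀ t ∈ R, Wt H E y (W t)) →
    |∑ f ∈ Box (dd j + 1) H, ∏ t ∈ R, W t (fv P f t) - ∑ f ∈ Box (dd j + 1) H, ∏ t ∈ R, lz y (fv P f t)| ≤
      (2 * H + 1) ^ (dd j + 1) * (Real.log H ^ e2 / y) ∧
    (∀ R' ⊆ R, ∑ f ∈ Box (dd j + 1) H, (∏ t ∈ R, W t (fv P f t)) * ∏ t ∈ R', W t (fv P f t) ≤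
      (2 * H + 1) ^ (dd j + 1) * ((2 * Real.log H) ^ R'.card * Real.log H ^ e2)) := by
    choose n0 h0 using fun j => corr_all (dd j) A E (hdd j) e e2 he he20
    choose n1 h1 using fun j => corr_upper (dd j) A E (hdd j) e e2 he he20
    refine ⟨∑ j, (n0 j + n1 j), fun H hH j y hy1 hy2 T0 P hT0 hP R hR hRT W hW => ?_⟩
    have hj : n0 j + n1 j ≤ ∑ j, (n0 j + n1 j) := single_le_sum (f := fun j => n0 j + n1 j) (fun _ _ => Nat.zero_le _) (mem_univ j)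
    exact ⟨h0 j H (by omega) y hy1 hy2 T0 P hT0 hP R hR hRT W hW,
      fun R' hR' => h1 j H (by omega) y hy1 hy2 T0 P hT0 hP R hR hRT W hW R' hR'⟩
  obtain ⟨n0, h0⟩ := hall
  obtain ⟨n2, h2⟩ := ev_L' 4
  obtain ⟨n3, h3⟩ := ev_rpow (4 * r) (e' / 2) (by positivity)
  refine ⟨max n0 (max n2 n3), fun H hH y hy1 hy2 T0 P hT0 hP T T' hT hT' hTT hTT' hdis w hw => ?_⟩
  have hn0 : n0 ≤ H := (le_max_left _ _).trans hH
  have hn2 : n2 ≤ H := ((le_max_left _ _).trans (le_max_right _ _)).trans hH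
  have hn3 : n3 ≤ H := ((le_max_right _ _).trans (le_max_right _ _)).trans hH
  have hL := h2 H hn2
  have a3 := h3 H hn3
  have hL0 : 0 < Real.log H := by linarith
  have hL1 : 1 ≤ Real.log H := by linarith
  have hLe : 1 ≤ Real.log H ^ e := Real.one_le_rpow hL1 he.le
  have hy0 : (1 : ℝ) ≤ y := hLe.trans hy1
  have hB : 1 ≤ Real.log H ^ e2 := Real.one_le_rpow hL1 he20.le
  -- the means
  have key : ∀ w1 w2 : ℤ → ℝ, Wt H E y w1 → Wt H E y w2 →
      |∑ f ∈ Om dd H, MM w1 P f T * MM w2 P f T' - ∏ j, ∑ g ∈ Box (dd j + 1) H, ∏ t ∈ T j ∪ T' j, lz y (fv (P j) g t)| ≤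
        NN dd H * (r * (Real.log H ^ e2 / y) * (Real.log H ^ e2) ^ r) := by
    intro w1 w2 hw1 hw2
    have e1 : ∑ f ∈ Om dd H, MM w1 P f T * MM w2 P f T' =
        ∏ j, ∑ g ∈ Box (dd j + 1) H, ∏ t ∈ T j ∪ T' j, (if t ∈ T j then w1 else w2) (fv (P j) g t) := by
      rw [← sum_Om]
      refine sum_congr rfl fun f _ => ?_
      unfold MM
      rw [← prod_mul_distrib]
      refine prod_congr rfl fun j _ => ?_
      rw [prod_union (hdis j)]
      congr 1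
      · refine prod_congr rfl fun t ht => ?_
        rw [if_pos ht]
      · refine prod_congr rfl fun t ht => ?_
        rw [if_neg (fun h => disjoint_left.1 (hdis j) h ht)]
    have hcardU : ∀ j, (T j ∪ T' j).card ≤ 2 * dd j + 1 := fun j => by
      have := card_union_le (T j) (T' j)
      have h5 := hT j
      have h6 := hT' j
      omega
    have hU : ∀ j, ∀ t ∈ T j ∪ T' j, |t| ≤ (T0 : ℤ) := fun j t ht => by
      rcases mem_union.1 ht with h | h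
      · exact hTT j t h
      · exact hTT' j t h
    have hWW : ∀ j, ∀ t ∈ T j ∪ T' j, Wt H E y (if t ∈ T j then w1 else w2) := by
      intro j t _
      split_ifs
      · exact hw1
      · exact hw2
    rw [e1]
    have h5 := prod_diff (univ : Finset (Fin r))
      (fun j => ∑ g ∈ Box (dd j + 1) H, ∏ t ∈ T j ∪ T' j, (if t ∈ T j then w1 else w2) (fv (P j) g t))
      (fun j => ∑ g ∈ Box (dd j + 1) H, ∏ t ∈ T j ∪ T' j, lz y (fv (P j) g t)) (fun j => (2 * (H : ℝ) + 1) ^ (dd j + 1))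
      (Real.log H ^ e2) (Real.log H ^ e2 / y) hB (by positivity) (fun j _ => by positivity)
      (fun j _ => by
        rw [abs_of_nonneg (sum_nonneg fun g _ => prod_nonneg fun t ht => (hWW j t ht).nonneg _)]
        have h6 := (h0 H hn0 j y hy1 hy2 T0 (P j) hT0 (hP j) (T j ∪ T' j) (hcardU j) (hU j)
          (fun t => if t ∈ T j then w1 else w2) (hWW j)).2 ∅ (empty_subset _)
        simp only [prod_empty, mul_one, card_empty, pow_zero, one_mul] at h6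
        exact h6)
      (fun j _ => by
        rw [abs_of_nonneg (sum_nonneg fun g _ => prod_nonneg fun t ht => lz_nonneg _ _)]
        have h6 := (h0 H hn0 j y hy1 hy2 T0 (P j) hT0 (hP j) (T j ∪ T' j) (hcardU j) (hU j)
          (fun _ => lz y) (fun _ _ => Wt_lz hy2)).2 ∅ (empty_subset _)
        simp only [prod_empty, mul_one, card_empty, pow_zero, one_mul] at h6
        exact h6)
      (fun j _ => (h0 H hn0 j y hy1 hy2 T0 (P j) hT0 (hP j) (T j ∪ T' j) (hcardU j) (hU j)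
          (fun t => if t ∈ T j then w1 else w2) (hWW j)).1)
    rw [card_univ, Fintype.card_fin] at h5
    exact h5
  have k1 := key w w hw hw
  have k2 := key w (lz y) hw (Wt_lz hy2)
  have k3 := key (lz y) w (Wt_lz hy2) hw
  have k4 := key (lz y) (lz y) (Wt_lz hy2) (Wt_lz hy2)
  obtain ⟨c, hc⟩ : ∃ c, c = ∏ j, ∑ g ∈ Box (dd j + 1) H, ∏ t ∈ T j ∪ T' j, lz y (fv (P j) g t) := ⟨_, rfl⟩
  rw [← hc] at k1 k2 k3 k4
  have e3 : ∑ f ∈ Om dd H, (MM w P f T - MM (lz y) P f T) * (MM w P f T' - MM (lz y) P f T') =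
      (∑ f ∈ Om dd H, MM w P f T * MM w P f T' - c) - (∑ f ∈ Om dd H, MM w P f T * MM (lz y) P f T' - c) -
      (∑ f ∈ Om dd H, MM (lz y) P f T * MM w P f T' - c) + (∑ f ∈ Om dd H, MM (lz y) P f T * MM (lz y) P f T' - c) := by
    have : ∀ f ∈ Om dd H, (MM w P f T - MM (lz y) P f T) * (MM w P f T' - MM (lz y) P f T') =
      MM w P f T * MM w P f T' - MM w P f T * MM (lz y) P f T' - MM (lz y) P f T * MM w P f T' +
      MM (lz y) P f T * MM (lz y) P f T' := fun f _ => by ring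
    rw [sum_congr rfl this, sum_add_distrib, sum_sub_distrib, sum_sub_distrib]
    ring
  have hfin : 4 * (NN dd H * (r * (Real.log H ^ e2 / y) * (Real.log H ^ e2) ^ r)) ≤ NN dd H * (Real.log H ^ e' / y) := by
    have h7 : (Real.log H ^ e2) ^ (r + 1) = Real.log H ^ (e' / 2) := by
      rw [← Real.rpow_natCast, ← Real.rpow_mul hL0.le]
      congr 1
      rw [he2]
      push_cast
      field_simp
    have h8 : Real.log H ^ (e' / 2) * Real.log H ^ (e' / 2) = Real.log H ^ e' := by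
      rw [← Real.rpow_add hL0]; congr 1; ring
    calc 4 * (NN dd H * (r * (Real.log H ^ e2 / y) * (Real.log H ^ e2) ^ r))
        = NN dd H * ((4 * r) * (Real.log H ^ e2) ^ (r + 1) / y) := by rw [pow_succ]; ring
      _ = NN dd H * ((4 * r) * Real.log H ^ (e' / 2) / y) := by rw [h7]
      _ ≤ NN dd H * (Real.log H ^ (e' / 2) * Real.log H ^ (e' / 2) / y) := by
          have := (NN_pos dd H).le
          gcongr
      _ = _ := by rw [h8]
  rw [e3]
  refine le_trans ?_ hfin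
  rw [abs_le] at k1 k2 k3 k4 ⊢
  constructor <;> linarith [k1.1, k1.2, k2.1, k2.2, k3.1, k3.2, k4.1, k4.2]

theorem pair_gen (r : ℕ) (dd : Fin r → ℕ) (A E : ℕ) (hdd : ∀ j, 1 ≤ dd j) (e e' : ℝ) (he : 0 < e) (he' : 0 < e') :
    ∃ H0 : ℕ, ∀ H : ℕ, H0 ≤ H → ∀ y : ℕ,
    Real.log H ^ e ≤ y → (y : ℝ) ≤ Real.log H ^ E → ∀ (T0 : ℕ) (P : Fin r → ℤ → ℤ), (T0 : ℝ) ≤ Real.log H ^ A →
    (∀ j, ∀ t : ℤ, |t| ≤ T0 → |(P j t : ℝ)| ≤ H * Real.log H ^ A) →
    ∀ T T' : Fin r → Finset ℤ, (∀ j, (T j).card ≤ dd j) → (∀ j, (T' j).card ≤ dd j) →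
    (∀ j, ∀ t ∈ T j, |t| ≤ (T0 : ℤ)) → (∀ j, ∀ t ∈ T' j, |t| ≤ (T0 : ℤ)) →
    ∀ w : ℤ → ℝ, Wt H E y w →
    ∑ f ∈ Om dd H, (MM w P f T - MM (lz y) P f T) * (MM w P f T' - MM (lz y) P f T') ≤
      NN dd H * ((2 * Real.log H) ^ (∑ j, (T j ∩ T' j).card) * Real.log H ^ e') := by
  classical
  obtain ⟨e2, he2⟩ : ∃ e2 : ℝ, e2 = e' / (2 * (r + 1)) := ⟨_, rfl⟩
  have he20 : 0 < e2 := by rw [he2]; positivity
  choose n1 h1 using fun j => corr_upper (dd j) A E (hdd j) e e2 he he20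
  obtain ⟨n2, h2⟩ := ev_L' 4
  obtain ⟨n3, h3⟩ := ev_rpow 2 (e' / 2) (by positivity)
  refine ⟨max (∑ j, n1 j) (max n2 n3), fun H hH y hy1 hy2 T0 P hT0 hP T T' hT hT' hTT hTT' w hw => ?_⟩
  have hn0 : ∑ j, n1 j ≤ H := (le_max_left _ _).trans hH
  have hn2 : n2 ≤ H := ((le_max_left _ _).trans (le_max_right _ _)).trans hH
  have hn3 : n3 ≤ H := ((le_max_right _ _).trans (le_max_right _ _)).trans hH
  have hL := h2 H hn2
  have a3 := h3 H hn3
  have hL0 : 0 < Real.log H := by linarith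
  have hL1 : 1 ≤ Real.log H := by linarith
  have key : ∀ w1 : ℤ → ℝ, Wt H E y w1 → ∑ f ∈ Om dd H, MM w1 P f T * MM w1 P f T' ≤
      NN dd H * ((2 * Real.log H) ^ (∑ j, (T j ∩ T' j).card) * (Real.log H ^ e2) ^ r) := by
    intro w1 hw1
    have e1 : ∑ f ∈ Om dd H, MM w1 P f T * MM w1 P f T' =
        ∏ j, ∑ g ∈ Box (dd j + 1) H, (∏ t ∈ T j ∪ T' j, w1 (fv (P j) g t)) * ∏ t ∈ T j ∩ T' j, w1 (fv (P j) g t) := by
      rw [← sum_Om]
      refine sum_congr rfl fun f _ => ?_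
      unfold MM
      rw [← prod_mul_distrib]
      refine prod_congr rfl fun j _ => ?_
      rw [prod_union_inter]
    rw [e1]
    have e4 : NN dd H * ((2 * Real.log H) ^ (∑ j, (T j ∩ T' j).card) * (Real.log H ^ e2) ^ r) =
        ∏ j, ((2 * (H : ℝ) + 1) ^ (dd j + 1) * ((2 * Real.log H) ^ (T j ∩ T' j).card * Real.log H ^ e2)) := by
      rw [← prod_pow_eq_pow_sum, prod_mul_distrib, prod_mul_distrib, prod_const, card_univ, Fintype.card_fin]
      rfl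
    rw [e4]
    apply prod_le_prod
    · intro j _
      exact sum_nonneg fun g _ => mul_nonneg (prod_nonneg fun _ _ => hw1.nonneg _) (prod_nonneg fun _ _ => hw1.nonneg _)
    · intro j _
      have hj : n1 j ≤ ∑ j, n1 j := single_le_sum (f := n1) (fun _ _ => Nat.zero_le _) (mem_univ j)
      have hcardU : (T j ∪ T' j).card ≤ 2 * dd j + 1 := by
        have := card_union_le (T j) (T' j)
        have h5 := hT j
        have h6 := hT' j
        omega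
      have hU : ∀ t ∈ T j ∪ T' j, |t| ≤ (T0 : ℤ) := fun t ht => by
        rcases mem_union.1 ht with h | h
        · exact hTT j t h
        · exact hTT' j t h
      exact h1 j H (by omega) y hy1 hy2 T0 (P j) hT0 (hP j) (T j ∪ T' j) hcardU hU (fun _ => w1) (fun _ _ => hw1)
        (T j ∩ T' j) (inter_subset_left.trans subset_union_left)
  have k1 := key w hw
  have k2 := key (lz y) (Wt_lz hy2)
  have h9 : ∑ f ∈ Om dd H, (MM w P f T - MM (lz y) P f T) * (MM w P f T' - MM (lz y) P f T') ≤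
      ∑ f ∈ Om dd H, MM w P f T * MM w P f T' + ∑ f ∈ Om dd H, MM (lz y) P f T * MM (lz y) P f T' := by
    rw [← sum_add_distrib]
    apply sum_le_sum
    intro f _
    have p1 := MM_nonneg (fun u => hw.nonneg u) P f T
    have p2 := MM_nonneg (fun u => hw.nonneg u) P f T'
    have p3 := MM_nonneg (lz_nonneg y) P f T
    have p4 := MM_nonneg (lz_nonneg y) P f T'
    have q1 := mul_nonneg p1 p4
    have q2 := mul_nonneg p3 p2
    nlinarith
  refine h9.trans ((add_le_add k1 k2).trans ?_)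
  have h7 : (Real.log H ^ e2) ^ r ≤ Real.log H ^ (e' / 2) := by
    rw [← Real.rpow_natCast, ← Real.rpow_mul hL0.le]
    apply Real.rpow_le_rpow_of_exponent_le hL1
    rw [he2, div_mul_eq_mul_div, div_le_div_iff₀ (by positivity) (by norm_num)]
    nlinarith
  have h8 : Real.log H ^ (e' / 2) * Real.log H ^ (e' / 2) = Real.log H ^ e' := by
    rw [← Real.rpow_add hL0]; congr 1; ring
  have hX : 0 ≤ NN dd H * (2 * Real.log H) ^ (∑ j, (T j ∩ T' j).card) := mul_nonneg (NN_pos dd H).le (by positivity)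
  calc NN dd H * ((2 * Real.log H) ^ (∑ j, (T j ∩ T' j).card) * (Real.log H ^ e2) ^ r) +
        NN dd H * ((2 * Real.log H) ^ (∑ j, (T j ∩ T' j).card) * (Real.log H ^ e2) ^ r)
      = (NN dd H * (2 * Real.log H) ^ (∑ j, (T j ∩ T' j).card)) * (2 * (Real.log H ^ e2) ^ r) := by ring
    _ ≤ (NN dd H * (2 * Real.log H) ^ (∑ j, (T j ∩ T' j).card)) * (Real.log H ^ (e' / 2) * Real.log H ^ (e' / 2)) := by
        apply mul_le_mul_of_nonneg_left _ hX
        apply mul_le_mul a3 h7 (by positivity) (by positivity)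
    _ = _ := by rw [h8]; ring

open Classical in
/-- the second moment -/
theorem second (r : ℕ) (dd : Fin r → ℕ) (A E : ℕ) (hdd : ∀ j, 1 ≤ dd j) (e e' : ℝ) (he : 0 < e) (he' : 0 < e') :
    ∃ H0 : ℕ, ∀ H : ℕ, H0 ≤ H → ∀ y : ℕ,
    Real.log H ^ e ≤ y → (y : ℝ) ≤ Real.log H ^ E → ∀ (T0 : ℕ) (P : Fin r → ℤ → ℤ), (T0 : ℝ) ≤ Real.log H ^ A →
    (∀ j, ∀ t : ℤ, |t| ≤ T0 → |(P j t : ℝ)| ≤ H * Real.log H ^ A) →
    ∀ (ι : Type) (I : Finset ι) (T : ι → Fin r → Finset ℤ), (∀ i ∈ I, ∀ j, (T i j).card ≤ dd j) →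
    (∀ i ∈ I, ∀ j, ∀ t ∈ T i j, |t| ≤ (T0 : ℤ)) → ∀ w : ℤ → ℝ, Wt H E y w →
    ∑ f ∈ Om dd H, (∑ i ∈ I, (MM w P f (T i) - MM (lz y) P f (T i))) ^ 2 ≤
      NN dd H * (Real.log H ^ e' * ((I.card : ℝ) ^ 2 / y + ∑ q ∈ (I ×ˢ I).filter (fun q => ∃ j, ¬ Disjoint (T q.1 j) (T q.2 j)),
        (2 * Real.log H) ^ (∑ j, (T q.1 j ∩ T q.2 j).card))) := by
  obtain ⟨n0, h0⟩ := pair_disj r dd A E hdd e e' he he'
  obtain ⟨n1, h1⟩ := pair_gen r dd A E hdd e e' he he'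
  obtain ⟨n2, h2⟩ := ev_L' 4
  refine ⟨max (max n0 n1) n2, fun H hH y hy1 hy2 T0 P hT0 hP ι I T hT hTT w hw => ?_⟩
  have hn0 : n0 ≤ H := ((le_max_left _ _).trans (le_max_left _ _)).trans hH
  have hn1 : n1 ≤ H := ((le_max_right _ _).trans (le_max_left _ _)).trans hH
  have hn2 : n2 ≤ H := (le_max_right _ _).trans hH
  have hL := h2 H hn2
  have hL0 : 0 < Real.log H := by linarith
  have hN := NN_pos dd H
  have e1 : ∑ f ∈ Om dd H, (∑ i ∈ I, (MM w P f (T i) - MM (lz y) P f (T i))) ^ 2 =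
      ∑ q ∈ I ×ˢ I, ∑ f ∈ Om dd H, (MM w P f (T q.1) - MM (lz y) P f (T q.1)) * (MM w P f (T q.2) - MM (lz y) P f (T q.2)) := by
    rw [sum_comm]
    refine sum_congr rfl fun f _ => ?_
    rw [sq, sum_mul_sum, ← sum_product']
  rw [e1, ← sum_filter_add_sum_filter_not (I ×ˢ I) (fun q => ∃ j, ¬ Disjoint (T q.1 j) (T q.2 j))]
  have b1 : ∑ q ∈ (I ×ˢ I).filter (fun q => ∃ j, ¬ Disjoint (T q.1 j) (T q.2 j)),
      ∑ f ∈ Om dd H, (MM w P f (T q.1) - MM (lz y) P f (T q.1)) * (MM w P f (T q.2) - MM (lz y) P f (T q.2)) ≤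
      NN dd H * (Real.log H ^ e' * ∑ q ∈ (I ×ˢ I).filter (fun q => ∃ j, ¬ Disjoint (T q.1 j) (T q.2 j)),
        (2 * Real.log H) ^ (∑ j, (T q.1 j ∩ T q.2 j).card)) := by
    rw [mul_sum, mul_sum]
    apply sum_le_sum
    intro q hq
    rw [mem_filter, mem_product] at hq
    refine (h1 H hn1 y hy1 hy2 T0 P hT0 hP (T q.1) (T q.2) (hT _ hq.1.1) (hT _ hq.1.2) (hTT _ hq.1.1) (hTT _ hq.1.2) w hw).trans ?_
    rw [mul_comm (Real.log H ^ e')]
  have b2 : ∑ q ∈ (I ×ˢ I).filter (fun q => ¬ ∃ j, ¬ Disjoint (T q.1 j) (T q.2 j)),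
      ∑ f ∈ Om dd H, (MM w P f (T q.1) - MM (lz y) P f (T q.1)) * (MM w P f (T q.2) - MM (lz y) P f (T q.2)) ≤
      NN dd H * (Real.log H ^ e' * ((I.card : ℝ) ^ 2 / y)) := by
    calc _ ≤ ∑ _q ∈ (I ×ˢ I).filter (fun q => ¬ ∃ j, ¬ Disjoint (T q.1 j) (T q.2 j)), NN dd H * (Real.log H ^ e' / y) := by
          apply sum_le_sum
          intro q hq
          rw [mem_filter, mem_product] at hq
          have hd : ∀ j, Disjoint (T q.1 j) (T q.2 j) := by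
            intro j
            by_contra hcon
            exact hq.2 ⟨j, hcon⟩
          exact (le_abs_self _).trans (h0 H hn0 y hy1 hy2 T0 P hT0 hP (T q.1) (T q.2) (hT _ hq.1.1) (hT _ hq.1.2) (hTT _ hq.1.1) (hTT _ hq.1.2) hd w hw)
      _ ≤ ∑ _q ∈ I ×ˢ I, NN dd H * (Real.log H ^ e' / y) := by
          apply sum_le_sum_of_subset_of_nonneg (filter_subset _ _)
          intro _ _ _
          positivity
      _ = _ := by
          rw [sum_const, nsmul_eq_mul, card_product]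
          push_cast
          ring
  calc _ ≤ _ := add_le_add b1 b2
    _ = _ := by ring

end Pool.Agent.T9h23.Cor
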