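import Mathlib
import Pool.Agent.T9h23.Cor.Sys
import Pool.Agent.H373R2.T7.Fund

/-! The sieve for the values of one polynomial; local densities of polynomials. -/

set_option autoImplicit false

namespace Pool.Agent.T9h23.Cor
open Finset Polynomial
open Pool.Agent.H373R2.T7

/-- the number of zeros modulo `p` -/
def om (q : ℤ[X]) (p : ℕ) : ℕ := ((range p).filter (fun n : ℕ => (p : ℤ) ∣ q.eval (n : ℤ))).card

/-- the density of the values without prime factors up to `y` -/
noncomputable def Dn (q : ℤ[X]) (y : ℕ) : ℝ := ∏ p ∈ pz y, (1 - (om q p : ℝ) / p)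

lemma om_le (q : ℤ[X]) (p : ℕ) : om q p ≤ p := by
  unfold om
  exact (card_filter_le _ _).trans (by simp)

lemma om_le_deg (q : ℤ[X]) {p : ℕ} (hp : p.Prime) (h : om q p < p) : om q p ≤ q.natDegree := by
  classical
  have : Fact p.Prime := ⟨hp⟩
  have hne : q.map (Int.castRingHom (ZMod p)) ≠ 0 := by
    intro h0
    apply h.ne
    unfold om
    rw [filter_true_of_mem, card_range]
    intro n _
    have h1 : ((q.eval (n : ℤ) : ℤ) : ZMod p) = 0 := by
      have h2 : (q.map (Int.castRingHom (ZMod p))).eval ((n : ℤ) : ZMod p) = ((q.eval (n : ℤ) : ℤ) : ZMod p) := by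
        rw [eval_intCast_map]
        rfl
      rw [← h2, h0, eval_zero]
    exact (ZMod.intCast_zmod_eq_zero_iff_dvd _ _).1 h1
  have h1 : om q p ≤ ((q.map (Int.castRingHom (ZMod p))).roots.toFinset).card := by
    unfold om
    apply card_le_card_of_injOn (fun n : ℕ => ((n : ℤ) : ZMod p))
    · intro n hn
      rw [mem_coe, mem_filter, mem_range] at hn
      rw [mem_coe, Multiset.mem_toFinset, mem_roots hne]
      unfold IsRoot
      rw [eval_intCast_map]
      exact (ZMod.intCast_zmod_eq_zero_iff_dvd _ _).2 hn.2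
    · intro a ha b hb hab
      rw [mem_coe, mem_filter, mem_range] at ha hb
      simp only [Int.cast_natCast] at hab
      rw [ZMod.natCast_eq_natCast_iff] at hab
      exact Nat.ModEq.eq_of_lt_of_lt hab ha.1 hb.1
  refine h1.trans ((Multiset.toFinset_card_le _).trans ((card_roots' _).trans ?_))
  exact natDegree_map_le

lemma om_full (q : ℤ[X]) {p : ℕ} (hp : p.Prime) (h : om q p = p) (n : ℤ) : (p : ℤ) ∣ q.eval n := by
  have hp0 : (0 : ℤ) < p := by exact_mod_cast hp.pos
  have h1 : (range p).filter (fun n : ℕ => (p : ℤ) ∣ q.eval (n : ℤ)) = range p := by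
    apply eq_of_subset_of_card_le (filter_subset _ _)
    rw [card_range]
    exact h.ge
  have h2 := Int.emod_nonneg n hp0.ne'
  have h3 := Int.emod_lt_of_pos n hp0
  have h4 : (n % p).toNat ∈ range p := by rw [mem_range]; omega
  rw [← h1, mem_filter] at h4
  have h5 : (((n % p).toNat : ℕ) : ℤ) = n % p := Int.toNat_of_nonneg h2
  rw [h5] at h4
  have h6 : (p : ℤ) ∣ n - n % p := Int.dvd_self_sub_emod
  have h7 : (n - n % p) ∣ q.eval n - q.eval (n % p) := sub_dvd_eval_sub n (n % p) q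
  have h8 := dvd_add (h6.trans h7) h4.2
  simpa using h8

lemma om_div_le {q : ℤ[X]} {p : ℕ} (hp : p.Prime) : (om q p : ℝ) / p ≤ 1 := by
  have hp0 : (0 : ℝ) < p := by exact_mod_cast hp.pos
  rw [div_le_one hp0]
  exact_mod_cast om_le q p

lemma Dn_nonneg (q : ℤ[X]) (y : ℕ) : 0 ≤ Dn q y := by
  unfold Dn
  apply prod_nonneg
  intro p hp
  have := om_div_le (q := q) (mem_pz.1 hp).2
  linarith

lemma Dn_anti (q : ℤ[X]) {y z : ℕ} (h : y ≤ z) : Dn q z ≤ Dn q y := by
  have hsub : pz y ⊆ pz z := by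
    intro p hp
    rw [mem_pz] at hp ⊢
    exact ⟨hp.1.trans h, hp.2⟩
  have h1 : ∏ p ∈ pz z \ pz y, (1 - (om q p : ℝ) / p) ≤ 1 := by
    apply prod_le_one
    · intro p hp
      have := om_div_le (q := q) (mem_pz.1 (mem_sdiff.1 hp).1).2
      linarith
    · intro p hp
      have : 0 ≤ (om q p : ℝ) / p := by positivity
      linarith
  have h2 : Dn q z = (∏ p ∈ pz z \ pz y, (1 - (om q p : ℝ) / p)) * Dn q y := (prod_sdiff hsub).symm
  rw [h2]
  have h3 := Dn_nonneg q y
  nlinarith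

lemma Dn_zero {q : ℤ[X]} {y p : ℕ} (hp : p ∈ pz y) (h : om q p = p) : Dn q y = 0 := by
  unfold Dn
  apply prod_eq_zero hp
  have hp0 : (p : ℝ) ≠ 0 := by exact_mod_cast (mem_pz.1 hp).2.ne_zero
  rw [h, div_self hp0, sub_self]

lemma om_lt_of_pos {q : ℤ[X]} {y : ℕ} (h : Dn q y ≠ 0) {p : ℕ} (hp : p ∈ pz y) : om q p < p := by
  rcases lt_or_eq_of_le (om_le q p) with h1 | h1
  · exact h1
  · exact absurd (Dn_zero hp h1) h

/-- the sifting condition -/
def QP (q : ℤ[X]) (y p n : ℕ) : Prop := p ∈ pz y ∧ (p : ℤ) ∣ q.eval (n : ℤ)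

theorem sieve_poly (c : ℕ) (ε : ℝ) (hε : 0 < ε) : ∃ K x0 : ℕ, 1 ≤ K ∧ ∀ x y : ℕ, x0 ≤ y → y ^ K ≤ x →
    ∀ q : ℤ[X], q.natDegree ≤ c → ∀ X : ℕ, |((((Icc 1 X).filter (fun n : ℕ => ∀ p ∈ pz y, ¬ (p : ℤ) ∣ q.eval (n : ℤ))).card : ℕ) : ℝ) -
      X * Dn q y| ≤ ε * (X * Dn q y) + √(x : ℝ) := by
  classical
  obtain ⟨K, x0, hK, h0⟩ := sys_fund (c + 1) (by omega) ε hε
  refine ⟨K, x0, hK, fun x y hy hyx q hq X => ?_⟩
  by_cases hz : ∃ p ∈ pz y, om q p = p
  · obtain ⟨p, hp, hpp⟩ := hz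
    rw [Dn_zero hp hpp, mul_zero, mul_zero, sub_zero, zero_add]
    have : (Icc 1 X).filter (fun n : ℕ => ∀ p ∈ pz y, ¬ (p : ℤ) ∣ q.eval (n : ℤ)) = ∅ := by
      rw [filter_eq_empty_iff]
      intro n _ h
      exact h p hp (om_full q (mem_pz.1 hp).2 hpp n)
    rw [this, card_empty, Nat.cast_zero, abs_zero]
    positivity
  · push Not at hz
    have hQ : PerB (QP q y) (c + 1) := by
      constructor
      · intro p n
        unfold QP
        refine and_congr_right fun _ => ?_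
        have h1 : ((n : ℤ) - ((n % p : ℕ) : ℤ)) ∣ q.eval (n : ℤ) - q.eval ((n % p : ℕ) : ℤ) := sub_dvd_eval_sub _ _ q
        have h2 : (p : ℤ) ∣ (n : ℤ) - ((n % p : ℕ) : ℤ) := by
          rw [Int.natCast_mod]
          exact Int.dvd_self_sub_emod
        have h3 := h2.trans h1
        constructor
        · intro h
          have := dvd_sub h h3
          simpa using this
        · intro h
          have := dvd_add h3 h
          simpa using this
      · intro p hp
        unfold nuB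
        by_cases hpy : p ∈ pz y
        · have h1 : om q p < p := lt_of_le_of_ne (om_le q p) (hz p hpy)
          have h2 := om_le_deg q hp h1
          refine le_trans (card_le_card (t := (range p).filter (fun r : ℕ => (p : ℤ) ∣ q.eval (r : ℤ))) ?_) (h2.trans (hq.trans (Nat.le_succ c)))
          intro r hr
          rw [mem_filter] at hr ⊢
          exact ⟨hr.1, hr.2.2⟩
        · refine le_trans (card_le_card (t := (∅ : Finset ℕ)) ?_) (Nat.zero_le _)
          intro r hr
          rw [mem_filter] at hr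
          exact absurd hr.2.1 hpy
    have h1 := h0 x y hy hyx _ hQ X
    have e1 : (Icc 1 X).filter (fun n : ℕ => ∀ p ∈ pz y, ¬ QP q y p n) =
        (Icc 1 X).filter (fun n : ℕ => ∀ p ∈ pz y, ¬ (p : ℤ) ∣ q.eval (n : ℤ)) := by
      ext n
      rw [mem_filter, mem_filter]
      exact and_congr_right fun _ => ⟨fun h p hp hd => h p hp ⟨hp, hd⟩, fun h p hp hd => h p hp hd.2⟩
    have e2 : ∏ p ∈ pz y, (1 - (nuB (QP q y) p : ℝ) / p) = Dn q y := by
      unfold Dn
      refine prod_congr rfl fun p hp => ?_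
      have : nuB (QP q y) p = om q p := by
        unfold nuB om
        apply congrArg
        ext n
        rw [mem_filter, mem_filter]
        exact and_congr_right fun _ => ⟨fun h => h.2, fun h => ⟨hp, h⟩⟩
      rw [this]
    rw [e1, e2] at h1
    exact h1

/-- lower bound for the density -/
theorem Dn_lower (c : ℕ) (hc : 1 ≤ c) : ∃ κ : ℝ, 0 < κ ∧ ∀ q : ℤ[X], q.natDegree ≤ c → ∀ y : ℕ, Dn q y ≠ 0 → κ * Vz y ^ (2 * c) ≤ Dn q y := by
  classical
  have hc0 : (0 : ℝ) < c := by exact_mod_cast hc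
  refine ⟨(1 / (2 * c : ℝ)) ^ (2 * c), by positivity, fun q hq y hy => ?_⟩
  have hfac : ∀ p ∈ pz y, 0 ≤ 1 - (om q p : ℝ) / p := fun p hp => by
    have := om_div_le (q := q) (mem_pz.1 hp).2
    linarith
  have e1 : Dn q y = (∏ p ∈ (pz y).filter (fun p => p ≤ 2 * c), (1 - (om q p : ℝ) / p)) *
      ∏ p ∈ (pz y).filter (fun p => ¬ p ≤ 2 * c), (1 - (om q p : ℝ) / p) := (prod_filter_mul_prod_filter_not _ _ _).symm
  have e2 : Vz y = (∏ p ∈ (pz y).filter (fun p => p ≤ 2 * c), (1 - 1 / (p : ℝ))) *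
      ∏ p ∈ (pz y).filter (fun p => ¬ p ≤ 2 * c), (1 - 1 / (p : ℝ)) := (prod_filter_mul_prod_filter_not _ _ _).symm
  have h1 : (1 / (2 * c : ℝ)) ^ (2 * c) ≤ ∏ p ∈ (pz y).filter (fun p => p ≤ 2 * c), (1 - (om q p : ℝ) / p) := by
    have hcard : ((pz y).filter (fun p => p ≤ 2 * c)).card ≤ 2 * c := by
      have hsub : (pz y).filter (fun p => p ≤ 2 * c) ⊆ Icc 1 (2 * c) := by
        intro p hp
        rw [mem_filter, mem_pz] at hp
        rw [mem_Icc]
        exact ⟨hp.1.2.one_le, hp.2⟩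
      have := card_le_card hsub
      simpa using this
    have hle1 : (1 / (2 * c : ℝ)) ≤ 1 := by
      rw [div_le_one (by positivity)]
      have : (1 : ℝ) ≤ c := by exact_mod_cast hc
      linarith
    calc (1 / (2 * c : ℝ)) ^ (2 * c) ≤ (1 / (2 * c : ℝ)) ^ ((pz y).filter (fun p => p ≤ 2 * c)).card :=
          pow_le_pow_of_le_one (by positivity) hle1 hcard
      _ = ∏ _p ∈ (pz y).filter (fun p => p ≤ 2 * c), (1 / (2 * c : ℝ)) := by rw [prod_const]
      _ ≤ _ := by
          apply prod_le_prod (fun _ _ => by positivity)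
          intro p hp
          rw [mem_filter] at hp
          have hlt := om_lt_of_pos hy hp.1
          have hp0 : (0 : ℝ) < p := by exact_mod_cast (mem_pz.1 hp.1).2.pos
          have h2 : (om q p : ℝ) + 1 ≤ p := by exact_mod_cast hlt
          have h3 : 1 - (om q p : ℝ) / p = (p - om q p) / p := by field_simp
          rw [h3]
          have h4 : (p : ℝ) ≤ 2 * c := by exact_mod_cast hp.2
          calc 1 / (2 * c : ℝ) ≤ 1 / p := one_div_le_one_div_of_le hp0 h4
            _ ≤ _ := by gcongr; linarith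
  have h2 : (∏ p ∈ (pz y).filter (fun p => ¬ p ≤ 2 * c), (1 - 1 / (p : ℝ))) ^ (2 * c) ≤
      ∏ p ∈ (pz y).filter (fun p => ¬ p ≤ 2 * c), (1 - (om q p : ℝ) / p) := by
    rw [← prod_pow]
    apply prod_le_prod
    · intro p hp
      have hp2 : (2 : ℝ) ≤ p := by exact_mod_cast (mem_pz.1 (mem_filter.1 hp).1).2.two_le
      apply pow_nonneg
      rw [sub_nonneg, div_le_one (by linarith)]; linarith
    · intro p hp
      rw [mem_filter] at hp
      have hpp := (mem_pz.1 hp.1).2
      have hp2 : (2 : ℝ) ≤ p := by exact_mod_cast hpp.two_le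
      have hp0 : (0 : ℝ) < p := by linarith
      have h3 := om_le_deg q hpp (om_lt_of_pos hy hp.1)
      have h4 : (om q p : ℝ) ≤ c := by exact_mod_cast h3.trans hq
      have h5 : (2 * c : ℝ) ≤ p := by
        have : 2 * c ≤ p := by omega
        exact_mod_cast this
      have h6 : (1 - 1 / (p : ℝ)) ^ (2 * c) ≤ 1 - c / p := by
        have hx0 : 0 ≤ 1 / (p : ℝ) := by positivity
        have hx1 : 1 / (p : ℝ) ≤ 1 := by rw [div_le_one hp0]; linarith
        have h7 : 1 + (2 * c : ℕ) * (1 / (p : ℝ)) ≤ (1 + 1 / (p : ℝ)) ^ (2 * c) := one_add_mul_le_pow (by linarith) _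
        have h8 : (1 - 1 / (p : ℝ)) ^ (2 * c) * (1 + 1 / (p : ℝ)) ^ (2 * c) ≤ 1 := by
          rw [← mul_pow]
          apply pow_le_one₀
          · nlinarith
          · nlinarith
        have h9 : 0 ≤ (1 - 1 / (p : ℝ)) ^ (2 * c) := pow_nonneg (by linarith) _
        have h10 : (1 - 1 / (p : ℝ)) ^ (2 * c) * (1 + (2 * c : ℕ) * (1 / (p : ℝ))) ≤ 1 := (mul_le_mul_of_nonneg_left h7 h9).trans h8
        push_cast at h10
        obtain ⟨u, hu⟩ : ∃ u : ℝ, u = c / p := ⟨_, rfl⟩
        have hu0 : 0 ≤ u := by rw [hu]; positivity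
        have hu1 : u ≤ 1 / 2 := by
          rw [hu, div_le_div_iff₀ hp0 (by norm_num)]
          linarith
        have e3 : 1 + 2 * (c : ℝ) * (1 / (p : ℝ)) = 1 + 2 * u := by rw [hu]; ring
        rw [e3] at h10
        rw [← hu]
        by_contra hcon
        push Not at hcon
        have h11 : (1 - u) * (1 + 2 * u) < (1 - 1 / (p : ℝ)) ^ (2 * c) * (1 + 2 * u) :=
          mul_lt_mul_of_pos_right hcon (by linarith)
        nlinarith
      refine h6.trans ?_
      have : (om q p : ℝ) / p ≤ c / p := by gcongr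
      linarith
  have h3 : ∏ p ∈ (pz y).filter (fun p => p ≤ 2 * c), (1 - 1 / (p : ℝ)) ≤ 1 := by
    apply prod_le_one
    · intro p hp
      have hp2 : (2 : ℝ) ≤ p := by exact_mod_cast (mem_pz.1 (mem_filter.1 hp).1).2.two_le
      rw [sub_nonneg, div_le_one (by linarith)]; linarith
    · intro p hp
      have : 0 ≤ 1 / (p : ℝ) := by positivity
      linarith
  have h4 : 0 ≤ ∏ p ∈ (pz y).filter (fun p => ¬ p ≤ 2 * c), (1 - 1 / (p : ℝ)) := by
    apply prod_nonneg
    intro p hp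
    have hp2 : (2 : ℝ) ≤ p := by exact_mod_cast (mem_pz.1 (mem_filter.1 hp).1).2.two_le
    rw [sub_nonneg, div_le_one (by linarith)]; linarith
  have h5 : Vz y ^ (2 * c) ≤ (∏ p ∈ (pz y).filter (fun p => ¬ p ≤ 2 * c), (1 - 1 / (p : ℝ))) ^ (2 * c) := by
    apply pow_le_pow_left₀ (Vz_pos y).le
    rw [e2]
    nlinarith
  rw [e1]
  calc (1 / (2 * c : ℝ)) ^ (2 * c) * Vz y ^ (2 * c)
      ≤ (1 / (2 * c : ℝ)) ^ (2 * c) * (∏ p ∈ (pz y).filter (fun p => ¬ p ≤ 2 * c), (1 - 1 / (p : ℝ))) ^ (2 * c) := by gcongr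
    _ ≤ _ := mul_le_mul h1 h2 (by positivity) (le_trans (by positivity) h1)

end Pool.Agent.T9h23.Cor
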